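import Pool.Agent.H46.CY.SrcC

/-!
# CY.Cnt : cyclic sequences which meet fewer than d pieces (about 110 lines)

`Φ` from `src_cyc`. If `f` is in the set then `y = Φ f` has a coordinate `i` with `c (y i) = 0`, or two coordinates `i ≠ j` with `c (y i) = c (y j) ≠ 0` (otherwise `i ↦ c (y i)` is injective into the set of the colours met, which is finite, so it has at least `d` elements). Number of `y : Fin d → V`
with `c (y i) = 0` for a fixed `i`: at most `w n ^ (d - 1)`; with `c (y i) = c (y j) ≠ 0` for fixed `i ≠ j`: at most `M n ^ (d - 1)` (`y j` is in the class of `y i`). Together at most `d w n ^ (d - 1) + d ^ 2 M n ^ (d - 1)`, times the constant of `src_cyc`.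
(A convenient way: the number of `y : Fin d → V` with `y j ∈ S (y restricted to the others)` is at most `n ^ (d - 1)` times the maximum of `#S`, `Fin.insertNthEquiv`.)
-/

namespace H46.CY

open Pool.Agent.H3.LC

private theorem cnt_aux {d : ℕ} {V : Type} [Fintype V] [DecidableEq V] (j : Fin d)
    (S : (Fin d → V) → Set V) (s : ℕ) (hS : ∀ y v, S (Function.update y j v) = S y)
    (hs : ∀ y, (S y).ncard ≤ s) :
    {y : Fin d → V | y j ∈ S y}.ncard ≤ s * Fintype.card V ^ (d - 1) := by
  classical
  set A : Finset (Fin d → V) := Finset.univ.filter (fun y => y j ∈ S y) with hA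
  have h1 : {y : Fin d → V | y j ∈ S y}.ncard = A.card := by
    rw [← Set.ncard_coe_finset]
    congr 1
    ext y
    simp [hA]
  rw [h1]
  let r : (Fin d → V) → ({k : Fin d // k ≠ j} → V) := fun y k => y k
  have hupd : ∀ y y', r y = r y' → y = Function.update y' j (y j) := by
    intro y y' h
    funext k
    by_cases hk : k = j
    · subst hk
      simp
    · rw [Function.update_of_ne hk]
      exact congrFun h ⟨k, hk⟩
  have h2 : ∀ z ∈ A.image r, (A.filter (fun y => r y = z)).card ≤ s := by
    intro z hz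
    obtain ⟨y0, hy0, hz0⟩ := Finset.mem_image.1 hz
    have h3 : (A.filter (fun y => r y = z)).card ≤ (S y0).toFinset.card := by
      apply Finset.card_le_card_of_injOn (fun y => y j)
      · intro y hy
        have hy' := (Finset.mem_filter.1 (Finset.mem_coe.1 hy))
        have e1 : y j ∈ S y := (Finset.mem_filter.1 hy'.1).2
        have e2 : y = Function.update y0 j (y j) := hupd y y0 (hy'.2.trans hz0.symm)
        have e3 : S y = S y0 := by
          rw [e2]
          exact hS y0 (y j)
        rw [e3] at e1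
        simpa using e1
      · intro y hy y' hy' h
        have e1 := (Finset.mem_filter.1 (Finset.mem_coe.1 hy)).2
        have e2 := (Finset.mem_filter.1 (Finset.mem_coe.1 hy')).2
        have e3 : y = Function.update y' j (y j) := hupd y y' (e1.trans e2.symm)
        have e4 : y j = y' j := h
        rw [e4] at e3
        simpa using e3
    refine h3.trans ?_
    rw [← Set.ncard_eq_toFinset_card']
    exact hs y0
  have h4 := Finset.card_le_mul_card_image A s h2
  refine h4.trans (Nat.mul_le_mul_left s ?_)
  refine (Finset.card_le_univ _).trans ?_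
  rw [Fintype.card_fun]
  apply le_of_eq
  congr 1
  rw [Fintype.card_subtype_compl (fun k => k = j)]
  simp

theorem few_bad (D l d m : ℕ) (hl : 2 ≤ l) (hm : 3 ≤ m) (hd : 1 ≤ d) (hmd : m < (d + 1) * l) :
    ∃ C : ℕ, ∀ (V : Type) [Finite V] (G : SimpleGraph V) (le : V → V → Prop), IsElim G D le →
      NoEven G l → ∀ (c : V → ℕ) (w M : ℕ), {v | c v = 0}.ncard ≤ w →
      (∀ i, i ≠ 0 → {v | c v = i}.ncard ≤ M) →
      {f : ZMod m → V | IsCyc G f ∧ {i | i ≠ 0 ∧ ∃ x, c (f x) = i}.ncard < d}.ncard ≤
        C * ((w + M) * Nat.card V ^ (d - 1)) := by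
  classical
  obtain ⟨C0, hC0⟩ := src_cyc D l d m hl hm hd hmd
  refine ⟨C0 * (d + d * d), ?_⟩
  intro V _ G le he hn c w M hw hM
  haveI : Fintype V := Fintype.ofFinite V
  haveI : NeZero m := ⟨by omega⟩
  haveI : Fintype (ZMod m) := ZMod.fintype m
  obtain ⟨Φ, hΦ1, hΦ2⟩ := hC0 V G le he hn
  rw [Nat.card_eq_fintype_card]
  set n := Fintype.card V with hn'
  let A : Fin d → Set (Fin d → V) := fun i => {y | y i ∈ {v : V | c v = 0}}
  let B : Fin d × Fin d → Set (Fin d → V) := fun p =>
    {y | p.1 ≠ p.2 ∧ c (y p.1) ≠ 0 ∧ c (y p.2) = c (y p.1)}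
  have hA : ∀ i, (A i).ncard ≤ w * n ^ (d - 1) := fun i =>
    cnt_aux i (fun _ => {v | c v = 0}) w (fun _ _ => rfl) (fun _ => hw)
  have hB : ∀ p, (B p).ncard ≤ M * n ^ (d - 1) := by
    intro p
    by_cases hp : p.1 = p.2
    · have : B p = ∅ := by
        ext y
        simp [B, hp]
      rw [this]
      simp
    · have h := cnt_aux p.2 (fun y => {v : V | c (y p.1) ≠ 0 ∧ c v = c (y p.1)}) M
        (fun y v => by rw [Function.update_of_ne hp])
        (fun y => by
          by_cases h0 : c (y p.1) = 0
          · have : {v : V | c (y p.1) ≠ 0 ∧ c v = c (y p.1)} = ∅ := by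
              ext v
              simp [h0]
            simp only [this]
            simp
          · have : {v : V | c (y p.1) ≠ 0 ∧ c v = c (y p.1)} = {v | c v = c (y p.1)} := by
              ext v
              simp [h0]
            simp only [this]
            exact hM _ h0)
      refine le_trans (Set.ncard_le_ncard ?_ (Set.toFinite _)) h
      intro y hy
      exact ⟨hy.2.1, hy.2.2⟩
  set F : Finset (ZMod m → V) := Finset.univ.filter (fun f => IsCyc G f ∧
    {i | i ≠ 0 ∧ ∃ x, c (f x) = i}.ncard < d) with hF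
  have h1 : {f : ZMod m → V | IsCyc G f ∧ {i | i ≠ 0 ∧ ∃ x, c (f x) = i}.ncard < d}.ncard =
      F.card := by
    rw [← Set.ncard_coe_finset]
    congr 1
    ext f
    simp [hF]
  rw [h1]
  have h2 : ∀ y ∈ F.image Φ, (F.filter (fun f => Φ f = y)).card ≤ C0 := by
    intro y _
    refine le_trans ?_ (hΦ2 y)
    rw [← Set.ncard_coe_finset]
    refine Set.ncard_le_ncard ?_ (Set.toFinite _)
    intro f hf
    have hf' := Finset.mem_filter.1 (Finset.mem_coe.1 hf)
    exact ⟨(Finset.mem_filter.1 hf'.1).2.1, hf'.2⟩
  have h3 := Finset.card_le_mul_card_image F C0 h2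
  have h4 : (F.image Φ).card ≤ (d + d * d) * ((w + M) * n ^ (d - 1)) := by
    have hsub : ((F.image Φ : Finset (Fin d → V)) : Set (Fin d → V)) ⊆
        (⋃ i ∈ (Finset.univ : Finset (Fin d)), A i) ∪
        (⋃ p ∈ (Finset.univ : Finset (Fin d × Fin d)), B p) := by
      intro y hy
      obtain ⟨f, hf, rfl⟩ := Finset.mem_image.1 (Finset.mem_coe.1 hy)
      obtain ⟨hf1, hf2⟩ := (Finset.mem_filter.1 hf).2
      by_contra hcon
      simp only [Set.mem_union, Set.mem_iUnion, Finset.mem_univ, exists_true_left, not_or,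
        not_exists] at hcon
      obtain ⟨k1, k2⟩ := hcon
      have k1' : ∀ i, c (Φ f i) ≠ 0 := fun i h => k1 i h
      have hinj : Function.Injective (fun i => c (Φ f i)) := by
        intro i j hij
        by_contra hne
        exact k2 (i, j) ⟨hne, k1' i, hij.symm⟩
      have h5 : d ≤ {i | i ≠ 0 ∧ ∃ x, c (f x) = i}.ncard := by
        have e1 : (Set.range (fun i => c (Φ f i))).ncard = d := by
          rw [← Set.image_univ, Set.ncard_image_of_injective _ hinj, Set.ncard_univ]
          simp
        rw [← e1]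
        refine Set.ncard_le_ncard ?_ ?_
        · rintro _ ⟨i, rfl⟩
          obtain ⟨x, hx⟩ := hΦ1 f hf1 i
          exact ⟨k1' i, x, by rw [hx]⟩
        · refine (Set.finite_range (fun x => c (f x))).subset ?_
          rintro i ⟨-, x, hx⟩
          exact ⟨x, hx⟩
      omega
    have h6 : ∀ (ι : Type) (s : Finset ι) (T : ι → Set (Fin d → V)) (k : ℕ),
        (∀ i ∈ s, (T i).ncard ≤ k) → (⋃ i ∈ s, T i).ncard ≤ s.card * k := by
      intro ι s T k hk
      induction s using Finset.induction_on with
      | empty => simp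
      | insert a s ha ih =>
        rw [Finset.set_biUnion_insert, Finset.card_insert_of_notMem ha]
        refine (Set.ncard_union_le _ _).trans ?_
        have e1 := hk a (Finset.mem_insert_self a s)
        have e2 := ih (fun i hi => hk i (Finset.mem_insert_of_mem hi))
        calc (T a).ncard + (⋃ i ∈ s, T i).ncard ≤ k + s.card * k := Nat.add_le_add e1 e2
          _ = (s.card + 1) * k := by ring
    rw [← Set.ncard_coe_finset]
    refine (Set.ncard_le_ncard hsub (Set.toFinite _)).trans ((Set.ncard_union_le _ _).trans ?_)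
    have e1 := h6 _ Finset.univ A _ (fun i _ => hA i)
    have e2 := h6 _ Finset.univ B _ (fun p _ => hB p)
    simp only [Finset.card_univ, Fintype.card_fin, Fintype.card_prod] at e1 e2
    refine (Nat.add_le_add e1 e2).trans ?_
    have e3 : d * (w * n ^ (d - 1)) ≤ d * ((w + M) * n ^ (d - 1)) :=
      Nat.mul_le_mul_left _ (Nat.mul_le_mul_right _ (Nat.le_add_right _ _))
    have e4 : d * d * (M * n ^ (d - 1)) ≤ d * d * ((w + M) * n ^ (d - 1)) :=
      Nat.mul_le_mul_left _ (Nat.mul_le_mul_right _ (Nat.le_add_left _ _))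
    calc d * (w * n ^ (d - 1)) + d * d * (M * n ^ (d - 1))
        ≤ d * ((w + M) * n ^ (d - 1)) + d * d * ((w + M) * n ^ (d - 1)) := Nat.add_le_add e3 e4
      _ = (d + d * d) * ((w + M) * n ^ (d - 1)) := by ring
  calc F.card ≤ C0 * (F.image Φ).card := h3
    _ ≤ C0 * ((d + d * d) * ((w + M) * n ^ (d - 1))) := Nat.mul_le_mul_left _ h4
    _ = C0 * (d + d * d) * ((w + M) * n ^ (d - 1)) := by ring

end H46.CY
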