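import Pool.Agent.H46.CY.Cnt
import Pool.Agent.H3.LC.Glue

/-!
# CY.Cnt2 : cycles which meet fewer than d pieces (about 80 lines)

`C` is the sum of the constants of `few_bad` over `3 ≤ m < (d + 1) * l` (choose them first; for the other `m` take `0`). For every `E ∈ cycles G` which is not in `dcyc d G c` choose `(m, f)` with `3 ≤ m`, `IsCyc G f`, `cedges f = E` (`mem_cycles_iff`); then `m < (d + 1) * l`, and the colours met by `E` are the colours
`c (f x)`: a vertex `v` is in some edge of `cedges f` iff `v` is some `f x`. So `E = cedges f` with `f` in the set of `few_bad`; the number of these `E` is at most the sum over `m` of the numbers of `f`.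
-/

namespace H46.CY

open Pool.Agent.H3.LC

private theorem cnt2_union {α : Type} [Finite α] (S : ℕ → Set α) (N : ℕ) :
    ({E | ∃ m, m < N ∧ E ∈ S m} : Set α).ncard ≤ ∑ m ∈ Finset.range N, (S m).ncard := by
  induction N with
  | zero =>
    have h : ({E | ∃ m, m < 0 ∧ E ∈ S m} : Set α) = ∅ := by
      ext E
      constructor
      · rintro ⟨m, hm, _⟩
        exact absurd hm (Nat.not_lt_zero m)
      · intro h
        exact h.elim
    rw [h]
    simp
  | succ N ih =>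
    have h : ({E | ∃ m, m < N + 1 ∧ E ∈ S m} : Set α) ⊆ {E | ∃ m, m < N ∧ E ∈ S m} ∪ S N := by
      rintro E ⟨m, hm, hE⟩
      by_cases h : m = N
      · right
        rw [← h]
        exact hE
      · left
        exact ⟨m, by omega, hE⟩
    calc ({E | ∃ m, m < N + 1 ∧ E ∈ S m} : Set α).ncard
        ≤ ({E | ∃ m, m < N ∧ E ∈ S m} ∪ S N : Set α).ncard := Set.ncard_le_ncard h (Set.toFinite _)
      _ ≤ ({E | ∃ m, m < N ∧ E ∈ S m} : Set α).ncard + (S N).ncard := Set.ncard_union_le _ _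
      _ ≤ ∑ m ∈ Finset.range (N + 1), (S m).ncard := by
        rw [Finset.sum_range_succ]
        exact Nat.add_le_add_right ih _

private theorem cnt2_colours {V : Type} (c : V → ℕ) {m : ℕ} (f : ZMod m → V) :
    {i | i ≠ 0 ∧ ∃ v, c v = i ∧ ∃ e ∈ cedges f, v ∈ e} = {i | i ≠ 0 ∧ ∃ x, c (f x) = i} := by
  ext i
  constructor
  · rintro ⟨h0, v, hv, e, ⟨x, rfl⟩, hm⟩
    refine ⟨h0, ?_⟩
    rcases Sym2.mem_iff.1 hm with h | h
    · exact ⟨x, by rw [← h]; exact hv⟩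
    · exact ⟨x + 1, by rw [← h]; exact hv⟩
  · rintro ⟨h0, x, hx⟩
    exact ⟨h0, f x, hx, s(f x, f (x + 1)), ⟨x, rfl⟩, Sym2.mem_mk_left _ _⟩

theorem few_bad_cycles (D l d : ℕ) (hl : 2 ≤ l) (hd : 1 ≤ d) :
    ∃ C : ℕ, ∀ (V : Type) [Finite V] (G : SimpleGraph V) (le : V → V → Prop), IsElim G D le →
      NoEven G l → (∀ (m : ℕ) (f : ZMod m → V), 3 ≤ m → IsCyc G f → m < (d + 1) * l) →
      ∀ (c : V → ℕ) (w M : ℕ), {v | c v = 0}.ncard ≤ w → (∀ i, i ≠ 0 → {v | c v = i}.ncard ≤ M) →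
      (cycles G).ncard ≤ (dcyc d G c).ncard + C * ((w + M) * Nat.card V ^ (d - 1)) := by
  classical
  have h1 : ∀ m : ℕ, ∃ C : ℕ, 3 ≤ m → m < (d + 1) * l → ∀ (V : Type) [Finite V] (G : SimpleGraph V)
      (le : V → V → Prop), IsElim G D le → NoEven G l → ∀ (c : V → ℕ) (w M : ℕ),
      {v | c v = 0}.ncard ≤ w → (∀ i, i ≠ 0 → {v | c v = i}.ncard ≤ M) →
      {f : ZMod m → V | IsCyc G f ∧ {i | i ≠ 0 ∧ ∃ x, c (f x) = i}.ncard < d}.ncard ≤
        C * ((w + M) * Nat.card V ^ (d - 1)) := by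
    intro m
    by_cases h3 : 3 ≤ m
    · by_cases hmd : m < (d + 1) * l
      · obtain ⟨C, hC⟩ := few_bad D l d m hl h3 hd hmd
        exact ⟨C, fun _ _ => hC⟩
      · exact ⟨0, fun _ h => absurd h hmd⟩
    · exact ⟨0, fun h => absurd h h3⟩
  choose C hC using h1
  refine ⟨∑ m ∈ Finset.range ((d + 1) * l), C m, ?_⟩
  intro V _ G le hle hne hlen c w M hw hM
  have hsub : cycles G ⊆ dcyc d G c ∪ {E | ∃ m, m < (d + 1) * l ∧ E ∈ {E | 3 ≤ m ∧ ∃ f : ZMod m → V,
      (IsCyc G f ∧ {i | i ≠ 0 ∧ ∃ x, c (f x) = i}.ncard < d) ∧ cedges f = E}} := by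
    intro E hE
    by_cases hd1 : d ≤ {i | i ≠ 0 ∧ ∃ v, c v = i ∧ ∃ e ∈ E, v ∈ e}.ncard
    · exact Or.inl ⟨hE, hd1⟩
    · right
      obtain ⟨m, f, h3, hf, he⟩ := mem_cycles_iff.1 hE
      refine ⟨m, hlen m f h3 hf, h3, f, ⟨hf, ?_⟩, he⟩
      rw [← cnt2_colours, he]
      exact not_le.1 hd1
  have hfin : Finite (Set (Sym2 V)) := inferInstance
  refine (Set.ncard_le_ncard hsub (Set.toFinite _)).trans ((Set.ncard_union_le _ _).trans ?_)
  refine Nat.add_le_add_left ?_ _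
  refine (cnt2_union _ _).trans ?_
  rw [Finset.sum_mul]
  refine Finset.sum_le_sum fun m hm => ?_
  by_cases h3 : 3 ≤ m
  · have hne0 : NeZero m := ⟨by omega⟩
    have hfn : Finite (ZMod m → V) := inferInstance
    refine le_trans ?_ (hC m h3 (Finset.mem_range.1 hm) V G le hle hne c w M hw hM)
    have himg : {E : Set (Sym2 V) | 3 ≤ m ∧ ∃ f : ZMod m → V,
        (IsCyc G f ∧ {i | i ≠ 0 ∧ ∃ x, c (f x) = i}.ncard < d) ∧ cedges f = E} ⊆
        cedges '' {f : ZMod m → V | IsCyc G f ∧ {i | i ≠ 0 ∧ ∃ x, c (f x) = i}.ncard < d} := by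
      rintro E ⟨_, f, hf, he⟩
      exact ⟨f, hf, he⟩
    exact (Set.ncard_le_ncard himg (Set.toFinite _)).trans (Set.ncard_image_le (Set.toFinite _))
  · have hemp : {E : Set (Sym2 V) | 3 ≤ m ∧ ∃ f : ZMod m → V,
        (IsCyc G f ∧ {i | i ≠ 0 ∧ ∃ x, c (f x) = i}.ncard < d) ∧ cedges f = E} = ∅ := by
      ext E
      constructor
      · rintro ⟨h, _⟩
        exact absurd h h3
      · intro h
        exact h.elim
    rw [hemp, Set.ncard_empty]
    exact Nat.zero_le _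

end H46.CY
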