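import Pool.Agent.H3.LC.Transfer

/-!
# Definitions for the limit of c(L, n) / n ^ d, all finite sets L (MP_d7aaae_co)

A template is a finite graph `G` with a colouring `c`: the vertices of colour `0` are the hubs, the
vertices of colour `i ≠ 0` form the piece `i`; there are no edges between different pieces.
-/

namespace H46.CY

open Pool.Agent.H3.LC

/-- There are no edges between different pieces. -/
def Compat {V : Type} (G : SimpleGraph V) (c : V → ℕ) : Prop :=
  ∀ u v, G.Adj u v → c u ≠ 0 → c v ≠ 0 → c u = c v

/-- The vertices of the blow-up: every hub once, every other vertex `M + 1` times. -/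
abbrev BV {V : Type} (c : V → ℕ) (M : ℕ) : Type := {x : V × Fin (M + 1) // c x.1 = 0 → x.2 = 0}

/-- The blow-up of `G`: every piece is replaced by `M + 1` copies, all of them joined to the hubs in
the same way, without edges between different copies. -/
def blow {V : Type} (G : SimpleGraph V) (c : V → ℕ) (M : ℕ) : SimpleGraph (BV c M) where
  Adj x y := G.Adj x.1.1 y.1.1 ∧ (c x.1.1 ≠ 0 → c y.1.1 ≠ 0 → x.1.2 = y.1.2)
  symm := by
    constructor
    intro x y h
    exact ⟨h.1.symm, fun h1 h2 => (h.2 h2 h1).symm⟩
  loopless := by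
    constructor
    intro x h
    exact G.loopless.irrefl _ h.1

/-- The cycles (sets of edges) which meet at least `d` pieces. -/
def dcyc {V : Type} (d : ℕ) (G : SimpleGraph V) (c : V → ℕ) : Set (Set (Sym2 V)) :=
  {E | E ∈ cycles G ∧ d ≤ {i | i ≠ 0 ∧ ∃ v, c v = i ∧ ∃ e ∈ E, v ∈ e}.ncard}

/-- The supremum, over all finite templates all of whose blow-ups have only cycles with lengths in
`L`, of the number of cycles meeting at least `d` pieces divided by the `d`-th power of the number of
vertices outside the hubs. -/
noncomputable def Gam (L : Finset ℕ) (d : ℕ) : ℝ :=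
  sSup {r | ∃ (N : ℕ) (G : SimpleGraph (Fin N)) (c : Fin N → ℕ), Compat G c ∧
    (∀ M, IsLCycleGraph L (blow G c M)) ∧
    r = ((dcyc d G c).ncard : ℝ) / ({v | c v ≠ 0}.ncard : ℝ) ^ d}

/-- `le` is the order of a rooted forest on `V` of height at most `D`, and any two adjacent vertices
of `G` are comparable. -/
structure IsElim {V : Type} (G : SimpleGraph V) (D : ℕ) (le : V → V → Prop) : Prop where
  refl : ∀ u, le u u
  trans : ∀ u v w, le u v → le v w → le u w
  anti : ∀ u v, le u v → le v u → u = v
  chain : ∀ u v w, le u w → le v w → le u v ∨ le v u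
  adj : ∀ u v, G.Adj u v → le u v ∨ le v u
  height : ∀ v, {u | le u v}.encard ≤ D

/-- no even cycle is shorter than `2 l` -/
def NoEven {V : Type} (G : SimpleGraph V) (l : ℕ) : Prop :=
  ∀ (m : ℕ) (f : ZMod m → V), 3 ≤ m → IsCyc G f → Even m → 2 * l ≤ m

/-- `s` is the list of the inner vertices of a path from `a` to `b` (`a = b` is allowed, then it is a
closed path) -/
def PI {V : Type} (G : SimpleGraph V) (a b : V) (s : List V) : Prop :=
  (a :: (s ++ [b])).IsChain G.Adj ∧ s.Nodup ∧ a ∉ s ∧ b ∉ s

/-- rooted forest in `G`, given by parents and depths -/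
def IsForest {V : Type} (G : SimpleGraph V) (par : V → V) (dep : V → ℕ) : Prop :=
  ∀ v, dep v = 0 ∨ (G.Adj v (par v) ∧ dep v = dep (par v) + 1)

/-- `u` is an ancestor of `v` or `u = v` -/
def fle {V : Type} (par : V → V) (dep : V → ℕ) (u v : V) : Prop := ∃ j ≤ dep v, par^[j] v = u

end H46.CY
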