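import Pool.Agent.H46.CY.Defs
import Pool.Agent.H3.LC.Glue

/-!
# CY.Low : the number of cycles of the blow-up (about 150 lines)

`card_BV`: the vertices of colour `0` once, the others `M + 1` times. `blow_count`: for `E ∈ dcyc d G c` choose `d` different colours `≠ 0` met by `E` (an injection `e : Fin d → ℕ`). For `α : Fin d → Fin (M + 1)` let `lift v = (v, α j)` if `c v = e j`, and `(v, 0)` if `c v` is none of the `e j`. If `f` is a cyclic sequence with `cedges f = E`
(`mem_cycles_iff`) then `lift ∘ f` is one of the blow-up (adjacent vertices with colours `≠ 0` have the same colour by `Compat`), with the edge set `Sym2.map lift '' E`. The map `(E, α) ↦ Sym2.map lift '' E` is injective: `E` is the image under `Sym2.map (fun x => x.1.1)`, and `α j` is the second coordinate of any vertex of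
`Sym2.map lift '' E` whose first coordinate has the colour `e j` (there is one). So `dcyc × (Fin d → Fin (M + 1))` injects into `cycles (blow G c M)`.
-/

namespace H46.CY

open Pool.Agent.H3.LC

private noncomputable def equivBV {V : Type} (c : V → ℕ) (M : ℕ) :
    BV c M ≃ {v // c v = 0} ⊕ ({v // c v ≠ 0} × Fin (M + 1)) where
  toFun x := if h : c x.1.1 = 0 then Sum.inl ⟨x.1.1, h⟩ else Sum.inr (⟨x.1.1, h⟩, x.1.2)
  invFun := Sum.elim (fun v => ⟨(v.1, 0), fun _ => rfl⟩) (fun p => ⟨(p.1.1, p.2), fun h => absurd h p.1.2⟩)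
  left_inv := by
    rintro ⟨⟨v, k⟩, hx⟩
    by_cases h : c v = 0
    · have hk : k = 0 := hx h
      simp [h, hk]
    · simp [h]
  right_inv := by
    rintro (⟨v, h⟩ | ⟨⟨v, h⟩, k⟩)
    · simp [h]
    · simp [h]

theorem card_BV {V : Type} [Finite V] (c : V → ℕ) (M : ℕ) :
    Nat.card (BV c M) = {v | c v = 0}.ncard + {v | c v ≠ 0}.ncard * (M + 1) := by
  rw [Nat.card_congr (equivBV c M), Nat.card_sum, Nat.card_prod, Nat.card_fin]
  rfl

private noncomputable def sec {V : Type} (c : V → ℕ) {d M : ℕ} (e : Fin d → ℕ) (α : Fin d → Fin (M + 1)) (v : V) :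
    Fin (M + 1) := by
  classical
  exact if h : ∃ j, e j = c v then α h.choose else 0

private theorem sec_zero {V : Type} (c : V → ℕ) {d M : ℕ} {e : Fin d → ℕ} (he : ∀ j, e j ≠ 0)
    (α : Fin d → Fin (M + 1)) (v : V) (h : c v = 0) : sec c e α v = 0 := by
  unfold sec
  rw [dif_neg]
  rintro ⟨j, hj⟩
  exact he j (hj.trans h)

private theorem sec_eq {V : Type} (c : V → ℕ) {d M : ℕ} {e : Fin d → ℕ} (hinj : Function.Injective e)
    (α : Fin d → Fin (M + 1)) (v : V) (j : Fin d) (h : c v = e j) : sec c e α v = α j := by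
  unfold sec
  have h1 : ∃ j, e j = c v := ⟨j, h.symm⟩
  rw [dif_pos h1]
  congr 1
  exact hinj (h1.choose_spec.trans h)

private theorem sec_congr {V : Type} (c : V → ℕ) {d M : ℕ} (e : Fin d → ℕ)
    (α : Fin d → Fin (M + 1)) (v w : V) (h : c v = c w) : sec c e α v = sec c e α w := by
  unfold sec
  rw [h]

private noncomputable def lft {V : Type} (c : V → ℕ) {d M : ℕ} {e : Fin d → ℕ} (he : ∀ j, e j ≠ 0)
    (α : Fin d → Fin (M + 1)) (v : V) : BV c M :=
  ⟨(v, sec c e α v), sec_zero c he α v⟩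

private theorem lft_mem {V : Type} {G : SimpleGraph V} {c : V → ℕ} (hc : Compat G c) {d M : ℕ} {e : Fin d → ℕ}
    (he : ∀ j, e j ≠ 0) (α : Fin d → Fin (M + 1)) {E : Set (Sym2 V)} (hE : E ∈ cycles G) :
    Sym2.map (lft c he α) '' E ∈ cycles (blow G c M) := by
  obtain ⟨m, f, hm, hf, rfl⟩ := mem_cycles_iff.1 hE
  rw [mem_cycles_iff]
  refine ⟨m, lft c he α ∘ f, hm, ⟨?_, fun i => ?_⟩, ?_⟩
  · intro i k hik
    apply hf.1
    have h1 : (lft c he α (f i)).1.1 = (lft c he α (f k)).1.1 := by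
      have h2 : lft c he α (f i) = lft c he α (f k) := hik
      rw [h2]
    exact h1
  · refine ⟨hf.2 i, fun h1 h2 => ?_⟩
    exact sec_congr c e α _ _ (hc _ _ (hf.2 i) h1 h2)
  · ext s
    simp only [cedges, Set.mem_image]
    constructor
    · rintro ⟨i, rfl⟩
      exact ⟨s(f i, f (i + 1)), ⟨i, rfl⟩, by simp⟩
    · rintro ⟨_, ⟨i, rfl⟩, rfl⟩
      exact ⟨i, by simp⟩

private theorem fst_lft {V : Type} {c : V → ℕ} {d M : ℕ} {e : Fin d → ℕ} (he : ∀ j, e j ≠ 0)
    (α : Fin d → Fin (M + 1)) (E : Set (Sym2 V)) :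
    Sym2.map (fun x : BV c M => x.1.1) '' (Sym2.map (lft c he α) '' E) = E := by
  rw [← Set.image_comp, ← Sym2.map_comp]
  have h1 : (fun x : BV c M => x.1.1) ∘ lft c he α = id := rfl
  rw [h1, Sym2.map_id, Set.image_id]

private theorem exists_col {V : Type} [Finite V] {c : V → ℕ} {d : ℕ} {E : Set (Sym2 V)}
    (h : d ≤ {i | i ≠ 0 ∧ ∃ v, c v = i ∧ ∃ e ∈ E, v ∈ e}.ncard) :
    ∃ e : Fin d → ℕ, Function.Injective e ∧ (∀ j, e j ≠ 0) ∧ ∀ j, ∃ v, c v = e j ∧ ∃ s ∈ E, v ∈ s := by
  have hfin : {i | i ≠ 0 ∧ ∃ v, c v = i ∧ ∃ e ∈ E, v ∈ e}.Finite := by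
    refine (Set.finite_range c).subset ?_
    rintro i ⟨-, v, hv, -⟩
    exact ⟨v, hv⟩
  have h1 : d ≤ hfin.toFinset.card := by
    rw [← Set.ncard_eq_toFinset_card _ hfin]
    exact h
  obtain ⟨T, hT, hTc⟩ := Finset.exists_subset_card_eq h1
  refine ⟨fun j => (T.equivFin.symm (Fin.cast hTc.symm j)).1, ?_, ?_, ?_⟩
  · intro j k hjk
    have h2 := T.equivFin.symm.injective (Subtype.ext hjk)
    exact Fin.cast_injective _ h2
  · intro j
    have h2 := hT (T.equivFin.symm (Fin.cast hTc.symm j)).2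
    exact ((hfin.mem_toFinset).1 h2).1
  · intro j
    have h2 := hT (T.equivFin.symm (Fin.cast hTc.symm j)).2
    exact ((hfin.mem_toFinset).1 h2).2

theorem blow_count {V : Type} [Finite V] {G : SimpleGraph V} {c : V → ℕ} (hc : Compat G c)
    (d M : ℕ) : (dcyc d G c).ncard * (M + 1) ^ d ≤ (cycles (blow G c M)).ncard := by
  classical
  have hex : ∀ E : dcyc d G c, ∃ e : Fin d → ℕ, Function.Injective e ∧ (∀ j, e j ≠ 0) ∧
      ∀ j, ∃ v, c v = e j ∧ ∃ s ∈ E.1, v ∈ s := fun E => exists_col E.2.2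
  choose e hinj hne hv using hex
  have hS : Finite (Sym2 (BV c M)) := Quot.finite _
  have key : Nat.card (dcyc d G c × (Fin d → Fin (M + 1))) ≤ Nat.card (cycles (blow G c M)) := by
    refine Nat.card_le_card_of_injective
      (fun p => (⟨Sym2.map (lft c (hne p.1) p.2) '' p.1.1, lft_mem hc (hne p.1) p.2 p.1.2.1⟩ :
        cycles (blow G c M))) ?_
    rintro ⟨E, α⟩ ⟨E', α'⟩ h
    have h0 : Sym2.map (lft c (hne E) α) '' E.1 = Sym2.map (lft c (hne E') α') '' E'.1 := congrArg Subtype.val h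
    have h1 : E = E' := by
      apply Subtype.ext
      rw [← fst_lft (hne E) α E.1, h0, fst_lft]
    subst h1
    have h2 : α = α' := by
      funext j
      obtain ⟨v, hcv, s, hs, hvs⟩ := hv E j
      have h3 : Sym2.map (lft c (hne E) α) s ∈ Sym2.map (lft c (hne E) α') '' E.1 := by
        rw [← h0]
        exact ⟨s, hs, rfl⟩
      obtain ⟨s', _, hs'⟩ := h3
      have h4 : lft c (hne E) α v ∈ Sym2.map (lft c (hne E) α) s := Sym2.mem_map.2 ⟨v, hvs, rfl⟩
      rw [← hs'] at h4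
      obtain ⟨w, _, hw⟩ := Sym2.mem_map.1 h4
      have h5 : w = v := congrArg (fun x : BV c M => x.1.1) hw
      have h6 : sec c (e E) α' w = sec c (e E) α v := congrArg (fun x : BV c M => x.1.2) hw
      rw [h5, sec_eq c (hinj E) α' v j hcv, sec_eq c (hinj E) α v j hcv] at h6
      exact h6.symm
    rw [h2]
  rw [Nat.card_prod, Nat.card_eq_fintype_card (α := Fin d → Fin (M + 1)), Fintype.card_fun, Fintype.card_fin,
    Fintype.card_fin] at key
  exact key

end H46.CY
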