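import Pool.Agent.H46.CY.Defs
import Pool.Agent.H3.LC.Glue

/-!
# CY.Pos : the necklace, all lengths are 2 l or k (about 200 lines)

`neck k`: the cycle graph on `ZMod k` (`i`, `i + 1` adjacent). Colour of `i` (`i.val < k`): `i.val / l + 1` if `i.val < d l` and `l ∤ i.val`, otherwise `0`. `neck_blow`: let `g : ZMod t → BV c M`, `3 ≤ t`, be a cyclic sequence of the blow-up, `p i = (g i).1.1 : ZMod k`; consecutive `p` differ by `1` or `-1`.
(a) If `c (p i) ≠ 0` the vertex `g i = (p i, a)` has exactly one neighbour with first coordinate `p i + 1` and one with `p i - 1` (the copy `a`, or a hub with second coordinate `0`), so `g (i - 1) ≠ g (i + 1)` gives `p (i - 1) ≠ p (i + 1)`: the direction does not change at `i`.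
(b) If the direction never changes then `p i = p 0 + i` (or `- i`), so `k ∣ t`; the hub `0` (one vertex) is met `t / k` times, so `t = k`. (c) If the direction changes at `i`, `h = p i` is a hub, `p (i + 1) = p (i - 1) = h + e`, `e = 1` or `-1`, has colour `≠ 0` (a hub has one vertex, `g` is injective, `t ≥ 3`);
by (a) `p (i + j) = h + e j = p (i - j)` for `j ≤ l`, all `h + e j` with `0 < j < l` have colour `≠ 0` and `h + e l` is a hub (`h` is a multiple of `l`, at most `d l`); `g (i + l) = g (i - l)` (same hub), so `2 l = 0` in `ZMod t`; the `l + 1 ≤ k` points `p (i + j)`, `0 ≤ j ≤ l`, are different (`l < k` as `2 l ≤ k`), so `t > l` and `t ∣ 2 l` gives `t = 2 l`.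
`neck_card`: the set of all edges of `neck k` is a cycle (`f i = i`) which meets the `d` pieces `1, ..., d` (`2 ≤ l`), and `d (l - 1)` vertices have a colour `≠ 0`.
-/

namespace H46.CY

open Pool.Agent.H3.LC

/-- the cycle of length `k` -/
def neck (k : ℕ) : SimpleGraph (ZMod k) where
  Adj i j := i ≠ j ∧ (j = i + 1 ∨ i = j + 1)
  symm := by
    constructor
    intro i j h
    exact ⟨h.1.symm, h.2.symm⟩
  loopless := by
    constructor
    intro i h
    exact h.1 rfl

/-- the colours: `d` arcs of length `l` are pieces -/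
def neckc (k l d : ℕ) (i : ZMod k) : ℕ := if i.val < d * l ∧ ¬ l ∣ i.val then i.val / l + 1 else 0

private theorem nz {k : ℕ} (hk : 2 ≤ k) : NeZero k := ⟨by omega⟩

private theorem val_succ {k : ℕ} (hk : 2 ≤ k) (i : ZMod k) :
    (i + 1).val = if i.val + 1 = k then 0 else i.val + 1 := by
  have := nz hk
  have h1 : i.val < k := ZMod.val_lt i
  have h2 : i + 1 = ((i.val + 1 : ℕ) : ZMod k) := by
    rw [Nat.cast_add, ZMod.natCast_zmod_val, Nat.cast_one]
  split_ifs with h
  · rw [h2, h, ZMod.natCast_self, ZMod.val_zero]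
  · rw [h2, ZMod.val_cast_of_lt (by omega)]

private theorem c_ne {k l d : ℕ} (i : ZMod k) :
    neckc k l d i ≠ 0 ↔ (i.val < d * l ∧ ¬ l ∣ i.val) := by
  unfold neckc
  split_ifs with h
  · simp [h]
  · simp [h]

private theorem c_eq {k l d : ℕ} (i : ZMod k) :
    neckc k l d i = 0 ↔ ¬ (i.val < d * l ∧ ¬ l ∣ i.val) := by
  rw [← c_ne i, not_not]

private theorem two_le {k l d : ℕ} (hl : 2 ≤ l) (hd : 2 ≤ d) (hk : d * l ≤ k) : 2 * l ≤ k :=
  le_trans (Nat.mul_le_mul_right l hd) hk

private theorem compat_aux {k l d : ℕ} (hl : 2 ≤ l) (hd : 2 ≤ d) (hk : d * l ≤ k) (i : ZMod k)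
    (h1 : neckc k l d i ≠ 0) (h2 : neckc k l d (i + 1) ≠ 0) :
    neckc k l d i = neckc k l d (i + 1) := by
  have h2l := two_le hl hd hk
  have h1' := (c_ne i).1 h1
  have h2' := (c_ne (i + 1)).1 h2
  have hv := val_succ (k := k) (by omega) i
  split_ifs at hv with h
  · exact absurd (by rw [hv]; exact dvd_zero l) h2'.2
  · unfold neckc
    rw [if_pos h1', if_pos h2', hv, Nat.succ_div, if_neg]
    rw [← hv]; exact h2'.2

private theorem aux_up {k l d : ℕ} (hl : 2 ≤ l) (hd : 2 ≤ d) (hk : d * l ≤ k) (h : ZMod k)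
    (h0 : neckc k l d h = 0) (h1 : neckc k l d (h + 1) ≠ 0) :
    (∀ j : ℕ, 0 < j → j < l → neckc k l d (h + 1 * j) ≠ 0) ∧ neckc k l d (h + 1 * l) = 0 := by
  have h2l := two_le hl hd hk
  have := nz (k := k) (by omega)
  have h1' := (c_ne (h + 1)).1 h1
  have hv := val_succ (k := k) (by omega) h
  split_ifs at hv with hh
  · exact absurd (by rw [hv]; exact dvd_zero l) h1'.2
  rw [hv] at h1'
  have h0' := (c_eq h).1 h0
  have hdv : l ∣ h.val := by
    by_contra hc
    exact h0' ⟨by omega, hc⟩
  obtain ⟨a, ha⟩ := hdv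
  have had : a < d := by
    by_contra hc
    have : d * l ≤ a * l := Nat.mul_le_mul_right l (not_lt.1 hc)
    have h3 : a * l = l * a := Nat.mul_comm a l
    omega
  have hal : (a + 1) * l ≤ d * l := Nat.mul_le_mul_right l had
  have hal2 : (a + 1) * l = l * a + l := by ring
  have hcast : h = ((l * a : ℕ) : ZMod k) := by
    rw [← ha, ZMod.natCast_zmod_val]
  constructor
  · intro j hj0 hjl
    have e1 : h + 1 * (j : ZMod k) = ((l * a + j : ℕ) : ZMod k) := by
      rw [one_mul, hcast, Nat.cast_add (l * a) j]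
    have e2 : (h + 1 * (j : ZMod k)).val = l * a + j := by
      rw [e1, ZMod.val_cast_of_lt (by omega)]
    rw [c_ne, e2]
    refine ⟨by omega, ?_⟩
    intro hdv
    have := (Nat.dvd_add_right (Dvd.intro a rfl)).1 hdv
    have := Nat.le_of_dvd hj0 this
    omega
  · have e1 : h + 1 * (l : ZMod k) = ((l * a + l : ℕ) : ZMod k) := by
      rw [one_mul, hcast, Nat.cast_add (l * a) l]
    rw [c_eq]
    rintro ⟨h3, h4⟩
    apply h4
    rcases Nat.lt_or_ge (l * a + l) k with h5 | h5
    · rw [e1, ZMod.val_cast_of_lt h5]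
      exact ⟨a + 1, by ring⟩
    · have h6 : l * a + l = k := by omega
      rw [e1, h6, ZMod.natCast_self, ZMod.val_zero]
      exact dvd_zero l

private theorem aux_dn {k l d : ℕ} (hl : 2 ≤ l) (hd : 2 ≤ d) (hk : d * l ≤ k) (h : ZMod k)
    (h0 : neckc k l d h = 0) (h1 : neckc k l d (h + -1) ≠ 0) :
    (∀ j : ℕ, 0 < j → j < l → neckc k l d (h + -1 * j) ≠ 0) ∧ neckc k l d (h + -1 * l) = 0 := by
  have h2l := two_le hl hd hk
  have := nz (k := k) (by omega)
  obtain ⟨x, hx⟩ : ∃ x, x = h + -1 := ⟨_, rfl⟩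
  have hx' : h = x + 1 := by rw [hx]; ring
  rw [← hx] at h1
  have h1' := (c_ne x).1 h1
  have hv := val_succ (k := k) (by omega) x
  have hxk : x.val < k := ZMod.val_lt x
  have hcast : h = ((x.val + 1 : ℕ) : ZMod k) := by
    rw [Nat.cast_add, ZMod.natCast_zmod_val, Nat.cast_one, hx']
  have hdv : l ∣ x.val + 1 := by
    split_ifs at hv with hh
    · have : x.val + 1 = d * l := by omega
      rw [this]; exact Dvd.intro_left d rfl
    · rw [← hv, ← hx']
      by_contra hc
      have h0' := (c_eq h).1 h0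
      have h5 : h.val = x.val + 1 := by rw [hx', hv]
      apply h0'
      refine ⟨?_, hc⟩
      rcases Nat.lt_or_ge h.val (d * l) with h6 | h6
      · exact h6
      · exfalso
        have : h.val = d * l := by omega
        exact hc (by rw [this]; exact Dvd.intro_left d rfl)
  obtain ⟨b, hb⟩ := hdv
  have hb1 : 1 ≤ b := by
    rcases Nat.eq_zero_or_pos b with h7 | h7
    · rw [h7] at hb; omega
    · exact h7
  obtain ⟨a, rfl⟩ : ∃ a, b = a + 1 := ⟨b - 1, by omega⟩
  have hal2 : l * (a + 1) = l * a + l := by ring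
  constructor
  · intro j hj0 hjl
    have e1 : h + -1 * (j : ZMod k) = ((l * a + (l - j) : ℕ) : ZMod k) := by
      have : ((l * a + (l - j) : ℕ) : ZMod k) + (j : ZMod k) = h := by
        rw [← Nat.cast_add, hcast]; congr 1; omega
      rw [← this]; ring
    have e2 : (h + -1 * (j : ZMod k)).val = l * a + (l - j) := by
      rw [e1, ZMod.val_cast_of_lt (by omega)]
    rw [c_ne, e2]
    refine ⟨by omega, ?_⟩
    intro hdv
    have := (Nat.dvd_add_right (Dvd.intro a rfl)).1 hdv
    have := Nat.le_of_dvd (by omega) this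
    omega
  · have e1 : h + -1 * (l : ZMod k) = ((l * a : ℕ) : ZMod k) := by
      have : ((l * a : ℕ) : ZMod k) + (l : ZMod k) = h := by
        rw [← Nat.cast_add, hcast]; congr 1; omega
      rw [← this]; ring
    rw [c_eq]
    rintro ⟨h3, h4⟩
    apply h4
    rw [e1, ZMod.val_cast_of_lt (by omega)]
    exact Dvd.intro a rfl

private theorem aux_e {k l d : ℕ} (hl : 2 ≤ l) (hd : 2 ≤ d) (hk : d * l ≤ k) (h e : ZMod k)
    (he : e = 1 ∨ e = -1)
    (h0 : neckc k l d h = 0) (h1 : neckc k l d (h + e) ≠ 0) :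
    (∀ j : ℕ, 0 < j → j < l → neckc k l d (h + e * j) ≠ 0) ∧ neckc k l d (h + e * l) = 0 := by
  rcases he with rfl | rfl
  · exact aux_up hl hd hk h h0 h1
  · exact aux_dn hl hd hk h h0 h1

private theorem fwd {k l d : ℕ} (hl : 2 ≤ l) (hd : 2 ≤ d) (hk : d * l ≤ k) (h e : ZMod k)
    (he : e = 1 ∨ e = -1) (h0 : neckc k l d h = 0) (h1 : neckc k l d (h + e) ≠ 0)
    (p : ℕ → ZMod k) (p0 : p 0 = h) (p1 : p 1 = h + e)
    (hp : ∀ n, p (n + 1) = p n + 1 ∨ p (n + 1) = p n + -1)
    (hc : ∀ n, neckc k l d (p (n + 1)) ≠ 0 → p n ≠ p (n + 2)) :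
    ∀ j ≤ l, p j = h + e * j := by
  have hA := (aux_e hl hd hk h e he h0 h1).1
  have key : ∀ j, j + 1 ≤ l → p j = h + e * j ∧ p (j + 1) = h + e * (j + 1 : ℕ) := by
    intro j
    induction j with
    | zero => intro _; simp [p0, p1]
    | succ j ih =>
      intro hj
      obtain ⟨ih1, ih2⟩ := ih (by omega)
      refine ⟨ih2, ?_⟩
      have h5 : neckc k l d (p (j + 1)) ≠ 0 := by
        rw [ih2]; exact hA (j + 1) (by omega) (by omega)
      have h6 := hc j h5
      have h7 := hp (j + 1)
      rw [ih1] at h6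
      rw [ih2] at h7
      have h8 : p (j + 1 + 1) = p (j + 2) := rfl
      push_cast at h6 h7 h8 ⊢
      rw [h8] at h7 ⊢
      rcases he with rfl | rfl <;> rcases h7 with h7 | h7
      · rw [h7]; ring
      · exact absurd (by rw [h7]; ring) h6
      · exact absurd (by rw [h7]; ring) h6
      · rw [h7]; ring
  intro j hj
  rcases Nat.eq_zero_or_pos j with rfl | hj0
  · simp [p0]
  · obtain ⟨i, rfl⟩ : ∃ i, j = i + 1 := ⟨j - 1, by omega⟩
    exact (key i hj).2

theorem neck_compat {k l d : ℕ} (hl : 2 ≤ l) (hd : 2 ≤ d) (hk : d * l ≤ k) :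
    Compat (neck k) (neckc k l d) := by
  rintro u v ⟨-, rfl | rfl⟩ hu hv
  · exact compat_aux hl hd hk u hu hv
  · exact (compat_aux hl hd hk v hv hu).symm

theorem neck_blow {k l d : ℕ} (hl : 2 ≤ l) (hd : 2 ≤ d) (hk : d * l ≤ k) {L : Finset ℕ}
    (h2 : 2 * l ∈ L) (hkL : k ∈ L) (M : ℕ) : IsLCycleGraph L (blow (neck k) (neckc k l d) M) := by
  rw [isLCycle_iff]
  intro m g hm hg
  obtain ⟨hinj, hadj⟩ := hg
  have h2l := two_le hl hd hk
  have := nz (k := k) (by omega)
  have : NeZero m := ⟨by omega⟩
  -- equality of two terms of the sequence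
  have heq : ∀ i j, (g i).1.1 = (g j).1.1 → neckc k l d (g i).1.1 = 0 → i = j := by
    intro i j h h0
    apply hinj
    apply Subtype.ext
    apply Prod.ext h
    rw [(g i).2 h0, (g j).2 (by rw [← h]; exact h0)]
  have hstep : ∀ i, (g (i + 1)).1.1 = (g i).1.1 + 1 ∨ (g (i + 1)).1.1 = (g i).1.1 + -1 := by
    intro i
    rcases (hadj i).1.2 with h | h
    · exact Or.inl h
    · right; rw [h]; ring
  have hturn : ∀ i, neckc k l d (g (i + 1)).1.1 ≠ 0 → (g i).1.1 ≠ (g (i + 2)).1.1 := by
    intro i hi h
    have h12 : i + 1 + 1 = i + 2 := by ring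
    have hii : i = i + 2 := by
      by_cases h0 : neckc k l d (g i).1.1 = 0
      · exact heq _ _ h h0
      · apply hinj
        apply Subtype.ext
        apply Prod.ext h
        have h3 := (hadj i).2 h0 hi
        have h4 := (hadj (i + 1)).2 hi (by rw [h12, ← h]; exact h0)
        rw [h12] at h4
        rw [h3, h4]
    have h20 : ((2 : ℕ) : ZMod m) = 0 := by
      have : i + 2 - i = (0 : ZMod m) := by rw [← hii]; ring
      rw [← this]; push_cast; ring
    rw [ZMod.natCast_eq_zero_iff] at h20
    have := Nat.le_of_dvd (by norm_num) h20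
    omega
  by_cases hdir : ∀ i, (g (i + 1 + 1)).1.1 - (g (i + 1)).1.1 = (g (i + 1)).1.1 - (g i).1.1
  · -- the direction never changes
    obtain ⟨e, he⟩ : ∃ e, e = (g (0 + 1)).1.1 - (g 0).1.1 := ⟨_, rfl⟩
    have hee : e * e = 1 := by
      rcases hstep 0 with h | h
      · rw [he, h]; ring
      · rw [he, h]; ring
    have hd1 : ∀ n : ℕ, (g ((n : ZMod m) + 1)).1.1 - (g (n : ZMod m)).1.1 = e := by
      intro n
      induction n with
      | zero => rw [he]; norm_num
      | succ n ih => rw [← ih]; push_cast; exact hdir n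
    have hpn : ∀ n : ℕ, (g (n : ZMod m)).1.1 = (g 0).1.1 + n * e := by
      intro n
      induction n with
      | zero => simp
      | succ n ih =>
        have h3 := hd1 n
        rw [ih] at h3
        push_cast
        rw [sub_eq_iff_eq_add.1 h3]; ring
    have hkm : k ∣ m := by
      have h3 := hpn m
      rw [ZMod.natCast_self] at h3
      have h4 : (m : ZMod k) * e = 0 := by
        have : (g 0).1.1 + 0 = (g 0).1.1 + (m : ZMod k) * e := by rw [← h3]; ring
        exact (add_left_cancel this).symm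
      have h5 : (m : ZMod k) = 0 := by
        have : (m : ZMod k) * e * e = 0 := by rw [h4, zero_mul]
        rwa [mul_assoc, hee, mul_one] at this
      rwa [ZMod.natCast_eq_zero_iff] at h5
    have hmk : m ∣ k := by
      obtain ⟨n, hn⟩ : ∃ n : ℕ, (n : ZMod k) = -(e * (g 0).1.1) :=
        ⟨(-(e * (g 0).1.1)).val, ZMod.natCast_zmod_val _⟩
      have h3 : (g (n : ZMod m)).1.1 = 0 := by
        rw [hpn n, hn]
        have : (g 0).1.1 + -(e * (g 0).1.1) * e = (g 0).1.1 - (e * e) * (g 0).1.1 := by ring
        rw [this, hee]; ring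
      have h4 : (g ((n + k : ℕ) : ZMod m)).1.1 = 0 := by
        rw [hpn (n + k), ← h3, hpn n]
        push_cast
        rw [ZMod.natCast_self]; ring
      have h5 := heq _ _ (h3.trans h4.symm) (by
        rw [h3, c_eq, ZMod.val_zero]
        rintro ⟨-, h⟩
        exact h (dvd_zero l))
      push_cast at h5
      have h6 : (k : ZMod m) = 0 := by
        have : (n : ZMod m) + 0 = (n : ZMod m) + k := by rw [← h5]; ring
        exact (add_left_cancel this).symm
      rwa [ZMod.natCast_eq_zero_iff] at h6
    rw [Nat.dvd_antisymm hmk hkm]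
    exact hkL
  · -- the direction changes at `i + 1`
    push Not at hdir
    obtain ⟨i, hi⟩ := hdir
    obtain ⟨z, hz⟩ : ∃ z, z = i + 1 := ⟨_, rfl⟩
    obtain ⟨e, he⟩ : ∃ e, e = (g (z + 1)).1.1 - (g z).1.1 := ⟨_, rfl⟩
    have hiz : i = z - 1 := by rw [hz]; ring
    have hz2 : z + 1 = i + 2 := by rw [hz]; ring
    have hee : e = 1 ∨ e = -1 := by
      rcases hstep z with h | h
      · left; rw [he, h]; ring
      · right; rw [he, h]; ring
    have hback : (g i).1.1 = (g z).1.1 + e := by
      rw [← hz] at hi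
      rw [← he] at hi
      rcases hstep i with h | h
      · rw [← hz] at h
        rcases hee with rfl | rfl
        · exact absurd (by rw [h]; ring) hi
        · rw [h]; ring
      · rw [← hz] at h
        rcases hee with rfl | rfl
        · rw [h]; ring
        · exact absurd (by rw [h]; ring) hi
    have hforw : (g (z + 1)).1.1 = (g z).1.1 + e := by rw [he]; ring
    have hz0 : neckc k l d (g z).1.1 = 0 := by
      by_contra hc
      rw [hz] at hc
      apply hturn i hc
      rw [← hz2, hforw, hback]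
    have hz1 : neckc k l d ((g z).1.1 + e) ≠ 0 := by
      intro hc
      have h3 := heq i (z + 1) (by rw [hforw, hback]) (by rw [hback]; exact hc)
      rw [hz2] at h3
      have h20 : ((2 : ℕ) : ZMod m) = 0 := by
        have : i + 2 - i = (0 : ZMod m) := by rw [← h3]; ring
        rw [← this]; push_cast; ring
      rw [ZMod.natCast_eq_zero_iff] at h20
      have := Nat.le_of_dvd (by norm_num) h20
      omega
    have hf1 := fwd hl hd hk (g z).1.1 e hee hz0 hz1 (fun n => (g (z + (n : ZMod m))).1.1)
      (by simp) (by simp [hforw])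
      (by
        intro n
        have h3 := hstep (z + n)
        rw [add_assoc] at h3
        push_cast
        exact h3)
      (by
        intro n
        have h3 := hturn (z + n)
        rw [add_assoc, add_assoc] at h3
        push_cast
        exact h3)
    have hf2 := fwd hl hd hk (g z).1.1 e hee hz0 hz1 (fun n => (g (z - (n : ZMod m))).1.1)
      (by simp) (by simp [← hiz, hback])
      (by
        intro n
        have h3 := hstep (z - (n + 1))
        have h4 : z - ((n : ZMod m) + 1) + 1 = z - n := by ring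
        rw [h4] at h3
        push_cast
        rcases h3 with h3 | h3
        · right; rw [h3]; ring
        · left; rw [h3]; ring)
      (by
        intro n
        have h3 := hturn (z - (n + 2))
        have h4 : z - ((n : ZMod m) + 2) + 1 = z - (n + 1) := by ring
        have h5 : z - ((n : ZMod m) + 2) + 2 = z - n := by ring
        rw [h4, h5] at h3
        push_cast
        intro h6
        exact (h3 h6).symm)
    have hl0 := (aux_e hl hd hk (g z).1.1 e hee hz0 hz1).2
    have h1 := hf1 l le_rfl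
    have h1' := hf2 l le_rfl
    have h3 := heq (z + (l : ZMod m)) (z - (l : ZMod m)) (h1.trans h1'.symm) (by rw [h1]; exact hl0)
    have h4 : ((2 * l : ℕ) : ZMod m) = 0 := by
      have : (z + (l : ZMod m)) - (z - (l : ZMod m)) = 0 := by rw [h3]; ring
      rw [← this]; push_cast; ring
    rw [ZMod.natCast_eq_zero_iff] at h4
    have h5 : l < m := by
      by_contra hc
      have h6 := hf1 m (not_lt.1 hc)
      simp only [ZMod.natCast_self, add_zero] at h6
      have h7 : e * (m : ZMod k) = 0 := by
        have : (g z).1.1 + 0 = (g z).1.1 + e * (m : ZMod k) := by rw [← h6]; ring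
        exact (add_left_cancel this).symm
      have h8 : (m : ZMod k) = 0 := by
        rcases hee with rfl | rfl
        · rwa [one_mul] at h7
        · rwa [neg_one_mul, neg_eq_zero] at h7
      rw [ZMod.natCast_eq_zero_iff] at h8
      have := Nat.le_of_dvd (by omega) h8
      omega
    obtain ⟨t, ht⟩ := h4
    have ht1 : t = 1 := by
      rcases Nat.lt_or_ge t 1 with h6 | h6
      · have : t = 0 := by omega
        rw [this] at ht; omega
      · rcases Nat.lt_or_ge 1 t with h7 | h7
        · have : m * 2 ≤ m * t := Nat.mul_le_mul_left m h7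
          omega
        · omega
    rw [ht1, mul_one] at ht
    rw [← ht]
    exact h2

theorem neck_dcyc {k l d : ℕ} (hl : 2 ≤ l) (hd : 2 ≤ d) (hk : d * l ≤ k) :
    (dcyc d (neck k) (neckc k l d)).Nonempty := by
  have h2l := two_le hl hd hk
  have := nz (k := k) (by omega)
  refine ⟨cedges (id : ZMod k → ZMod k), ?_, ?_⟩
  · rw [mem_cycles_iff]
    refine ⟨k, id, by omega, ⟨Function.injective_id, ?_⟩, rfl⟩
    intro i
    refine ⟨?_, Or.inl rfl⟩
    intro h
    have h1 : ((1 : ℕ) : ZMod k) = 0 := by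
      have : i + 0 = i + ((1 : ℕ) : ZMod k) := by simpa using h
      exact (add_left_cancel this).symm
    rw [ZMod.natCast_eq_zero_iff] at h1
    have := Nat.le_of_dvd (by norm_num) h1
    omega
  · have hsub : ((Finset.Icc 1 d : Finset ℕ) : Set ℕ) ⊆ {i | i ≠ 0 ∧ ∃ v, neckc k l d v = i ∧
        ∃ e ∈ cedges (id : ZMod k → ZMod k), v ∈ e} := by
      intro i hi
      rw [Finset.coe_Icc, Set.mem_Icc] at hi
      obtain ⟨a, rfl⟩ : ∃ a, i = a + 1 := ⟨i - 1, by omega⟩
      have hal : (a + 1) * l ≤ d * l := Nat.mul_le_mul_right l hi.2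
      have hal2 : (a + 1) * l = l * a + l := by ring
      have e2 : ((l * a + 1 : ℕ) : ZMod k).val = l * a + 1 := ZMod.val_cast_of_lt (by omega)
      refine ⟨by omega, ((l * a + 1 : ℕ) : ZMod k), ?_, s(((l * a + 1 : ℕ) : ZMod k),
        ((l * a + 1 : ℕ) : ZMod k) + 1), ⟨_, rfl⟩, Sym2.mem_mk_left _ _⟩
      unfold neckc
      rw [e2, if_pos]
      · have : (l * a + 1) / l = a := by
          rw [Nat.mul_add_div (by omega)]
          rw [Nat.div_eq_of_lt (by omega)]; rfl
        rw [this]
      · refine ⟨by omega, ?_⟩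
        intro h
        have := (Nat.dvd_add_right (Dvd.intro a rfl)).1 h
        have := Nat.le_of_dvd (by norm_num) this
        omega
    have hfin : ({i | i ≠ 0 ∧ ∃ v, neckc k l d v = i ∧
        ∃ e ∈ cedges (id : ZMod k → ZMod k), v ∈ e} : Set ℕ).Finite := by
      apply Set.Finite.subset (Set.finite_range (neckc k l d))
      rintro i ⟨-, v, hv, -⟩
      exact ⟨v, hv⟩
    have h3 := Set.ncard_le_ncard hsub hfin
    rw [Set.ncard_coe_finset, Nat.card_Icc] at h3
    omega

theorem neck_card {k l d : ℕ} (hl : 2 ≤ l) (hd : 2 ≤ d) (hk : d * l ≤ k) :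
    {i | neckc k l d i ≠ 0}.ncard = d * (l - 1) := by
  have h2l := two_le hl hd hk
  have := nz (k := k) (by omega)
  have h1 : (ZMod.val '' {i : ZMod k | neckc k l d i ≠ 0}) =
      (((Finset.range (d * l)).filter (fun n => ¬ l ∣ n) : Finset ℕ) : Set ℕ) := by
    ext n
    simp only [Set.mem_image, Set.mem_ofPred_eq, Finset.coe_filter, Finset.mem_range, c_ne]
    constructor
    · rintro ⟨i, hi, rfl⟩
      exact hi
    · rintro hn
      have e2 : ((n : ℕ) : ZMod k).val = n := ZMod.val_cast_of_lt (by omega)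
      exact ⟨(n : ZMod k), by rw [e2]; exact hn, e2⟩
  rw [← Set.ncard_image_of_injective _ (ZMod.val_injective k), h1, Set.ncard_coe_finset]
  have h3 := Finset.card_filter_add_card_filter_not (s := Finset.range (d * l)) (fun n => l ∣ n)
  have h4 : (Finset.range (d * l)).filter (fun n => l ∣ n) = (Finset.range d).image (fun a => l * a) := by
    ext n
    simp only [Finset.mem_filter, Finset.mem_range, Finset.mem_image]
    constructor
    · rintro ⟨h5, a, rfl⟩
      refine ⟨a, ?_, rfl⟩
      by_contra hc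
      have := Nat.mul_le_mul_left l (not_lt.1 hc)
      have h6 : l * d = d * l := Nat.mul_comm _ _
      omega
    · rintro ⟨a, h5, rfl⟩
      refine ⟨?_, Dvd.intro a rfl⟩
      have := Nat.mul_le_mul_left l (Nat.succ_le_of_lt h5)
      have h6 : l * d = d * l := Nat.mul_comm _ _
      have h7 : l * (a + 1) = l * a + l := by ring
      have h8 : a.succ = a + 1 := rfl
      rw [h8] at this
      omega
  rw [h4, Finset.card_image_of_injective, Finset.card_range, Finset.card_range] at h3
  · have h5 : d * (l - 1) = d * l - d := by rw [Nat.mul_sub, Nat.mul_one]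
    omega
  · intro a b hab
    exact Nat.eq_of_mul_eq_mul_left (by omega) hab

end H46.CY
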