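import Pool.Agent.H46.CY.Defs

/-!
# CY.Root : roots of the components below a set of hubs (about 60 lines)

For `u ∉ H` the set `{w | le w u ∧ w ∉ H}` is finite (`height`), contains `u` and is a chain (`chain`), so it has a smallest member `ρ u`. `exists_root_le`: `y = ρ u`, a proper ancestor of `ρ u` outside `H` would be an ancestor of `u` outside `H`. `root_unique`: `y`, `y'` are comparable (`chain`); if `y ≤ y'`, `y ≠ y'` then `y ∈ H`.
`root_adj`: `v ≤ u` or `u ≤ v`. In the second case `y ≤ v`. In the first case `y`, `v` are comparable: `y ≤ v`, or `v ≤ y`, `v ≠ y`.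
-/

namespace H46.CY

open Pool.Agent.H3.LC

variable {V : Type} {G : SimpleGraph V} {D : ℕ} {le : V → V → Prop}

theorem exists_root_le (h : IsElim G D le) (H : Set V) {u : V} (hu : u ∉ H) :
    ∃ y, y ∉ H ∧ le y u ∧ (∀ w, le w y → w ≠ y → w ∈ H) := by
  have key : ∀ n : ℕ, ∀ u : V, u ∉ H → {w | le w u}.ncard = n →
      ∃ y, y ∉ H ∧ le y u ∧ (∀ w, le w y → w ≠ y → w ∈ H) := by
    intro n
    induction n using Nat.strong_induction_on with
    | _ n ih =>
      intro u hu hn
      by_cases hall : ∀ w, le w u → w ≠ u → w ∈ H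
      · exact ⟨u, hu, h.refl u, hall⟩
      · push Not at hall
        obtain ⟨w, hwu, hne, hwH⟩ := hall
        have hfin : {x | le x u}.Finite := Set.finite_of_encard_le_coe (h.height u)
        have hlt : {x | le x w}.ncard < n := by
          rw [← hn]
          refine Set.ncard_lt_ncard ⟨fun x hx => h.trans _ _ _ hx hwu, fun hsub => hne ?_⟩ hfin
          exact h.anti _ _ hwu (hsub (h.refl u))
        obtain ⟨y, hy, hyw, hall'⟩ := ih _ hlt w hwH rfl
        exact ⟨y, hy, h.trans _ _ _ hyw hwu, hall'⟩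
  exact key _ u hu rfl

theorem root_unique (h : IsElim G D le) {H : Set V} {y y' u : V} (hy : y ∉ H) (hy' : y' ∉ H)
    (h1 : ∀ w, le w y → w ≠ y → w ∈ H) (h2 : ∀ w, le w y' → w ≠ y' → w ∈ H) (hu : le y u)
    (hu' : le y' u) : y = y' := by
  by_contra hne
  rcases h.chain _ _ _ hu hu' with h3 | h3
  · exact hy (h2 y h3 hne)
  · exact hy' (h1 y' h3 (fun h4 => hne h4.symm))

theorem root_adj (h : IsElim G D le) {y u v : V} (hu : le y u) (huv : G.Adj u v) :
    le y v ∨ (le v y ∧ v ≠ y) := by
  rcases h.adj _ _ huv with h1 | h1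
  · exact Or.inl (h.trans _ _ _ hu h1)
  · rcases h.chain _ _ _ hu h1 with h2 | h2
    · exact Or.inl h2
    · by_cases hvy : v = y
      · left
        rw [hvy]
        exact h.refl y
      · exact Or.inr ⟨h2, hvy⟩

end H46.CY
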