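import Pool.Agent.H46.CY.Sim
import Pool.Agent.H46.CY.Root
import Pool.Agent.H3.LC.Glue

/-!
# CY.Mov : cycles of the blow-up move back into the graph (about 230 lines)

`c v ≠ 0` iff `v` is below a (unique, `root_unique`) member `y` of `P`; two points have the same colour `≠ 0` iff they are below the same member of `P`.
`compat_of_class`: if `u`, `v` are adjacent, `y ∈ P` below... `le y u`, then by `root_adj` `le y v` (same colour), or `v` is a proper ancestor of `y`, so `v ∈ H` and `c v = 0` (`H` is closed under ancestors, members of `P` are not in `H`).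
`valid_of_class`: by `isLCycle_iff` let `g : ZMod t → BV c M`, `3 ≤ t`, `IsCyc (blow G c M) g`, `g i = (v i, a i)`. For `c (v i) ≠ 0` let `y i ∈ P` be the member with `le (y i) (v i)`; the copy at `i` is `Z = (y i, a i)`.
Case 1: all `c (v i) ≠ 0` and all copies are equal: then `v` is injective and `IsCyc G v`, so `t ∈ L`. (If some copy `Z` is used at `i` and for all `j` (copy `Z` at `j`) implies (copy `Z` at `j + 1`), then all positions have copy `Z`: induction around `ZMod t`.)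
Case 2: every used copy `Z = (y, a)` has an exit: `i` with copy `Z` at `i` but not at `i + 1`. Adjacent positions with colours `≠ 0` have the same copy (`Compat` and the definition of `blow`), so `c (v (i + 1)) = 0`, and `v (i + 1)` is a proper ancestor of `y` (`root_adj`). The map `Z ↦ v (i + 1)` is injective
(`g (i + 1) = (v (i + 1), 0)`, `g` injective). So for every `y0 ∈ P` the used copies `(y, a)` with `κ y = κ y0` are mapped injectively into the proper ancestors of `y0` (the same for all of them by `Sim`), hence there are at most `D` of them (`height`), and there is an injection of them into `{y' ∈ P | κ y' = κ y0}`.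
Choose such an injection for every value of `κ`; together: `σ` from the used copies to `P`, injective, `Sim G le y (σ (y, a))`. With the maps `φ` of `Sim`: `f i = v i` if `c (v i) = 0`, `f i = φ (v i)` (for `(y i, σ (y i, a i))`) otherwise. `IsCyc G f`: injective (colour `0` and not `0` are not mixed: `f i` is below
`σ Z ∈ P`; equal values give the same `σ Z`, so the same copy, and `φ` is injective); adjacency: both colours `0`; the same copy; or a hub which is a proper ancestor of `y i`, last clause of `Sim`. So `t ∈ L`.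
-/

namespace H46.CY

open Pool.Agent.H3.LC

variable {V : Type} {G : SimpleGraph V} {D : ℕ} {le : V → V → Prop}

theorem compat_of_class (h : IsElim G D le) {H P : Set V}
    (hH : ∀ u v, le u v → v ∈ H → u ∈ H) (hP : ∀ y ∈ P, y ∉ H ∧ ∀ w, le w y → w ≠ y → w ∈ H)
    {c : V → ℕ} (hc0 : ∀ v, c v ≠ 0 ↔ ∃ y ∈ P, le y v)
    (hc : ∀ u v, ∀ y ∈ P, le y u → (c u = c v ↔ le y v)) : Compat G c := by
  intro u v huv hu hv
  obtain ⟨y, hy, hyu⟩ := (hc0 u).1 hu
  rcases root_adj h hyu huv with h1 | ⟨h1, h2⟩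
  · exact (hc u v y hy hyu).2 h1
  · exfalso
    have h3 : v ∈ H := (hP y hy).2 v h1 h2
    obtain ⟨y', hy', hyv⟩ := (hc0 v).1 hv
    exact (hP y' hy').1 (hH y' v hyv h3)

theorem valid_of_class [Finite V] (h : IsElim G D le) {L : Finset ℕ} (hL : IsLCycleGraph L G)
    {H P : Set V} (hH : ∀ u v, le u v → v ∈ H → u ∈ H)
    (hP : ∀ y ∈ P, y ∉ H ∧ ∀ w, le w y → w ≠ y → w ∈ H) {κ : V → ℕ}
    (hκ : ∀ y ∈ P, ∀ y' ∈ P, κ y = κ y' → Sim G le y y')
    (hD : ∀ y ∈ P, D ≤ {y' | y' ∈ P ∧ κ y' = κ y}.ncard)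
    {c : V → ℕ} (hc0 : ∀ v, c v ≠ 0 ↔ ∃ y ∈ P, le y v)
    (hc : ∀ u v, ∀ y ∈ P, le y u → (c u = c v ↔ le y v)) (M : ℕ) :
    IsLCycleGraph L (blow G c M) := by
  classical
  have hL' := isLCycle_iff.1 hL
  have hcomp : Compat G c := compat_of_class h hH hP hc0 hc
  rw [isLCycle_iff]
  intro t g ht hg
  haveI : NeZero t := ⟨by omega⟩
  obtain ⟨ginj, gadj⟩ := hg
  obtain ⟨v, hv⟩ : ∃ v : ZMod t → V, v = fun i => (g i).1.1 := ⟨_, rfl⟩
  obtain ⟨a, ha⟩ : ∃ a : ZMod t → Fin (M + 1), a = fun i => (g i).1.2 := ⟨_, rfl⟩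
  have hga : ∀ i j, v i = v j → a i = a j → i = j := by
    intro i j h1 h2
    apply ginj
    apply Subtype.ext
    refine Prod.ext ?_ ?_
    · have := h1
      rw [hv] at this
      exact this
    · have := h2
      rw [ha] at this
      exact this
  have ha0 : ∀ i, c (v i) = 0 → a i = 0 := by
    intro i h1
    rw [ha]
    rw [hv] at h1
    exact (g i).2 h1
  have hadj : ∀ i, G.Adj (v i) (v (i + 1)) := by
    intro i
    rw [hv]
    exact (gadj i).1
  have hsame : ∀ i, c (v i) ≠ 0 → c (v (i + 1)) ≠ 0 → a i = a (i + 1) := by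
    intro i h1 h2
    rw [ha]
    rw [hv] at h1 h2
    exact (gadj i).2 h1 h2
  -- the member of `P` below `v i`
  have hY0 : ∀ i, ∃ y, c (v i) ≠ 0 → y ∈ P ∧ le y (v i) := by
    intro i
    by_cases h1 : c (v i) = 0
    · exact ⟨v i, fun h2 => absurd h1 h2⟩
    · obtain ⟨y, hy, hyu⟩ := (hc0 _).1 h1
      exact ⟨y, fun _ => ⟨hy, hyu⟩⟩
  choose Y hY using hY0
  have huniq : ∀ {y y' u : V}, y ∈ P → y' ∈ P → le y u → le y' u → y = y' := by
    intro y y' u hy hy' h1 h2
    exact root_unique h (hP y hy).1 (hP y' hy').1 (hP y hy).2 (hP y' hy').2 h1 h2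
  have hYY : ∀ i, c (v i) ≠ 0 → c (v (i + 1)) ≠ 0 → Y i = Y (i + 1) := by
    intro i h1 h2
    have h3 := hcomp _ _ (hadj i) h1 h2
    have h4 := (hc _ _ (Y i) (hY i h1).1 (hY i h1).2).1 h3
    exact huniq (hY i h1).1 (hY _ h2).1 h4 (hY _ h2).2
  -- neighbours of colour zero
  have hanc : ∀ i w, c (v i) ≠ 0 → c w = 0 → G.Adj (v i) w → le w (Y i) ∧ w ≠ Y i := by
    intro i w h1 h2 h3
    rcases root_adj h (hY i h1).2 h3 with h4 | h4
    · exact absurd h2 ((hc0 w).2 ⟨Y i, (hY i h1).1, h4⟩)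
    · exact h4
  by_cases hcase : ∃ Z : V × Fin (M + 1), ∀ i, c (v i) ≠ 0 ∧ (Y i, a i) = Z
  · obtain ⟨Z, hZ⟩ := hcase
    refine hL' t v ht ⟨?_, hadj⟩
    intro i j hij
    refine hga i j hij ?_
    have h1 := (hZ i).2
    rw [← (hZ j).2] at h1
    exact congrArg Prod.snd h1
  -- used copies
  obtain ⟨used, hused⟩ : ∃ used : V × Fin (M + 1) → Prop,
      used = fun Z => ∃ i, c (v i) ≠ 0 ∧ (Y i, a i) = Z := ⟨_, rfl⟩
  have husedi : ∀ i, c (v i) ≠ 0 → used (Y i, a i) := by
    intro i h1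
    rw [hused]
    exact ⟨i, h1, rfl⟩
  have husedP : ∀ Z, used Z → Z.1 ∈ P := by
    intro Z hZ
    rw [hused] at hZ
    obtain ⟨i, h1, rfl⟩ := hZ
    exact (hY i h1).1
  have hexit : ∀ Z, used Z → ∃ i, c (v i) ≠ 0 ∧ (Y i, a i) = Z ∧ c (v (i + 1)) = 0 := by
    intro Z hZ
    by_contra hno
    push Not at hno
    rw [hused] at hZ
    obtain ⟨i, h1, h2⟩ := hZ
    have hstep : ∀ j, c (v j) ≠ 0 ∧ (Y j, a j) = Z → c (v (j + 1)) ≠ 0 ∧ (Y (j + 1), a (j + 1)) = Z := by
      rintro j ⟨h3, h4⟩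
      have h5 := hno j h3 h4
      refine ⟨h5, ?_⟩
      rw [← hYY j h3 h5, ← hsame j h3 h5]
      exact h4
    have hall : ∀ n : ℕ, c (v (i + n)) ≠ 0 ∧ (Y (i + n), a (i + n)) = Z := by
      intro n
      induction n with
      | zero =>
        rw [Nat.cast_zero, add_zero]
        exact ⟨h1, h2⟩
      | succ n ih =>
        have h3 := hstep _ ih
        rw [add_assoc] at h3
        rw [Nat.cast_succ]
        exact h3
    apply hcase
    refine ⟨Z, fun j => ?_⟩
    have h3 := hall (j - i).val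
    rw [ZMod.natCast_zmod_val, add_sub_cancel] at h3
    exact h3
  choose! ex hex using hexit
  have hWinj : ∀ Z Z', used Z → used Z' → v (ex Z + 1) = v (ex Z' + 1) → Z = Z' := by
    intro Z Z' hZ hZ' h1
    obtain ⟨h2, h3, h4⟩ := hex Z hZ
    obtain ⟨h2', h3', h4'⟩ := hex Z' hZ'
    have h5 := hga _ _ h1 ((ha0 _ h4).trans (ha0 _ h4').symm)
    have h6 : ex Z = ex Z' := add_right_cancel h5
    rw [← h3, ← h3', h6]
  -- injections class by class
  have hemb : ∀ k : ℕ, Nonempty ({Z : V × Fin (M + 1) // used Z ∧ κ Z.1 = k} ↪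
      {y : V // y ∈ P ∧ κ y = k}) := by
    intro k
    haveI : Finite {Z : V × Fin (M + 1) // used Z ∧ κ Z.1 = k} := inferInstance
    haveI : Finite {y : V // y ∈ P ∧ κ y = k} := inferInstance
    haveI := Fintype.ofFinite {Z : V × Fin (M + 1) // used Z ∧ κ Z.1 = k}
    haveI := Fintype.ofFinite {y : V // y ∈ P ∧ κ y = k}
    apply Function.Embedding.nonempty_of_card_le
    rw [← Nat.card_eq_fintype_card, ← Nat.card_eq_fintype_card]
    by_cases hemp : IsEmpty {Z : V × Fin (M + 1) // used Z ∧ κ Z.1 = k}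
    · rw [Nat.card_of_isEmpty]
      exact Nat.zero_le _
    · rw [not_isEmpty_iff] at hemp
      obtain ⟨⟨Z0, hZ0, hk⟩⟩ := hemp
      have hy0 := husedP Z0 hZ0
      have h1 : D ≤ Nat.card {y : V // y ∈ P ∧ κ y = k} := by
        have h2 := hD Z0.1 hy0
        rw [hk] at h2
        exact h2
      refine le_trans ?_ h1
      -- proper ancestors of `Z0.1`
      have h2 : Nat.card {Z : V × Fin (M + 1) // used Z ∧ κ Z.1 = k} ≤ {u | le u Z0.1}.ncard := by
        rw [← Nat.card_coe_set_eq]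
        refine Nat.card_le_card_of_injective
          (fun Z : {Z : V × Fin (M + 1) // used Z ∧ κ Z.1 = k} =>
            (⟨v (ex Z.1 + 1), ?_⟩ : ({u | le u Z0.1} : Set V))) ?_
        · obtain ⟨Z, hZ, hZk⟩ := Z
          obtain ⟨h2, h3, h4⟩ := hex Z hZ
          have h5 := hanc _ _ h2 h4 (hadj _)
          have h6 : Y (ex Z) = Z.1 := congrArg Prod.fst h3
          rw [h6] at h5
          have h7 := hκ Z.1 (husedP Z hZ) Z0.1 hy0 (hZk.trans hk.symm)
          exact ((h7.1 _).1 h5).1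
        · intro Z Z' hZZ
          have h3 := congrArg Subtype.val hZZ
          exact Subtype.ext (hWinj _ _ Z.2.1 Z'.2.1 h3)
      refine h2.trans ?_
      have h3 := h.height Z0.1
      have h4 : ({u | le u Z0.1} : Set V).encard = ({u | le u Z0.1}.ncard : ℕ∞) :=
        (Set.Finite.cast_ncard_eq (Set.toFinite _)).symm
      rw [h4] at h3
      exact_mod_cast h3
  have emb : ∀ k : ℕ, {Z : V × Fin (M + 1) // used Z ∧ κ Z.1 = k} ↪
      {y : V // y ∈ P ∧ κ y = k} := fun k => (hemb k).some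
  obtain ⟨σ, hσ⟩ : ∃ σ : V × Fin (M + 1) → V, ∀ Z (hZ : used Z),
      σ Z = (emb (κ Z.1) ⟨Z, hZ, rfl⟩ : V) := by
    refine ⟨fun Z => if hZ : used Z then (emb (κ Z.1) ⟨Z, hZ, rfl⟩ : V) else Z.1, fun Z hZ => ?_⟩
    exact dif_pos hZ
  have hσP : ∀ Z, used Z → σ Z ∈ P ∧ κ (σ Z) = κ Z.1 := by
    intro Z hZ
    rw [hσ Z hZ]
    exact (emb (κ Z.1) ⟨Z, hZ, rfl⟩).2
  have hσinj : ∀ Z Z', used Z → used Z' → σ Z = σ Z' → Z = Z' := by
    intro Z Z' hZ hZ' h1
    have hk : κ Z'.1 = κ Z.1 := by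
      rw [← (hσP Z hZ).2, ← (hσP Z' hZ').2, h1]
    have h2 : ∀ (k : ℕ) (hk : κ Z'.1 = k), σ Z' = (emb k ⟨Z', hZ', hk⟩ : V) := by
      rintro k rfl
      exact hσ Z' hZ'
    rw [hσ Z hZ, h2 _ hk] at h1
    have h3 := (emb (κ Z.1)).injective (Subtype.ext h1)
    exact congrArg Subtype.val h3
  have hΦ : ∀ Z, used Z → ∃ φ : V → V,
      (∀ u w, le Z.1 u → le Z.1 w → φ u = φ w → u = w) ∧ (∀ u, le Z.1 u → le (σ Z) (φ u)) ∧
      (∀ u w, le Z.1 u → le Z.1 w → G.Adj u w → G.Adj (φ u) (φ w)) ∧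
      ∀ w u, le w Z.1 → w ≠ Z.1 → le Z.1 u → G.Adj w u → G.Adj w (φ u) := by
    intro Z hZ
    exact (hκ Z.1 (husedP Z hZ) (σ Z) (hσP Z hZ).1 (hσP Z hZ).2.symm).2
  haveI : Nonempty (V → V) := ⟨id⟩
  choose! Φ hΦ1 hΦ2 hΦ3 hΦ4 using hΦ
  obtain ⟨f, hf⟩ : ∃ f : ZMod t → V, f = fun i => if c (v i) = 0 then v i else Φ (Y i, a i) (v i) :=
    ⟨_, rfl⟩
  have hf0 : ∀ i, c (v i) = 0 → f i = v i := by
    intro i h1
    rw [hf]
    exact if_pos h1
  have hf1 : ∀ i, c (v i) ≠ 0 → f i = Φ (Y i, a i) (v i) := by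
    intro i h1
    rw [hf]
    exact if_neg h1
  have hfb : ∀ i, c (v i) ≠ 0 → le (σ (Y i, a i)) (f i) := by
    intro i h1
    rw [hf1 i h1]
    exact hΦ2 _ (husedi i h1) _ (hY i h1).2
  have hfc : ∀ i, c (v i) ≠ 0 → c (f i) ≠ 0 := by
    intro i h1
    exact (hc0 _).2 ⟨_, (hσP _ (husedi i h1)).1, hfb i h1⟩
  refine hL' t f ht ⟨?_, ?_⟩
  · intro i j hij
    by_cases hi : c (v i) = 0
    · by_cases hj : c (v j) = 0
      · rw [hf0 i hi, hf0 j hj] at hij
        exact hga i j hij ((ha0 i hi).trans (ha0 j hj).symm)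
      · exfalso
        apply hfc j hj
        rw [← hij, hf0 i hi]
        exact hi
    · by_cases hj : c (v j) = 0
      · exfalso
        apply hfc i hi
        rw [hij, hf0 j hj]
        exact hj
      · have h1 := hfb i hi
        have h2 := hfb j hj
        rw [← hij] at h2
        have h3 := huniq (hσP _ (husedi i hi)).1 (hσP _ (husedi j hj)).1 h1 h2
        have h4 := hσinj _ _ (husedi i hi) (husedi j hj) h3
        rw [hf1 i hi, hf1 j hj, ← h4] at hij
        have h5 : Y j = Y i := congrArg Prod.fst h4.symm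
        have h6 : a i = a j := congrArg Prod.snd h4
        have h7 := hΦ1 _ (husedi i hi) (v i) (v j) (hY i hi).2
          (by
            change le (Y i) (v j)
            rw [← h5]
            exact (hY j hj).2) hij
        exact hga i j h7 h6
  · intro i
    by_cases hi : c (v i) = 0
    · by_cases hj : c (v (i + 1)) = 0
      · rw [hf0 i hi, hf0 _ hj]
        exact hadj i
      · rw [hf0 i hi, hf1 _ hj]
        have h1 := hanc (i + 1) (v i) hj hi (hadj i).symm
        exact hΦ4 _ (husedi _ hj) _ _ h1.1 h1.2 (hY _ hj).2 (hadj i)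
    · by_cases hj : c (v (i + 1)) = 0
      · rw [hf1 i hi, hf0 _ hj]
        have h1 := hanc i (v (i + 1)) hi hj (hadj i)
        exact (hΦ4 _ (husedi _ hi) _ _ h1.1 h1.2 (hY _ hi).2 (hadj i).symm).symm
      · rw [hf1 i hi, hf1 _ hj, ← hYY i hi hj, ← hsame i hi hj]
        refine hΦ3 _ (husedi i hi) _ _ (hY i hi).2 ?_ (hadj i)
        change le (Y i) (v (i + 1))
        rw [hYY i hi hj]
        exact (hY _ hj).2

end H46.CY
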