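import Pool.Agent.H46.CY.Sim

/-!
# CY.Pop : few classes of similar roots (about 180 lines)

For `y ∈ R` choose an injection `e y : V → Fin (M + 1)` on `{x | le y x}` (at most `M` points; `e y : V → Fin (M + 1)`, injective on this set) and the code of `y`: the three predicates `occ a := ∃ u, le y u ∧ e y u = a`, `adj a b := ∃ u v, le y u ∧ le y v ∧ e y u = a ∧ e y v = b ∧ G.Adj u v`,
`hub a j := ∃ w u, le w y ∧ w ≠ y ∧ le y u ∧ e y u = a ∧ {x | le x w}.ncard = j ∧ G.Adj w u` for `a b : Fin (M + 1)`, `j : Fin (D + 1)`. The codes form a finite type `(Fin (M + 1) → Prop) × (Fin (M + 1) → Fin (M + 1) → Prop) × (Fin (M + 1) → Fin (D + 1) → Prop)` whose cardinality `B` depends only on `D`, `M`.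
The set `A y = {w | le w y ∧ w ≠ y}` of proper ancestors is a subset of `H`, a finite chain; it is empty or `{w | le w q}` for its greatest member `q ∈ H`; so there are at most `H.ncard + 1` different sets `A y`. Let `κ y` be (a natural number coding) the pair of `A y` and the code: take any injection of the finite type
`Set V × Code` into `ℕ`; `#(κ '' R) ≤ (H.ncard + 1) * B`. If `κ y = κ y'`: `φ u` for `le y u` is the unique point below `y'` with `e y' (φ u) = e y u` (`occ`), other `u` arbitrary. Edges below `y`: `adj`. Edges to a proper ancestor `w`: `hub` gives `w'` with the same number of ancestors as `w`; both are members of the chain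
`A y = A y'`; comparable points with the same number of ancestors are equal (`w ≤ w'`, `w ≠ w'`: the ancestors of `w` are a proper subset of the ancestors of `w'`, finite sets).
-/

namespace H46.CY

private abbrev pop_Code (D M : ℕ) : Type :=
  (Fin (M + 1) → Prop) × (Fin (M + 1) → Fin (M + 1) → Prop) × (Fin (M + 1) → Fin (D + 1) → Prop)

private def pop_code {V : Type} (G : SimpleGraph V) (le : V → V → Prop) (D M : ℕ)
    (e : V → V → Fin (M + 1)) (y : V) : pop_Code D M :=
  (fun a => ∃ u, le y u ∧ e y u = a,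
   fun a b => ∃ u v, le y u ∧ le y v ∧ e y u = a ∧ e y v = b ∧ G.Adj u v,
   fun a j => ∃ w u, le w y ∧ w ≠ y ∧ le y u ∧ e y u = a ∧ {x | le x w}.ncard = (j : ℕ) ∧
     G.Adj w u)

private theorem pop_inj {V : Type} [Finite V] (S : Set V) (M : ℕ) (h : S.ncard ≤ M) :
    ∃ e : V → Fin (M + 1), ∀ u ∈ S, ∀ v ∈ S, e u = e v → u = v := by
  classical
  have hf : S.Finite := S.toFinite
  have hfin : Finite S := hf.to_subtype
  let g : S ≃ Fin (Nat.card S) := Finite.equivFin S
  have hc : Nat.card S = S.ncard := rfl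
  refine ⟨fun u => if hu : u ∈ S then ⟨(g ⟨u, hu⟩ : ℕ), ?_⟩ else 0, ?_⟩
  · have := (g ⟨u, hu⟩).2
    omega
  · intro u hu v hv huv
    simp only [hu, hv, dif_pos] at huv
    have h1 : (g ⟨u, hu⟩ : ℕ) = (g ⟨v, hv⟩ : ℕ) := by
      simpa using congrArg Fin.val huv
    have h2 := g.injective (Fin.ext h1)
    exact congrArg Subtype.val h2

private theorem pop_eq {V : Type} [Finite V] {G : SimpleGraph V} {D : ℕ} {le : V → V → Prop}
    (h : IsElim G D le) {w w' : V} (hc : le w w' ∨ le w' w)
    (hn : {x | le x w}.ncard = {x | le x w'}.ncard) : w = w' := by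
  rcases hc with hc | hc
  · have hs : {x | le x w} ⊆ {x | le x w'} := fun x hx => h.trans x w w' hx hc
    have he : {x | le x w} = {x | le x w'} :=
      Set.eq_of_subset_of_ncard_le hs hn.ge (Set.toFinite _)
    have h1 : w' ∈ {x | le x w} := by
      rw [he]
      exact h.refl w'
    exact h.anti w w' hc h1
  · have hs : {x | le x w'} ⊆ {x | le x w} := fun x hx => h.trans x w' w hx hc
    have he : {x | le x w'} = {x | le x w} :=
      Set.eq_of_subset_of_ncard_le hs hn.le (Set.toFinite _)
    have h1 : w ∈ {x | le x w'} := by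
      rw [he]
      exact h.refl w
    exact h.anti w w' h1 hc

private theorem pop_anc {V : Type} [Finite V] {G : SimpleGraph V} {D : ℕ} {le : V → V → Prop}
    (h : IsElim G D le) (y : V) :
    {w | le w y ∧ w ≠ y} = ∅ ∨
      ∃ q, (le q y ∧ q ≠ y) ∧ {w | le w y ∧ w ≠ y} = {w | le w q} := by
  rcases Set.eq_empty_or_nonempty {w | le w y ∧ w ≠ y} with h0 | h0
  · exact Or.inl h0
  · right
    obtain ⟨q, hq, hmax⟩ := Set.exists_max_image {w | le w y ∧ w ≠ y}
      (fun w => {x | le x w}.ncard) (Set.toFinite _) h0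
    refine ⟨q, hq, ?_⟩
    ext w
    constructor
    · intro hw
      rcases h.chain w q y hw.1 hq.1 with h1 | h1
      · exact h1
      · have hs : {x | le x q} ⊆ {x | le x w} := fun x hx => h.trans x q w hx h1
        have hn := hmax w hw
        have he : {x | le x q} = {x | le x w} :=
          Set.eq_of_subset_of_ncard_le hs hn (Set.toFinite _)
        have h2 : w ∈ {x | le x q} := by
          rw [he]
          exact h.refl w
        exact h2
    · intro hw
      refine ⟨h.trans w q y hw hq.1, ?_⟩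
      intro hwy
      subst hwy
      exact hq.2 (h.anti q w hq.1 hw)

theorem exists_class (D M : ℕ) :
    ∃ B : ℕ, ∀ (V : Type) [Finite V] (G : SimpleGraph V) (le : V → V → Prop), IsElim G D le →
      ∀ (H R : Set V), (∀ y ∈ R, (∀ w, le w y → w ≠ y → w ∈ H) ∧ {x | le y x}.ncard ≤ M) →
      ∃ κ : V → ℕ, (∀ y ∈ R, ∀ y' ∈ R, κ y = κ y' → Sim G le y y') ∧
        (κ '' R).ncard ≤ B * (H.ncard + 1) := by
  classical
  refine ⟨Nat.card (pop_Code D M), ?_⟩
  intro V _ G le h H R hR
  have he : ∀ y : V, ∃ e : V → Fin (M + 1), {x | le y x}.ncard ≤ M →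
      ∀ u, le y u → ∀ v, le y v → e u = e v → u = v := by
    intro y
    by_cases hy : {x | le y x}.ncard ≤ M
    · obtain ⟨e, he⟩ := pop_inj {x | le y x} M hy
      exact ⟨e, fun _ u hu v hv => he u hu v hv⟩
    · exact ⟨fun _ => 0, fun hy' => absurd hy' hy⟩
  choose e he using he
  obtain ⟨f, hf⟩ : ∃ f : Set V × pop_Code D M → ℕ, Function.Injective f :=
    Countable.exists_injective_nat _
  let A : V → Set V := fun y => {w | le w y ∧ w ≠ y}
  let C : V → pop_Code D M := pop_code G le D M e
  refine ⟨fun y => f (A y, C y), ?_, ?_⟩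
  · intro y hy y' hy' hκ
    have h1 := hf hκ
    have hA : A y = A y' := congrArg Prod.fst h1
    have hC : C y = C y' := congrArg Prod.snd h1
    have hc1 : ∀ a, (∃ u, le y u ∧ e y u = a) → ∃ u, le y' u ∧ e y' u = a := by
      intro a ha
      have h2 : (C y).1 a := ha
      rw [hC] at h2
      exact h2
    have hc2 : ∀ a b, (∃ u v, le y u ∧ le y v ∧ e y u = a ∧ e y v = b ∧ G.Adj u v) →
        ∃ u v, le y' u ∧ le y' v ∧ e y' u = a ∧ e y' v = b ∧ G.Adj u v := by
      intro a b hab
      have h2 : (C y).2.1 a b := hab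
      rw [hC] at h2
      exact h2
    have hc3 : ∀ a (j : Fin (D + 1)), (∃ w u, le w y ∧ w ≠ y ∧ le y u ∧ e y u = a ∧
        {x | le x w}.ncard = (j : ℕ) ∧ G.Adj w u) →
        ∃ w u, le w y' ∧ w ≠ y' ∧ le y' u ∧ e y' u = a ∧
        {x | le x w}.ncard = (j : ℕ) ∧ G.Adj w u := by
      intro a j haj
      have h2 : (C y).2.2 a j := haj
      rw [hC] at h2
      exact h2
    have hinj := he y (hR y hy).2
    have hinj' := he y' (hR y' hy').2
    have hphi : ∀ u, ∃ u', le y u → le y' u' ∧ e y' u' = e y u := by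
      intro u
      by_cases hu : le y u
      · obtain ⟨u', hu'⟩ := hc1 (e y u) ⟨u, hu, rfl⟩
        exact ⟨u', fun _ => hu'⟩
      · exact ⟨u, fun hu' => absurd hu' hu⟩
    choose φ hφ using hphi
    refine ⟨?_, φ, ?_, ?_, ?_, ?_⟩
    · intro w
      have h2 : w ∈ A y ↔ w ∈ A y' := by rw [hA]
      exact h2
    · intro u v hu hv huv
      apply hinj u hu v hv
      rw [← (hφ u hu).2, ← (hφ v hv).2, huv]
    · intro u hu
      exact (hφ u hu).1
    · intro u v hu hv huv
      obtain ⟨u', v', h2, h3, h4, h5, h6⟩ := hc2 (e y u) (e y v) ⟨u, v, hu, hv, rfl, rfl, huv⟩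
      have h7 : u' = φ u := hinj' u' h2 (φ u) (hφ u hu).1 (h4.trans (hφ u hu).2.symm)
      have h8 : v' = φ v := hinj' v' h3 (φ v) (hφ v hv).1 (h5.trans (hφ v hv).2.symm)
      rw [← h7, ← h8]
      exact h6
    · intro w u hw hwy hu hwu
      have hj : {x | le x w}.ncard < D + 1 := by
        have h2 := h.height w
        have h3 : ({x | le x w}.ncard : ℕ∞) ≤ (D : ℕ∞) := by
          rw [(Set.toFinite {x | le x w}).cast_ncard_eq]
          exact h2
        have h4 : {x | le x w}.ncard ≤ D := by exact_mod_cast h3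
        omega
      obtain ⟨w', u', h2, h3, h4, h5, h6, h7⟩ :=
        hc3 (e y u) ⟨{x | le x w}.ncard, hj⟩ ⟨w, u, hw, hwy, hu, rfl, rfl, hwu⟩
      have h8 : u' = φ u := hinj' u' h4 (φ u) (hφ u hu).1 (h5.trans (hφ u hu).2.symm)
      have hwA : w ∈ A y' := by
        rw [← hA]
        exact ⟨hw, hwy⟩
      have h9 : w' = w := pop_eq h (h.chain w' w y' h2 hwA.1) h6
      rw [← h8, ← h9]
      exact h7
  · have hsub : (fun y => f (A y, C y)) '' R ⊆ f '' ((A '' R) ×ˢ (Set.univ : Set (pop_Code D M))) := by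
      rintro _ ⟨y, hy, rfl⟩
      exact ⟨(A y, C y), ⟨⟨y, hy, rfl⟩, trivial⟩, rfl⟩
    have hA : (A '' R).ncard ≤ H.ncard + 1 := by
      have hs : A '' R ⊆ insert ∅ ((fun q => {w | le w q}) '' H) := by
        rintro _ ⟨y, hy, rfl⟩
        rcases pop_anc h y with h1 | ⟨q, hq, h1⟩
        · left
          exact h1
        · right
          exact ⟨q, (hR y hy).1 q hq.1 hq.2, h1.symm⟩
      calc (A '' R).ncard ≤ (insert ∅ ((fun q => {w | le w q}) '' H)).ncard :=
            Set.ncard_le_ncard hs (Set.toFinite _)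
        _ ≤ ((fun q => {w | le w q}) '' H).ncard + 1 := Set.ncard_insert_le _ _
        _ ≤ H.ncard + 1 := by
            have := Set.ncard_image_le (f := fun q => {w | le w q}) (Set.toFinite H)
            omega
    calc ((fun y => f (A y, C y)) '' R).ncard
        ≤ (f '' ((A '' R) ×ˢ (Set.univ : Set (pop_Code D M)))).ncard :=
          Set.ncard_le_ncard hsub (Set.toFinite _)
      _ ≤ ((A '' R) ×ˢ (Set.univ : Set (pop_Code D M))).ncard :=
          Set.ncard_image_le (Set.toFinite _)
      _ = (A '' R).ncard * Nat.card (pop_Code D M) := by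
          rw [Set.ncard_prod, Set.ncard_univ]
      _ ≤ (H.ncard + 1) * Nat.card (pop_Code D M) := Nat.mul_le_mul_right _ hA
      _ = Nat.card (pop_Code D M) * (H.ncard + 1) := Nat.mul_comm _ _

end H46.CY
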