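import Pool.Agent.H46.CY.Scale
import Pool.Agent.H46.CY.Pop
import Pool.Agent.H46.CY.Mov

/-!
# CY.Tmpl : almost all vertices lie in small popular pieces (about 150 lines)

We may replace `D` by `D + 1`, so `1 ≤ D` (or treat `D = 0`: then `V` is empty). Let `B i` be the constant of `exists_class D (T i)`. Choose `I ≥ 1` with `3 D ≤ ε I`, and `T : ℕ → ℕ` monotone with `T 0 = 1`, `3 D (1 + B i * D * T i) ≤ ε T (i + 1)` (recursion). `M = T I`, `n0 = T I` (enlarge: `3 B i D T i ≤ ε n0` for all `i < I`).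
Take `i` from `exists_scale`, `H = {v | T (i + 1) ≤ #{x | le v x}}`: closed under ancestors (`le u v` gives `{x | le v x} ⊆ {x | le u x}`). `R = {y | y ∉ H ∧ (all proper ancestors in H) ∧ #{x | le y x} ≤ T i}`, `κ` from `exists_class`, `P = {y ∈ R | D ≤ #{y' ∈ R | κ y' = κ y}}`: for `y ∈ P` all `y' ∈ R` with `κ y' = κ y`
are in `P`. `c v = (index of y) + 1` if `v` is below `y ∈ P` (an injection `V → ℕ`, `root_unique`), `0` otherwise. `Compat`, blow-ups: `Mov`. Pieces: `{v | c v = i}` is `{v | le y v}`, at most `T i ≤ M` points. Colour `0`: `v ∈ H`: at most `D n / T (i + 1)` points (`card_heavy`); `v ∉ H`: by `exists_root_le` there is `y ∉ H` with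
`le y v` and all proper ancestors in `H`; `#{x | le y x} < T (i + 1)`. If `T i ≤ #{x | le y x}` then `v` is in the set of `exists_scale`, at most `D n / I ≤ ε n / 3`. Otherwise `y ∈ R`, `y ∉ P`: the number of such `y` is at most `#(κ '' R) * D ≤ B i (#H + 1) D` (every `κ`-class of `R` outside `P` has fewer than `D` members),
each with at most `T i` points below. Sum: `#H (1 + B i D T i) + B i D T i + ε n / 3 ≤ ε n` because `#H (1 + B i D T i) ≤ D n (1 + B i D T i) / T (i + 1) ≤ ε n / 3` and `B i D T i ≤ ε n0 / 3`.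
-/

namespace H46.CY

open Pool.Agent.H3.LC

private noncomputable def tmpl_next (B : ℕ → ℕ) (D1 : ℕ) (ε : ℝ) (t : ℕ) : ℕ :=
  max t ⌈(3 * D1 * (1 + B t * D1 * t) : ℝ) / ε⌉₊

private noncomputable def tmpl_T (B : ℕ → ℕ) (D1 : ℕ) (ε : ℝ) : ℕ → ℕ
  | 0 => 1
  | i + 1 => tmpl_next B D1 ε (tmpl_T B D1 ε i)

private theorem tmpl_height {V : Type} {G : SimpleGraph V} {D : ℕ} {le : V → V → Prop}
    (h : IsElim G D le) : IsElim G (D + 1) le where
  refl := h.refl
  trans := h.trans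
  anti := h.anti
  chain := h.chain
  adj := h.adj
  height := fun v => (h.height v).trans (by exact_mod_cast Nat.le_succ D)

private theorem tmpl_colour {V : Type} [Finite V] {G : SimpleGraph V} {D : ℕ}
    {le : V → V → Prop} (h : IsElim G D le) {H P : Set V}
    (hP : ∀ y ∈ P, y ∉ H ∧ ∀ w, le w y → w ≠ y → w ∈ H) :
    ∃ c : V → ℕ, (∀ v, c v ≠ 0 ↔ ∃ y ∈ P, le y v) ∧
      (∀ u v, ∀ y ∈ P, le y u → (c u = c v ↔ le y v)) := by
  classical
  obtain ⟨g, hg⟩ : ∃ g : V → ℕ, Function.Injective g := Countable.exists_injective_nat _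
  let c : V → ℕ := fun v => if hv : ∃ y, y ∈ P ∧ le y v then g hv.choose + 1 else 0
  have hcy : ∀ v y, y ∈ P → le y v → c v = g y + 1 := by
    intro v y hy hyv
    have hv : ∃ y, y ∈ P ∧ le y v := ⟨y, hy, hyv⟩
    have h1 : c v = g hv.choose + 1 := dif_pos hv
    have h2 : hv.choose = y :=
      root_unique h (hP _ hv.choose_spec.1).1 (hP y hy).1 (hP _ hv.choose_spec.1).2 (hP y hy).2
        hv.choose_spec.2 hyv
    rw [h1, h2]
  have hc0 : ∀ v, (¬ ∃ y, y ∈ P ∧ le y v) → c v = 0 := fun v hv => dif_neg hv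
  refine ⟨c, ?_, ?_⟩
  · intro v
    constructor
    · intro hv
      by_contra hcon
      exact hv (hc0 v hcon)
    · rintro ⟨y, hy, hyv⟩
      rw [hcy v y hy hyv]
      exact Nat.succ_ne_zero _
  · intro u v y hy hyu
    rw [hcy u y hy hyu]
    constructor
    · intro hv
      by_contra hcon
      by_cases hex : ∃ y, y ∈ P ∧ le y v
      · obtain ⟨y', hy', hyv'⟩ := hex
        rw [hcy v y' hy' hyv'] at hv
        have h1 : y = y' := hg (Nat.succ_injective hv)
        subst h1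
        exact hcon hyv'
      · rw [hc0 v hex] at hv
        exact absurd hv (Nat.succ_ne_zero _)
    · intro hyv
      exact (hcy v y hy hyv).symm

private theorem tmpl_count {V : Type} [Finite V] {le : V → V → Prop} (R P : Set V) (κ : V → ℕ)
    (D t : ℕ) (hR : ∀ y ∈ R, {x | le y x}.ncard ≤ t)
    (hP : ∀ y ∈ R, y ∉ P → {y' | y' ∈ R ∧ κ y' = κ y}.ncard ≤ D) :
    {v | ∃ y, y ∈ R ∧ y ∉ P ∧ le y v}.ncard ≤ (κ '' R).ncard * D * t := by
  classical
  have := Fintype.ofFinite V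
  let F : Finset V := Finset.univ.filter fun y => y ∈ R ∧ y ∉ P
  have hF : F.card ≤ D * (F.image κ).card := by
    apply Finset.card_le_mul_card_image
    intro a ha
    obtain ⟨y, hy, rfl⟩ := Finset.mem_image.1 ha
    have hy' := (Finset.mem_filter.1 hy).2
    have h1 := hP y hy'.1 hy'.2
    have h2 : ((F.filter fun x => κ x = κ y : Finset V) : Set V) ⊆ {y' | y' ∈ R ∧ κ y' = κ y} := by
      intro x hx
      rw [Finset.mem_coe, Finset.mem_filter] at hx
      exact ⟨((Finset.mem_filter.1 hx.1).2).1, hx.2⟩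
    have h3 := Set.ncard_le_ncard h2 (Set.toFinite _)
    rw [Set.ncard_coe_finset] at h3
    exact h3.trans h1
  have himg : (F.image κ).card ≤ (κ '' R).ncard := by
    have h2 : ((F.image κ : Finset ℕ) : Set ℕ) ⊆ κ '' R := by
      intro x hx
      rw [Finset.mem_coe, Finset.mem_image] at hx
      obtain ⟨y, hy, rfl⟩ := hx
      exact ⟨y, ((Finset.mem_filter.1 hy).2).1, rfl⟩
    have h3 := Set.ncard_le_ncard h2 (Set.toFinite _)
    rwa [Set.ncard_coe_finset] at h3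
  have hU : {v | ∃ y, y ∈ R ∧ y ∉ P ∧ le y v}.ncard ≤ F.card * t := by
    have h2 : {v | ∃ y, y ∈ R ∧ y ∉ P ∧ le y v} ⊆
        ((F.biUnion fun y => Finset.univ.filter fun v => le y v : Finset V) : Set V) := by
      rintro v ⟨y, h1, h2, h3⟩
      rw [Finset.mem_coe, Finset.mem_biUnion]
      exact ⟨y, Finset.mem_filter.2 ⟨Finset.mem_univ _, h1, h2⟩,
        Finset.mem_filter.2 ⟨Finset.mem_univ _, h3⟩⟩
    have h3 := Set.ncard_le_ncard h2 (Set.toFinite _)
    rw [Set.ncard_coe_finset] at h3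
    refine h3.trans (Finset.card_biUnion_le_card_mul _ _ _ ?_)
    intro y hy
    have h4 := hR y ((Finset.mem_filter.1 hy).2).1
    have h5 : ((Finset.univ.filter fun v => le y v : Finset V) : Set V) = {x | le y x} := by
      ext x
      simp
    rw [← h5, Set.ncard_coe_finset] at h4
    exact h4
  calc {v | ∃ y, y ∈ R ∧ y ∉ P ∧ le y v}.ncard ≤ F.card * t := hU
    _ ≤ (D * (F.image κ).card) * t := Nat.mul_le_mul_right _ hF
    _ ≤ (D * (κ '' R).ncard) * t := Nat.mul_le_mul_right _ (Nat.mul_le_mul_left _ himg)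
    _ = (κ '' R).ncard * D * t := by rw [Nat.mul_comm D]

theorem exists_template (D : ℕ) {ε : ℝ} (hε : 0 < ε) :
    ∃ M n0 : ℕ, ∀ (V : Type) [Finite V] (G : SimpleGraph V) (le : V → V → Prop) (L : Finset ℕ),
      IsElim G D le → IsLCycleGraph L G → n0 ≤ Nat.card V → ∃ c : V → ℕ, Compat G c ∧
        (∀ M', IsLCycleGraph L (blow G c M')) ∧ ({v | c v = 0}.ncard : ℝ) ≤ ε * Nat.card V ∧
        ∀ i, i ≠ 0 → {v | c v = i}.ncard ≤ M := by
  classical
  obtain ⟨D1, hD1⟩ : ∃ D1, D1 = D + 1 := ⟨_, rfl⟩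
  choose B hB using exists_class D1
  obtain ⟨T, hTs⟩ : ∃ T : ℕ → ℕ, ∀ i, T (i + 1) = tmpl_next B D1 ε (T i) :=
    ⟨tmpl_T B D1 ε, fun i => rfl⟩
  have hT : Monotone T := monotone_nat_of_le_succ fun i => by
    rw [hTs, tmpl_next]
    exact le_max_left _ _
  have hT2 : ∀ i, (3 * D1 * (1 + B (T i) * D1 * T i) : ℝ) ≤ ε * T (i + 1) := by
    intro i
    have h1 : (3 * D1 * (1 + B (T i) * D1 * T i) : ℝ) / ε ≤ (T (i + 1) : ℝ) := by
      refine (Nat.le_ceil _).trans ?_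
      rw [hTs, tmpl_next]
      exact Nat.cast_le.2 (le_max_right _ _)
    rw [div_le_iff₀ hε] at h1
    linarith
  obtain ⟨I, hI0, hI⟩ : ∃ I : ℕ, 0 < I ∧ (3 * D1 : ℝ) ≤ ε * I := by
    refine ⟨max 1 ⌈(3 * D1 : ℝ) / ε⌉₊, lt_of_lt_of_le Nat.one_pos (le_max_left _ _), ?_⟩
    have h1 : (3 * D1 : ℝ) / ε ≤ ((max 1 ⌈(3 * D1 : ℝ) / ε⌉₊ : ℕ) : ℝ) := by
      refine (Nat.le_ceil _).trans ?_
      exact Nat.cast_le.2 (le_max_right _ _)
    rw [div_le_iff₀ hε] at h1
    linarith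
  obtain ⟨n0, hn0⟩ : ∃ n0 : ℕ, ∀ i < I, (3 * (B (T i) * D1 * T i) : ℝ) ≤ ε * n0 := by
    refine ⟨∑ i ∈ Finset.range I, ⌈(3 * (B (T i) * D1 * T i) : ℝ) / ε⌉₊, ?_⟩
    intro i hi
    have h1 : (3 * (B (T i) * D1 * T i) : ℝ) / ε ≤
        ((∑ i ∈ Finset.range I, ⌈(3 * (B (T i) * D1 * T i) : ℝ) / ε⌉₊ : ℕ) : ℝ) := by
      refine (Nat.le_ceil _).trans ?_
      have h2 := Finset.single_le_sum (f := fun i => ⌈(3 * (B (T i) * D1 * T i) : ℝ) / ε⌉₊)
        (fun j _ => Nat.zero_le _) (Finset.mem_range.2 hi)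
      exact Nat.cast_le.2 h2
    rw [div_le_iff₀ hε] at h1
    linarith
  refine ⟨T I, n0, ?_⟩
  intro V _ G le L h0 hL hn
  have h : IsElim G D1 le := by
    rw [hD1]
    exact tmpl_height h0
  obtain ⟨i, hi, hS⟩ := exists_scale h T hT hI0
  let H : Set V := {v | T (i + 1) ≤ {x | le v x}.ncard}
  have hH : ∀ u v, le u v → v ∈ H → u ∈ H := by
    intro u v huv hv
    have hv' : T (i + 1) ≤ {x | le v x}.ncard := hv
    have hs : {x | le v x} ⊆ {x | le u x} := fun x hx => h.trans u v x huv hx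
    exact hv'.trans (Set.ncard_le_ncard hs (Set.toFinite _))
  let R : Set V := {y | y ∉ H ∧ (∀ w, le w y → w ≠ y → w ∈ H) ∧ {x | le y x}.ncard ≤ T i}
  obtain ⟨κ, hκ1, hκ2⟩ := hB (T i) V G le h H R fun y hy => hy.2
  let P : Set V := {y | y ∈ R ∧ D1 ≤ {y' | y' ∈ R ∧ κ y' = κ y}.ncard}
  have hP : ∀ y ∈ P, y ∉ H ∧ ∀ w, le w y → w ≠ y → w ∈ H := fun y hy => ⟨hy.1.1, hy.1.2.1⟩
  have hD : ∀ y ∈ P, D1 ≤ {y' | y' ∈ P ∧ κ y' = κ y}.ncard := by
    intro y hy
    have h1 : {y' | y' ∈ P ∧ κ y' = κ y} = {y' | y' ∈ R ∧ κ y' = κ y} := by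
      ext y'
      constructor
      · rintro ⟨h1, h2⟩
        exact ⟨h1.1, h2⟩
      · rintro ⟨h1, h2⟩
        refine ⟨⟨h1, ?_⟩, h2⟩
        rw [h2]
        exact hy.2
    rw [h1]
    exact hy.2
  obtain ⟨c, hc0, hc⟩ := tmpl_colour h hP
  refine ⟨c, compat_of_class h hH hP hc0 hc, ?_, ?_, ?_⟩
  · intro M'
    exact valid_of_class h hL hH hP (fun y hy y' hy' => hκ1 y hy.1 y' hy'.1) hD hc0 hc M'
  · have hn' : (n0 : ℝ) ≤ (Nat.card V : ℝ) := by exact_mod_cast hn
    have hD1p : (0 : ℝ) < (D1 : ℝ) := by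
      have : 0 < D1 := by omega
      exact_mod_cast this
    let S : Set V := {u | ∃ v, le v u ∧ T i ≤ {x | le v x}.ncard ∧ {x | le v x}.ncard < T (i + 1)}
    let W : Set V := {v | ∃ y, y ∈ R ∧ y ∉ P ∧ le y v}
    have hsub : {v | c v = 0} ⊆ H ∪ (S ∪ W) := by
      intro v hv
      by_cases hvH : v ∈ H
      · exact Or.inl hvH
      · right
        obtain ⟨y, hyH, hyv, hyA⟩ := exists_root_le h H hvH
        have hy1 : {x | le y x}.ncard < T (i + 1) := not_le.1 hyH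
        by_cases hy2 : T i ≤ {x | le y x}.ncard
        · exact Or.inl ⟨y, hyv, hy2, hy1⟩
        · right
          have hyR : y ∈ R := ⟨hyH, hyA, (not_le.1 hy2).le⟩
          refine ⟨y, hyR, ?_, hyv⟩
          intro hyP
          exact (hc0 v).2 ⟨y, hyP, hyv⟩ hv
    have hW : W.ncard ≤ (κ '' R).ncard * D1 * T i := by
      refine tmpl_count R P κ D1 (T i) (fun y hy => hy.2.2) ?_
      intro y hy hyP
      by_contra hcon
      exact hyP ⟨hy, (not_le.1 hcon).le⟩
    have hHc := card_heavy h (T (i + 1))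
    have e1 : {v | c v = 0}.ncard ≤ H.ncard + (S.ncard + W.ncard) :=
      (Set.ncard_le_ncard hsub (Set.toFinite _)).trans
        ((Set.ncard_union_le _ _).trans (Nat.add_le_add_left (Set.ncard_union_le _ _) _))
    have e2 : W.ncard ≤ B (T i) * (H.ncard + 1) * D1 * T i :=
      hW.trans (Nat.mul_le_mul_right _ (Nat.mul_le_mul_right _ hκ2))
    have r1 : ({v | c v = 0}.ncard : ℝ) ≤ (H.ncard : ℝ) + ((S.ncard : ℝ) + (W.ncard : ℝ)) := by
      exact_mod_cast e1
    have r2 : (W.ncard : ℝ) ≤ (B (T i) : ℝ) * ((H.ncard : ℝ) + 1) * D1 * T i := by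
      exact_mod_cast e2
    have r3 : (H.ncard : ℝ) * T (i + 1) ≤ D1 * (Nat.card V : ℝ) := by
      exact_mod_cast hHc
    have r4 : (S.ncard : ℝ) * I ≤ D1 * (Nat.card V : ℝ) := by
      exact_mod_cast hS
    have r5 := hT2 i
    have r6 := hn0 i hi
    have hHn : (0 : ℝ) ≤ (H.ncard : ℝ) := Nat.cast_nonneg _
    have hSn : (0 : ℝ) ≤ (S.ncard : ℝ) := Nat.cast_nonneg _
    have s1 : 3 * ((H.ncard : ℝ) * (1 + B (T i) * D1 * T i)) ≤ ε * Nat.card V := by
      have t1 : (H.ncard : ℝ) * (3 * D1 * (1 + B (T i) * D1 * T i)) ≤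
          (H.ncard : ℝ) * (ε * T (i + 1)) := mul_le_mul_of_nonneg_left r5 hHn
      have t2 : ε * ((H.ncard : ℝ) * T (i + 1)) ≤ ε * (D1 * (Nat.card V : ℝ)) :=
        mul_le_mul_of_nonneg_left r3 hε.le
      have t3 : (D1 : ℝ) * (3 * ((H.ncard : ℝ) * (1 + B (T i) * D1 * T i))) ≤
          (D1 : ℝ) * (ε * Nat.card V) := by
        linarith
      exact le_of_mul_le_mul_left t3 hD1p
    have s2 : 3 * (S.ncard : ℝ) ≤ ε * Nat.card V := by
      have t1 : (S.ncard : ℝ) * (3 * D1) ≤ (S.ncard : ℝ) * (ε * I) :=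
        mul_le_mul_of_nonneg_left hI hSn
      have t2 : ε * ((S.ncard : ℝ) * I) ≤ ε * (D1 * (Nat.card V : ℝ)) :=
        mul_le_mul_of_nonneg_left r4 hε.le
      have t3 : (D1 : ℝ) * (3 * (S.ncard : ℝ)) ≤ (D1 : ℝ) * (ε * Nat.card V) := by
        linarith
      exact le_of_mul_le_mul_left t3 hD1p
    have s3 : 3 * ((B (T i) : ℝ) * D1 * T i) ≤ ε * Nat.card V :=
      r6.trans (mul_le_mul_of_nonneg_left hn' hε.le)
    have s4 : (B (T i) : ℝ) * ((H.ncard : ℝ) + 1) * D1 * T i + (H.ncard : ℝ) =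
        (H.ncard : ℝ) * (1 + B (T i) * D1 * T i) + (B (T i) : ℝ) * D1 * T i := by ring
    linarith
  · intro j hj
    rcases Set.eq_empty_or_nonempty {v | c v = j} with h1 | ⟨u, hu⟩
    · rw [h1, Set.ncard_empty]
      exact Nat.zero_le _
    · have hu' : c u = j := hu
      have h2 : c u ≠ 0 := by
        rw [hu']
        exact hj
      obtain ⟨y, hy, hyu⟩ := (hc0 u).1 h2
      have h3 : {v | c v = j} = {x | le y x} := by
        ext v
        rw [← hu']
        exact ⟨fun hv => (hc u v y hy hyu).1 (Eq.symm hv),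
          fun hv => ((hc u v y hy hyu).2 hv).symm⟩
      rw [h3]
      exact hy.1.2.2.trans (hT hi.le)

end H46.CY
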