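import Pool.Agent.H46.CY.Lay
import Pool.Agent.H46.CY.Cnt2
import Pool.Agent.H46.CY.Tmpl
import Pool.Agent.H46.CY.Low
import Pool.Agent.H46.CY.Pos

/-!
# CY.Fin : the limit
-/

namespace H46.CY

open Pool.Agent.H3.LC Filter Topology

private theorem isCyc_mono {V : Type} {G G' : SimpleGraph V} (h : G' ≤ G) {m : ℕ} {f : ZMod m → V}
    (hf : IsCyc G' f) : IsCyc G f :=
  ⟨hf.1, fun i => h (hf.2 i)⟩

private theorem isL_mono {V : Type} {G G' : SimpleGraph V} (h : G' ≤ G) {L : Finset ℕ}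
    (hG : IsLCycleGraph L G) : IsLCycleGraph L G' := by
  rw [isLCycle_iff] at hG ⊢
  intro m f hm hf
  exact hG m f hm (isCyc_mono h hf)

private theorem noEven_of {V : Type} {G : SimpleGraph V} {L : Finset ℕ} {l : ℕ}
    (hG : IsLCycleGraph L G) (hev : ∀ x ∈ L, Even x → 2 * l ≤ x) : NoEven G l := by
  rw [isLCycle_iff] at hG
  intro m f hm hf he
  exact hev m (hG m f hm hf) he

private theorem len_of {V : Type} {G : SimpleGraph V} {L : Finset ℕ} {N : ℕ}
    (hG : IsLCycleGraph L G) (hmax : ∀ x ∈ L, x < N) (m : ℕ) (f : ZMod m → V) (hm : 3 ≤ m)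
    (hf : IsCyc G f) : m < N := by
  rw [isLCycle_iff] at hG
  exact hmax m (hG m f hm hf)

private theorem dcyc_empty {V : Type} {G : SimpleGraph V} {c : V → ℕ} {d : ℕ} (hd : 1 ≤ d)
    (hc : ∀ v, c v = 0) : dcyc d G c = ∅ := by
  ext E
  simp only [dcyc, Set.mem_ofPred_eq, Set.mem_empty_iff_false, iff_false, not_and, not_le]
  intro _
  have : {i | i ≠ 0 ∧ ∃ v, c v = i ∧ ∃ e ∈ E, v ∈ e} = (∅ : Set ℕ) := by
    ext i
    simp only [Set.mem_ofPred_eq, Set.mem_empty_iff_false, iff_false, not_and]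
    rintro hi ⟨v, hv, -⟩
    exact hi (by rw [← hv, hc v])
  rw [this, Set.ncard_empty]
  exact hd

/-- upper bound for the number of cycles -/
theorem cMax_bound {L : Finset ℕ} {l d : ℕ} (hl : 2 ≤ l) (hd : 1 ≤ d)
    (hev : ∀ x ∈ L, Even x → 2 * l ≤ x) (hmax : ∀ x ∈ L, x < (d + 1) * l) :
    ∃ C : ℝ, ∀ n : ℕ, (cMax L n : ℝ) ≤ C * (n : ℝ) ^ d := by
  obtain ⟨D, hD⟩ := exists_elim ((d + 1) * l) (ε := 1 / 2) (by norm_num)
  obtain ⟨C, hC⟩ := few_bad_cycles D l d hl hd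
  refine ⟨2 * C, fun n => ?_⟩
  obtain ⟨G, hG, hn⟩ := exists_cMax L n
  obtain ⟨G', le, hGG, hE, hcard⟩ := hD (Fin n) G (fun m f hm hf => (len_of hG hmax m f hm hf).le)
  have hG' := isL_mono hGG hG
  have h1 := hC (Fin n) G' le hE (noEven_of hG' hev) (len_of hG' hmax) (fun _ => 0) n 0 (by
    simpa using Set.ncard_le_card (Set.univ : Set (Fin n))) (by
    intro i hi
    have : {v : Fin n | (0 : ℕ) = i} = ∅ := by
      ext v
      simp only [Set.mem_ofPred_eq, Set.mem_empty_iff_false, iff_false]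
      exact fun h => hi h.symm
    rw [this, Set.ncard_empty])
  rw [dcyc_empty hd (fun _ => rfl), Set.ncard_empty, zero_add, add_zero, Nat.card_eq_fintype_card,
    Fintype.card_fin] at h1
  have h2 : n * n ^ (d - 1) = n ^ d := by
    rw [← pow_succ']
    congr 1
    omega
  rw [h2] at h1
  have h3 : ((cycles G').ncard : ℝ) ≤ C * (n : ℝ) ^ d := by exact_mod_cast h1
  rw [hn] at hcard
  nlinarith [hcard, h3]

/-- the set of the values of the valid templates -/
private def vals (L : Finset ℕ) (d : ℕ) : Set ℝ :=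
  {r | ∃ (N : ℕ) (G : SimpleGraph (Fin N)) (c : Fin N → ℕ), Compat G c ∧
    (∀ M, IsLCycleGraph L (blow G c M)) ∧
    r = ((dcyc d G c).ncard : ℝ) / ({v | c v ≠ 0}.ncard : ℝ) ^ d}

private theorem vals_nonempty (L : Finset ℕ) {d : ℕ} (hd : 1 ≤ d) : (0 : ℝ) ∈ vals L d := by
  refine ⟨0, ⊥, fun _ => 0, ?_, ?_, ?_⟩
  · intro u
    exact u.elim0
  · intro M
    rw [isLCycle_iff]
    intro m f _ _
    exact (f 0).1.1.elim0
  · rw [dcyc_empty hd (fun _ => rfl)]
    simp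

/-- lower bound for `c(L, n)` from a template -/
private theorem low_nat {L : Finset ℕ} {d : ℕ} {N : ℕ} {G : SimpleGraph (Fin N)} {c : Fin N → ℕ}
    (hc : Compat G c) (hv : ∀ M, IsLCycleGraph L (blow G c M)) (q n : ℕ) (hq : 1 ≤ q)
    (hn : {v | c v = 0}.ncard + {v | c v ≠ 0}.ncard * q ≤ n) :
    (dcyc d G c).ncard * q ^ d ≤ cMax L n := by
  classical
  obtain ⟨M, rfl⟩ : ∃ M, q = M + 1 := ⟨q - 1, by omega⟩
  have h1 := blow_count hc d M
  have : Fintype (BV c M) := Fintype.ofFinite _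
  have h2 : Fintype.card (BV c M) ≤ n := by
    rw [← Nat.card_eq_fintype_card, card_BV]
    exact hn
  exact h1.trans (ncard_le_cMax h2 (hv M))

private theorem vals_bdd {L : Finset ℕ} {l d : ℕ} (hl : 2 ≤ l) (hd : 1 ≤ d)
    (hev : ∀ x ∈ L, Even x → 2 * l ≤ x) (hmax : ∀ x ∈ L, x < (d + 1) * l) :
    BddAbove (vals L d) := by
  obtain ⟨C, hC⟩ := cMax_bound hl hd hev hmax
  refine ⟨max 0 (C * 2 ^ d), ?_⟩
  rintro r ⟨N, G, c, hc, hv, rfl⟩
  rcases Nat.eq_zero_or_pos {v | c v ≠ 0}.ncard with hp | hp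
  · rw [hp]
    have : ((0 : ℕ) : ℝ) ^ d = 0 := by
      rw [Nat.cast_zero, zero_pow (by omega)]
    rw [this, div_zero]
    exact le_max_left _ _
  · set h := {v | c v = 0}.ncard with hh
    set p := {v | c v ≠ 0}.ncard with hpp
    have h1 := low_nat (d := d) hc hv (h + 1) (2 * (p * (h + 1))) (by omega) (by
      rw [← hh, ← hpp]
      have : h ≤ p * (h + 1) := by nlinarith
      omega)
    have h2 := hC (2 * (p * (h + 1)))
    have h3 : ((dcyc d G c).ncard : ℝ) * ((h : ℝ) + 1) ^ d ≤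
        C * 2 ^ d * (p : ℝ) ^ d * ((h : ℝ) + 1) ^ d := by
      calc ((dcyc d G c).ncard : ℝ) * ((h : ℝ) + 1) ^ d ≤ (cMax L (2 * (p * (h + 1))) : ℝ) := by
            exact_mod_cast h1
        _ ≤ C * ((2 * (p * (h + 1)) : ℕ) : ℝ) ^ d := h2
        _ = C * 2 ^ d * (p : ℝ) ^ d * ((h : ℝ) + 1) ^ d := by
            push_cast
            rw [mul_pow, mul_pow]
            ring
    have h4 : (0 : ℝ) < ((h : ℝ) + 1) ^ d := by positivity
    have h5 := le_of_mul_le_mul_right h3 h4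
    have h6 : (0 : ℝ) < (p : ℝ) ^ d := by
      have : (0 : ℝ) < p := by exact_mod_cast hp
      positivity
    rw [div_le_iff₀ h6]
    calc ((dcyc d G c).ncard : ℝ) ≤ C * 2 ^ d * (p : ℝ) ^ d := h5
      _ ≤ max 0 (C * 2 ^ d) * (p : ℝ) ^ d :=
          mul_le_mul_of_nonneg_right (le_max_right _ _) h6.le

private theorem Gam_eq (L : Finset ℕ) (d : ℕ) : Gam L d = sSup (vals L d) := rfl

private theorem Gam_nonneg {L : Finset ℕ} {l d : ℕ} (hl : 2 ≤ l) (hd : 1 ≤ d)
    (hev : ∀ x ∈ L, Even x → 2 * l ≤ x) (hmax : ∀ x ∈ L, x < (d + 1) * l) : 0 ≤ Gam L d :=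
  le_csSup (vals_bdd hl hd hev hmax) (vals_nonempty L hd)

private theorem low_lim {L : Finset ℕ} {d : ℕ} (hd : 1 ≤ d) {r : ℝ} (hr : r ∈ vals L d) {ε : ℝ}
    (hε : 0 < ε) : ∀ᶠ n : ℕ in atTop, r - ε ≤ (cMax L n : ℝ) / (n : ℝ) ^ d := by
  obtain ⟨N, G, c, hc, hv, rfl⟩ := hr
  rcases Nat.eq_zero_or_pos {v | c v ≠ 0}.ncard with hp | hp
  · rw [hp]
    have : ((0 : ℕ) : ℝ) ^ d = 0 := by
      rw [Nat.cast_zero, zero_pow (by omega)]
    rw [this, div_zero]
    refine Filter.Eventually.of_forall fun n => ?_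
    have : (0 : ℝ) ≤ (cMax L n : ℝ) / (n : ℝ) ^ d := by positivity
    linarith
  · set h := {v | c v = 0}.ncard with hh
    set p := {v | c v ≠ 0}.ncard with hpp
    have hp' : (0 : ℝ) < p := by exact_mod_cast hp
    set K : ℝ := ((dcyc d G c).ncard : ℝ) with hK
    have hK0 : 0 ≤ K := by positivity
    -- the lower bound tends to K / p ^ d
    have hlim : Tendsto (fun n : ℕ => K * ((((n : ℝ) - h - p) / p) / n) ^ d) atTop
        (𝓝 (K * (1 / p) ^ d)) := by
      apply Tendsto.const_mul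
      apply Tendsto.pow
      have h1 : Tendsto (fun n : ℕ => (1 / (p : ℝ)) - ((h : ℝ) + p) / p * (1 / (n : ℝ))) atTop
          (𝓝 (1 / (p : ℝ) - ((h : ℝ) + p) / p * 0)) := by
        apply Tendsto.sub tendsto_const_nhds
        apply Tendsto.const_mul
        exact tendsto_one_div_atTop_nhds_zero_nat
      rw [mul_zero, sub_zero] at h1
      refine h1.congr' ?_
      filter_upwards [eventually_gt_atTop 0] with n hn
      have hn' : (0 : ℝ) < n := by exact_mod_cast hn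
      field_simp
      ring
    have h2 : K * (1 / (p : ℝ)) ^ d = K / (p : ℝ) ^ d := by
      rw [one_div, inv_pow]
      rfl
    rw [h2] at hlim
    have h3 := hlim.eventually (lt_mem_nhds (show K / (p : ℝ) ^ d - ε < K / (p : ℝ) ^ d by linarith))
    filter_upwards [h3, eventually_ge_atTop (h + p + 1)] with n h4 hn
    have hn' : (0 : ℝ) < n := by
      have : 0 < n := by omega
      exact_mod_cast this
    set q := (n - h) / p with hq
    have hq1 : 1 ≤ q := by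
      rw [hq, Nat.le_div_iff_mul_le hp]
      omega
    have hq2 : h + p * q ≤ n := by
      have := Nat.mul_div_le (n - h) p
      rw [← hq] at this
      omega
    have h5 := low_nat (d := d) hc hv q n hq1 hq2
    have h6 : ((n : ℝ) - h - p) / p ≤ q := by
      rw [div_le_iff₀ hp']
      have h7 : n - h < p * (q + 1) := by
        have := Nat.lt_mul_div_succ (n - h) hp
        rw [← hq] at this
        exact this
      have h8 : n < h + p * (q + 1) := by omega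
      have h9 : (n : ℝ) < h + p * (q + 1) := by exact_mod_cast h8
      nlinarith
    have h7 : 0 ≤ ((n : ℝ) - h - p) / p := by
      apply div_nonneg _ hp'.le
      have : ((h + p + 1 : ℕ) : ℝ) ≤ n := by exact_mod_cast hn
      push_cast at this
      linarith
    have h8 : K * ((((n : ℝ) - h - p) / p) / n) ^ d ≤ (cMax L n : ℝ) / (n : ℝ) ^ d := by
      rw [div_pow, ← mul_div_assoc]
      apply div_le_div_of_nonneg_right _ (by positivity)
      calc K * (((n : ℝ) - h - p) / p) ^ d ≤ K * (q : ℝ) ^ d :=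
            mul_le_mul_of_nonneg_left (pow_le_pow_left₀ h7 h6 d) hK0
        _ ≤ (cMax L n : ℝ) := by
            rw [hK]
            exact_mod_cast h5
    linarith

private theorem up_lim {L : Finset ℕ} {l d : ℕ} (hl : 2 ≤ l) (hd : 1 ≤ d)
    (hev : ∀ x ∈ L, Even x → 2 * l ≤ x) (hmax : ∀ x ∈ L, x < (d + 1) * l) {ε : ℝ} (hε : 0 < ε) :
    ∀ᶠ n : ℕ in atTop, (cMax L n : ℝ) / (n : ℝ) ^ d ≤ Gam L d + ε := by
  obtain ⟨C0, hC0⟩ := cMax_bound hl hd hev hmax
  set ε1 : ℝ := ε / (3 * (|C0| + 1)) with hε1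
  have hε1p : 0 < ε1 := by positivity
  obtain ⟨D, hD⟩ := exists_elim ((d + 1) * l) hε1p
  obtain ⟨C, hC⟩ := few_bad_cycles D l d hl hd
  set ε2 : ℝ := ε / (3 * ((C : ℝ) + 1)) with hε2
  have hε2p : 0 < ε2 := by positivity
  obtain ⟨M, n0, hT⟩ := exists_template D hε2p
  obtain ⟨n1, hn1⟩ := exists_nat_gt (3 * ((C : ℝ) * M) / ε)
  filter_upwards [eventually_ge_atTop (max (max n0 n1) 1)] with n hn
  have hn0 : n0 ≤ n := (le_max_left _ _).trans ((le_max_left _ _).trans hn)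
  have hn1' : n1 ≤ n := (le_max_right _ _).trans ((le_max_left _ _).trans hn)
  have hn2 : 1 ≤ n := (le_max_right _ _).trans hn
  have hnp : (0 : ℝ) < n := by exact_mod_cast hn2
  obtain ⟨G, hG, hcn⟩ := exists_cMax L n
  obtain ⟨G', le, hGG, hE, hcard⟩ := hD (Fin n) G (fun m f hm hf => (len_of hG hmax m f hm hf).le)
  have hG' := isL_mono hGG hG
  obtain ⟨c, hc, hv, hw, hM⟩ := hT (Fin n) G' le L hE hG' (by
    rw [Nat.card_eq_fintype_card, Fintype.card_fin]
    exact hn0)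
  have h1 := hC (Fin n) G' le hE (noEven_of hG' hev) (len_of hG' hmax) c _ M le_rfl hM
  rw [Nat.card_eq_fintype_card, Fintype.card_fin] at h1 hw
  have hr : ((dcyc d G' c).ncard : ℝ) / ({v | c v ≠ 0}.ncard : ℝ) ^ d ≤ Gam L d :=
    le_csSup (vals_bdd hl hd hev hmax) ⟨n, G', c, hc, hv, rfl⟩
  have hG0 : 0 ≤ Gam L d := Gam_nonneg hl hd hev hmax
  have hdc : ((dcyc d G' c).ncard : ℝ) ≤ Gam L d * (n : ℝ) ^ d := by
    rcases Nat.eq_zero_or_pos {v | c v ≠ 0}.ncard with hp | hp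
    · have : ∀ v, c v = 0 := by
        intro v
        by_contra hcv
        rw [Set.ncard_eq_zero (Set.toFinite _)] at hp
        have : v ∈ {v | c v ≠ 0} := hcv
        rw [hp] at this
        exact this
      rw [dcyc_empty hd this, Set.ncard_empty, Nat.cast_zero]
      positivity
    · have hp' : (0 : ℝ) < {v | c v ≠ 0}.ncard := by exact_mod_cast hp
      rw [div_le_iff₀ (by positivity)] at hr
      refine hr.trans (mul_le_mul_of_nonneg_left ?_ hG0)
      apply pow_le_pow_left₀ hp'.le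
      have : {v | c v ≠ 0}.ncard ≤ n := by
        have := Set.ncard_le_card {v | c v ≠ 0}
        rwa [Nat.card_eq_fintype_card, Fintype.card_fin] at this
      exact_mod_cast this
  -- the number of cycles of G'
  have h2 : ((cycles G').ncard : ℝ) ≤ Gam L d * (n : ℝ) ^ d +
      C * ((ε2 * n + M) * (n : ℝ) ^ (d - 1)) := by
    have h3 : ((cycles G').ncard : ℝ) ≤ ((dcyc d G' c).ncard : ℝ) +
        C * (((({v | c v = 0}.ncard : ℕ) : ℝ) + M) * (n : ℝ) ^ (d - 1)) := by exact_mod_cast h1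
    refine h3.trans (add_le_add hdc ?_)
    apply mul_le_mul_of_nonneg_left _ (by positivity)
    apply mul_le_mul_of_nonneg_right _ (by positivity)
    linarith
  have hpow : (n : ℝ) ^ d = n * (n : ℝ) ^ (d - 1) := by
    rw [← pow_succ']
    congr 1
    omega
  have hq : (0 : ℝ) < (n : ℝ) ^ (d - 1) := by positivity
  have h4 : (C : ℝ) * ((ε2 * n + M) * (n : ℝ) ^ (d - 1)) ≤ (2 * ε / 3) * (n : ℝ) ^ d := by
    rw [hpow]
    have h5 : (C : ℝ) * ε2 ≤ ε / 3 := by
      rw [hε2, ← mul_div_assoc, div_le_div_iff₀ (by positivity) (by norm_num)]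
      nlinarith [hε]
    have h6 : (C : ℝ) * M ≤ ε / 3 * n := by
      have h7 : 3 * ((C : ℝ) * M) / ε < n := by
        refine hn1.trans_le ?_
        exact_mod_cast hn1'
      rw [div_lt_iff₀ hε] at h7
      linarith
    have h8 : (C : ℝ) * (ε2 * n + M) ≤ 2 * ε / 3 * n := by
      nlinarith
    calc (C : ℝ) * ((ε2 * n + M) * (n : ℝ) ^ (d - 1))
        = (C : ℝ) * (ε2 * n + M) * (n : ℝ) ^ (d - 1) := by ring
      _ ≤ (2 * ε / 3 * n) * (n : ℝ) ^ (d - 1) := mul_le_mul_of_nonneg_right h8 hq.le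
      _ = 2 * ε / 3 * (n * (n : ℝ) ^ (d - 1)) := by ring
  have h5 : ε1 * (cMax L n : ℝ) ≤ ε / 3 * (n : ℝ) ^ d := by
    have h6 : (cMax L n : ℝ) ≤ |C0| * (n : ℝ) ^ d :=
      (hC0 n).trans (mul_le_mul_of_nonneg_right (le_abs_self _) (by positivity))
    have h7 : ε1 * |C0| ≤ ε / 3 := by
      rw [hε1, div_mul_eq_mul_div, div_le_div_iff₀ (by positivity) (by norm_num)]
      nlinarith [hε, abs_nonneg C0]
    calc ε1 * (cMax L n : ℝ) ≤ ε1 * (|C0| * (n : ℝ) ^ d) :=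
          mul_le_mul_of_nonneg_left h6 hε1p.le
      _ = (ε1 * |C0|) * (n : ℝ) ^ d := by ring
      _ ≤ ε / 3 * (n : ℝ) ^ d := mul_le_mul_of_nonneg_right h7 (by positivity)
  rw [hcn] at hcard
  rw [div_le_iff₀ (by positivity)]
  have h6 : (1 - ε1) * (cMax L n : ℝ) ≤ Gam L d * (n : ℝ) ^ d + (2 * ε / 3) * (n : ℝ) ^ d :=
    hcard.trans (h2.trans (add_le_add le_rfl h4))
  nlinarith

theorem tendsto_Gam {L : Finset ℕ} {l d : ℕ} (hl : 2 ≤ l) (hd : 1 ≤ d)
    (hev : ∀ x ∈ L, Even x → 2 * l ≤ x) (hmax : ∀ x ∈ L, x < (d + 1) * l) :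
    Tendsto (fun n : ℕ => (cMax L n : ℝ) / (n : ℝ) ^ d) atTop (𝓝 (Gam L d)) := by
  rw [Metric.tendsto_atTop']
  intro ε hε
  have hlt : Gam L d - ε / 3 < sSup (vals L d) := by
    rw [← Gam_eq]
    linarith
  obtain ⟨r, hr, hr2⟩ := exists_lt_of_lt_csSup ⟨0, vals_nonempty L hd⟩ hlt
  have h1 := low_lim hd hr (show (0 : ℝ) < ε / 3 by positivity)
  have h2 := up_lim hl hd hev hmax (show (0 : ℝ) < ε / 3 by positivity)
  obtain ⟨n0, hn0⟩ := Filter.eventually_atTop.1 (h1.and h2)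
  refine ⟨n0, fun n hn => ?_⟩
  obtain ⟨h3, h4⟩ := hn0 n hn.le
  rw [Real.dist_eq, abs_lt]
  constructor
  · linarith
  · linarith

theorem Gam_pos {L : Finset ℕ} {l d k : ℕ} (hl : 2 ≤ l) (hd : 2 ≤ d) (h2 : 2 * l ∈ L) (hk : k ∈ L)
    (hdk : d * l ≤ k) (hev : ∀ x ∈ L, Even x → 2 * l ≤ x) (hmax : ∀ x ∈ L, x < (d + 1) * l) :
    1 / ((d : ℝ) * (l - 1)) ^ d ≤ Gam L d := by
  have h0 : 0 < k := lt_of_lt_of_le (by positivity) hdk
  obtain ⟨k', rfl⟩ : ∃ k', k = k' + 1 := ⟨k - 1, by omega⟩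
  have hfin : Finite (Set (Set (Sym2 (ZMod (k' + 1))))) := inferInstance
  have h1 : 1 ≤ (dcyc d (neck (k' + 1)) (neckc (k' + 1) l d)).ncard := by
    have : 0 < (dcyc d (neck (k' + 1)) (neckc (k' + 1) l d)).ncard :=
      (Set.ncard_pos (Set.toFinite _)).2 (neck_dcyc hl hd hdk)
    exact this
  have h3 : ((dcyc d (neck (k' + 1)) (neckc (k' + 1) l d)).ncard : ℝ) /
      ({v | neckc (k' + 1) l d v ≠ 0}.ncard : ℝ) ^ d ≤ Gam L d := by
    refine le_csSup (vals_bdd hl (by omega) hev hmax) ?_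
    exact ⟨k' + 1, neck (k' + 1), neckc (k' + 1) l d, neck_compat hl hd hdk,
      neck_blow hl hd hdk h2 hk, rfl⟩
  refine le_trans ?_ h3
  rw [neck_card hl hd hdk]
  have h4 : ((d * (l - 1) : ℕ) : ℝ) = (d : ℝ) * (l - 1) := by
    push_cast [Nat.cast_sub (show 1 ≤ l by omega)]
    ring
  rw [h4]
  apply div_le_div_of_nonneg_right
  · exact_mod_cast h1
  · have : (0 : ℝ) ≤ (d : ℝ) * (l - 1) := by
      have : (1 : ℝ) ≤ l := by exact_mod_cast (show 1 ≤ l by omega)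
      have : (0 : ℝ) ≤ (l : ℝ) - 1 := by linarith
      positivity
    positivity

end H46.CY
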