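import Pool.Agent.H46.CY.Defs

/-!
# CY.Fle : the order of a rooted forest (about 100 lines)

`fle_dep`: by induction on `j`: for `j ≤ dep v` one has `dep (par^[j] v) = dep v - j` (use `Function.iterate_succ_apply'`). The others follow: `fle u v ↔ dep u ≤ dep v ∧ par^[dep v - dep u] v = u`. `fle_anti`: equal depths, `j = 0`.
`fle_chain`: `u = par^[i] w`, `v = par^[j] w`, for `i ≤ j` `v = par^[j - i] u`. `adj_dep`: let `j = dep v - dep u`; if `j ≤ 1` nothing to do; if `j ≥ 2` the map `f : ZMod (j + 1) → V`, `f i = par^[i.val] v`,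
is injective (depths) with adjacent consecutive members (`IsForest`, and `f j = u` is adjacent to `f 0 = v`), so `IsCyc G f` and `j + 1 ≤ k`.
-/

namespace H46.CY

open Pool.Agent.H3.LC

variable {V : Type} {G : SimpleGraph V} {par : V → V} {dep : V → ℕ}

theorem fle_refl (v : V) : fle par dep v v := ⟨0, Nat.zero_le _, rfl⟩

private theorem dep_iter (h : IsForest G par dep) (v : V) :
    ∀ j, j ≤ dep v → dep (par^[j] v) = dep v - j := by
  intro j
  induction j with
  | zero => intro _; simp
  | succ j ih =>
    intro hj
    have h1 := ih (by omega)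
    rw [Function.iterate_succ_apply']
    rcases h (par^[j] v) with h0 | ⟨_, h2⟩
    · omega
    · omega

private theorem iter_sub {i j : ℕ} (hij : i ≤ j) (w : V) :
    par^[j - i] (par^[i] w) = par^[j] w := by
  rw [← Function.iterate_add_apply, Nat.sub_add_cancel hij]

theorem fle_dep (h : IsForest G par dep) {u v : V} (huv : fle par dep u v) :
    dep u ≤ dep v ∧ par^[dep v - dep u] v = u := by
  obtain ⟨j, hj, rfl⟩ := huv
  have h1 := dep_iter h v j hj
  refine ⟨by omega, ?_⟩
  rw [h1, Nat.sub_sub_self hj]

theorem fle_trans (h : IsForest G par dep) {u v w : V} (huv : fle par dep u v)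
    (hvw : fle par dep v w) : fle par dep u w := by
  obtain ⟨j, hj, rfl⟩ := hvw
  obtain ⟨i, hi, rfl⟩ := huv
  have h1 := dep_iter h w j hj
  exact ⟨i + j, by omega, Function.iterate_add_apply _ _ _ _⟩

theorem fle_anti (h : IsForest G par dep) {u v : V} (huv : fle par dep u v)
    (hvu : fle par dep v u) : u = v := by
  have h1 := fle_dep h huv
  have h2 := fle_dep h hvu
  have h3 : dep v - dep u = 0 := by omega
  have h4 := h1.2
  rw [h3] at h4
  exact h4.symm

theorem fle_chain (h : IsForest G par dep) {u v w : V} (huw : fle par dep u w)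
    (hvw : fle par dep v w) : fle par dep u v ∨ fle par dep v u := by
  obtain ⟨i, hi, rfl⟩ := huw
  obtain ⟨j, hj, rfl⟩ := hvw
  have h1 := dep_iter h w i hi
  have h2 := dep_iter h w j hj
  rcases le_total i j with hij | hij
  · exact Or.inr ⟨j - i, by omega, iter_sub hij w⟩
  · exact Or.inl ⟨i - j, by omega, iter_sub hij w⟩

theorem adj_dep (h : IsForest G par dep) {k : ℕ}
    (hk : ∀ (m : ℕ) (f : ZMod m → V), 3 ≤ m → IsCyc G f → m ≤ k) {u v : V}
    (huv : fle par dep u v) (ha : G.Adj u v) : dep v ≤ dep u + k + 1 := by
  by_contra hcon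
  obtain ⟨hle, hpar⟩ := fle_dep h huv
  obtain ⟨j, hj⟩ : ∃ j, j = dep v - dep u := ⟨_, rfl⟩
  rw [← hj] at hpar
  have hcyc : IsCyc G (fun i : ZMod (j + 1) => par^[i.val] v) := by
    have hlt : ∀ i : ZMod (j + 1), i.val < j + 1 := fun i => ZMod.val_lt i
    constructor
    · intro a b hab
      have hab' : par^[a.val] v = par^[b.val] v := hab
      have h1 := hlt a
      have h2 := hlt b
      have h3 := dep_iter h v a.val (by omega)
      have h4 := dep_iter h v b.val (by omega)
      rw [hab', h4] at h3
      exact ZMod.val_injective _ (by omega)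
    · intro i
      show G.Adj (par^[i.val] v) (par^[(i + 1).val] v)
      have h1 := hlt i
      by_cases hi : i.val < j
      · have h2 : (i + 1).val = i.val + 1 := by
          have h4 : ((i.val : ℕ) : ZMod (j + 1)) = i := ZMod.natCast_zmod_val i
          have h5 : i + 1 = ((i.val + 1 : ℕ) : ZMod (j + 1)) := by
            push_cast
            rw [h4]
          rw [h5, ZMod.val_natCast_of_lt (by omega)]
        rw [h2, Function.iterate_succ_apply']
        have h3 := dep_iter h v i.val (by omega)
        rcases h (par^[i.val] v) with h0 | ⟨h4, _⟩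
        · omega
        · exact h4
      · have h2 : i.val = j := by omega
        have h3 : i + 1 = 0 := by
          have h4 : ((i.val : ℕ) : ZMod (j + 1)) = i := ZMod.natCast_zmod_val i
          rw [← h4, h2]
          have h5 : ((j + 1 : ℕ) : ZMod (j + 1)) = 0 := ZMod.natCast_self _
          rw [← h5]
          push_cast
          rfl
        rw [h3, h2, ZMod.val_zero, hpar]
        exact ha
  have h5 := hk (j + 1) _ (by omega) hcyc
  omega

end H46.CY
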