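import Pool.Agent.H46.CY.Defs

/-!
# CY.Frst : a rooted forest in which adjacent vertices are comparable (about 100 lines)

Call `(par, dep)` with `IsForest G par dep` a forest. `dep = 0`, `par = id` is one. First show: in a forest every `dep v < Nat.card V` (the points `par^[j] v`, `j ≤ dep v`, have the depths `dep v - j`, so they are different).
So the total depth `∑ v, dep v` is bounded, take a forest of maximal total depth (for example `Nat.findGreatest`, or a well-founded argument). Let `G.Adj u v` and suppose neither `fle u v` nor `fle v u`;
by symmetry `dep v ≤ dep u`. Change the parent of `v` to `u` and add `δ = dep u + 1 - dep v ≥ 1` to the depths of all `w` with `fle v w`: new `par' = Function.update par v u`,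
`dep' w = if fle par dep v w then dep w + δ else dep w`. This is a forest: for `w = v`: `u` is not below `v`, so `dep' u = dep u` and `dep' v = dep u + 1`; for `w ≠ v` below `v` the parent `par w` is below `v` (from `par^[j] w = v` with
`j ≥ 1`, `j ≤ dep w`, `dep (par w) = dep w - 1`) and `dep w ≠ 0`; for `w` not below `v` with `dep w ≠ 0` the parent is not below `v`. The total depth is larger, contradiction.
-/

namespace H46.CY

open Pool.Agent.H3.LC

private theorem frst_dep {V : Type} {G : SimpleGraph V} {par : V → V} {dep : V → ℕ}
    (h : IsForest G par dep) (v : V) : ∀ j, j ≤ dep v → dep (par^[j] v) = dep v - j := by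
  intro j
  induction j with
  | zero => intro _; rfl
  | succ j ih =>
    intro hj
    have h1 := ih (by omega)
    rw [Function.iterate_succ_apply']
    rcases h (par^[j] v) with h2 | ⟨-, h2⟩
    · omega
    · omega

private theorem frst_lt {V : Type} [Finite V] {G : SimpleGraph V} {par : V → V} {dep : V → ℕ}
    (h : IsForest G par dep) (v : V) : dep v < Nat.card V := by
  have hinj : Function.Injective fun j : Fin (dep v + 1) => par^[j.val] v := by
    intro a b hab
    have ha := frst_dep h v a.val (by omega)
    have hb := frst_dep h v b.val (by omega)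
    simp only at hab
    rw [hab] at ha
    apply Fin.ext
    omega
  have := Nat.card_le_card_of_injective _ hinj
  rw [Nat.card_eq_fintype_card, Fintype.card_fin] at this
  omega

private theorem frst_step {V : Type} {G : SimpleGraph V} {par : V → V} {dep : V → ℕ}
    {v w : V} (hw : dep w = dep (par w) + 1) (hvw : v ≠ w) :
    fle par dep v w ↔ fle par dep v (par w) := by
  constructor
  · rintro ⟨j, hj, hj'⟩
    cases j with
    | zero => exact absurd hj'.symm hvw
    | succ i => exact ⟨i, by omega, by rw [← hj', Function.iterate_succ_apply]⟩
  · rintro ⟨i, hi, hi'⟩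
    exact ⟨i + 1, by omega, by rw [Function.iterate_succ_apply, hi']⟩

private theorem frst_better {V : Type} [Fintype V] {G : SimpleGraph V} {par : V → V} {dep : V → ℕ}
    (h : IsForest G par dep) {u v : V} (ha : G.Adj u v) (huv : dep v ≤ dep u)
    (hnot : ¬ fle par dep v u) :
    ∃ (par' : V → V) (dep' : V → ℕ), IsForest G par' dep' ∧ ∑ w, dep w < ∑ w, dep' w := by
  classical
  have hvv : fle par dep v v := ⟨0, Nat.zero_le _, rfl⟩
  refine ⟨Function.update par v u,
    fun w => if fle par dep v w then dep w + (dep u + 1 - dep v) else dep w, ?_, ?_⟩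
  · intro w
    by_cases hwv : w = v
    · subst hwv
      right
      simp only [Function.update_self, if_pos hvv, if_neg hnot]
      exact ⟨ha.symm, by omega⟩
    · simp only [Function.update_of_ne hwv]
      rcases h w with h0 | ⟨h1, h2⟩
      · left
        have : ¬ fle par dep v w := by
          rintro ⟨j, hj, hj'⟩
          have hj0 : j = 0 := by omega
          subst hj0
          exact hwv hj'
        rw [if_neg this]
        exact h0
      · right
        refine ⟨h1, ?_⟩
        have hst := frst_step (G := G) h2 (Ne.symm hwv)
        by_cases hf : fle par dep v w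
        · rw [if_pos hf, if_pos (hst.1 hf)]
          omega
        · rw [if_neg hf, if_neg fun h' => hf (hst.2 h')]
          exact h2
  · apply Finset.sum_lt_sum
    · intro w _
      split_ifs <;> omega
    · refine ⟨v, Finset.mem_univ _, ?_⟩
      rw [if_pos hvv]
      omega

theorem exists_forest {V : Type} [Finite V] (G : SimpleGraph V) :
    ∃ (par : V → V) (dep : V → ℕ), IsForest G par dep ∧
      ∀ u v, G.Adj u v → fle par dep u v ∨ fle par dep v u := by
  classical
  haveI := Fintype.ofFinite V
  set S : Set ℕ := {s | ∃ (par : V → V) (dep : V → ℕ), IsForest G par dep ∧ s = ∑ w, dep w}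
    with hS
  have hne : S.Nonempty := ⟨_, id, fun _ => 0, fun v => Or.inl rfl, rfl⟩
  have hbdd : BddAbove S := by
    refine ⟨Fintype.card V * Nat.card V, ?_⟩
    rintro s ⟨par, dep, hf, rfl⟩
    calc ∑ w, dep w ≤ ∑ _w : V, Nat.card V := Finset.sum_le_sum fun w _ => (frst_lt hf w).le
      _ = Fintype.card V * Nat.card V := by rw [Finset.sum_const, smul_eq_mul, Finset.card_univ]
  obtain ⟨par, dep, hf, hs⟩ := Nat.sSup_mem hne hbdd
  refine ⟨par, dep, hf, ?_⟩
  intro u v ha
  by_contra hcon
  rw [not_or] at hcon
  have key : ∀ u v, G.Adj u v → dep v ≤ dep u → ¬ fle par dep v u → False := by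
    intro u v ha huv hnot
    obtain ⟨par', dep', hf', hlt⟩ := frst_better hf ha huv hnot
    have : ∑ w, dep' w ≤ sSup S := le_csSup hbdd ⟨par', dep', hf', rfl⟩
    omega
  rcases le_total (dep v) (dep u) with h1 | h1
  · exact key u v ha h1 hcon.2
  · exact key v u ha.symm h1 hcon.1

end H46.CY
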