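import Pool.Agent.H46.CY.Defs

/-!
# CY.Min : a connected sequence has a smallest member (about 60 lines)

Induction on the list: the smallest member `r` of the tail `s'` (if it is not empty); the head `x` is adjacent to the head `y` of `s'`, `r ≤ y`. If `x ≤ y` then `x`, `r` are comparable (`chain`), the smaller one is the smallest member. If `y ≤ x`
then `r ≤ y ≤ x`. For a cyclic sequence use the list of its members `List.ofFn (fun j : Fin m => f j)` or a similar induction (for all `n : ℕ` there is `i ≤ n` such that `f i ≤ f j` for all `j ≤ n`, natural numbers cast to `ZMod m`).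
-/

namespace H46.CY

open Pool.Agent.H3.LC

variable {V : Type} {G : SimpleGraph V} {D : ℕ} {le : V → V → Prop}

theorem exists_min_list (h : IsElim G D le) (s : List V) (hs : s ≠ []) (hc : s.IsChain G.Adj) :
    ∃ r ∈ s, ∀ x ∈ s, le r x := by
  induction s with
  | nil => exact absurd rfl hs
  | cons x t ih =>
    cases t with
    | nil =>
      refine ⟨x, by simp, fun z hz => ?_⟩
      have : z = x := by simpa using hz
      rw [this]
      exact h.refl x
    | cons y u =>
      have hc' := List.isChain_cons_cons.1 hc
      obtain ⟨r, hr, hm⟩ := ih (by simp) hc'.2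
      have hry : le r y := hm y (by simp)
      rcases h.adj x y hc'.1 with h1 | h1
      · rcases h.chain x r y h1 hry with h2 | h2
        · refine ⟨x, by simp, fun z hz => ?_⟩
          rcases List.mem_cons.1 hz with rfl | hz
          · exact h.refl _
          · exact h.trans _ _ _ h2 (hm z hz)
        · refine ⟨r, List.mem_cons_of_mem _ hr, fun z hz => ?_⟩
          rcases List.mem_cons.1 hz with rfl | hz
          · exact h2
          · exact hm z hz
      · refine ⟨r, List.mem_cons_of_mem _ hr, fun z hz => ?_⟩
        rcases List.mem_cons.1 hz with rfl | hz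
        · exact h.trans _ _ _ hry h1
        · exact hm z hz

theorem exists_min_cyc (h : IsElim G D le) {m : ℕ} [NeZero m] (f : ZMod m → V)
    (hf : ∀ i, G.Adj (f i) (f (i + 1))) : ∃ i, ∀ j, le (f i) (f j) := by
  have key : ∀ n : ℕ, ∃ i : ℕ, ∀ j ≤ n, le (f (i : ZMod m)) (f (j : ZMod m)) := by
    intro n
    induction n with
    | zero =>
      refine ⟨0, fun j hj => ?_⟩
      have : j = 0 := by omega
      rw [this]
      exact h.refl _
    | succ n ih =>
      obtain ⟨i, hi⟩ := ih
      have ha := hf (n : ZMod m)
      rw [show ((n : ZMod m) + 1) = ((n + 1 : ℕ) : ZMod m) by push_cast; ring] at ha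
      have hin := hi n le_rfl
      rcases h.adj _ _ ha with h1 | h1
      · refine ⟨i, fun j hj => ?_⟩
        rcases Nat.lt_or_ge n j with h2 | h2
        · have : j = n + 1 := by omega
          rw [this]
          exact h.trans _ _ _ hin h1
        · exact hi j h2
      · rcases h.chain _ _ _ hin h1 with h2 | h2
        · refine ⟨i, fun j hj => ?_⟩
          rcases Nat.lt_or_ge n j with h3 | h3
          · have : j = n + 1 := by omega
            rw [this]
            exact h2
          · exact hi j h3
        · refine ⟨n + 1, fun j hj => ?_⟩
          rcases Nat.lt_or_ge n j with h3 | h3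
          · have : j = n + 1 := by omega
            rw [this]
            exact h.refl _
          · exact h.trans _ _ _ h2 (hi j h3)
  obtain ⟨i, hi⟩ := key m
  refine ⟨(i : ZMod m), fun j => ?_⟩
  have h1 := hi j.val (ZMod.val_lt j).le
  rwa [ZMod.natCast_zmod_val] at h1

end H46.CY
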