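import Pool.Agent.H46.CY.Defs

/-!
# CY.Pth : paths given by the lists of inner vertices (about 150 lines)

`pi_split`: a prefix and a suffix of the chain `a :: (s1 ++ r :: s2) ++ [b]`. `cyc_of_two`: the list `a :: s ++ b :: s'.reverse` has no repetition, `n = s.length + s'.length + 2` members, is a chain for `G.Adj`, and its last member is adjacent to `a`; `f i = (the list)[i.val]`.
`cutl f i` is the list `f (i + 1), f (i + 2), ..., f (i + m - 1)`: `pi_of_cyc` from the injectivity of `f` (the natural numbers `j < m` are different in `ZMod m`), `cutl_inj`: every element of `ZMod m` is `i` or `i + 1 + j` with `j < m - 1`.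
-/

namespace H46.CY

open Pool.Agent.H3.LC

variable {V : Type} {G : SimpleGraph V}

theorem pi_split {a b r : V} {s1 s2 : List V} (h : PI G a b (s1 ++ r :: s2)) :
    PI G a r s1 ∧ PI G r b s2 := by
  obtain ⟨h1, h2, h3, h4⟩ := h
  have e : a :: (s1 ++ r :: s2 ++ [b]) = (a :: s1) ++ r :: (s2 ++ [b]) := by simp
  rw [e, List.isChain_split] at h1
  rw [List.nodup_append] at h2
  obtain ⟨n1, n2, n3⟩ := h2
  rw [List.nodup_cons] at n2
  simp only [List.mem_append, List.mem_cons, not_or] at h3 h4
  refine ⟨⟨h1.1, n1, h3.1, fun hr => n3 r hr r (by simp) rfl⟩, ⟨h1.2, n2.2, n2.1, h4.2.2⟩⟩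

private theorem cyc_of_list {n : ℕ} [NeZero n] {a : V} {t : List V} (hn : (a :: t).length = n)
    (nd : (a :: t).Nodup) (hc : ((a :: t) ++ [a]).IsChain G.Adj) :
    ∃ f : ZMod n → V, IsCyc G f := by
  have hlt : ∀ i : ZMod n, i.val < (a :: t).length := fun i => by
    rw [hn]
    exact ZMod.val_lt i
  refine ⟨fun i => (a :: t)[i.val]'(hlt i), ?_, ?_⟩
  · intro i j hij
    exact ZMod.val_injective n ((List.Nodup.getElem_inj_iff nd).mp hij)
  · intro i
    rw [List.isChain_iff_getElem] at hc
    have hi := ZMod.val_lt i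
    have h1 := hc i.val (by
      rw [List.length_append, hn, List.length_singleton]
      omega)
    rw [List.getElem_append_left (hlt i)] at h1
    have hval : (i + 1).val = (i.val + 1) % n := by
      have := ZMod.val_add i ((1 : ℕ) : ZMod n)
      rw [Nat.cast_one] at this
      rw [this, ← Nat.cast_one, ZMod.val_natCast, Nat.add_mod_mod]
    have h2 : ((a :: t) ++ [a])[i.val + 1]'(by
        rw [List.length_append, hn, List.length_singleton]
        omega) = (a :: t)[(i + 1).val]'(hlt (i + 1)) := by
      rcases Nat.lt_or_ge (i.val + 1) n with hlt' | hge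
      · rw [List.getElem_append_left (by omega)]
        congr 1
        rw [hval, Nat.mod_eq_of_lt hlt']
      · have e1 : i.val + 1 = n := by omega
        have e2 : (i + 1).val = 0 := by rw [hval, e1, Nat.mod_self]
        rw [List.getElem_append_right (by omega)]
        simp [e2]
    rw [h2] at h1
    exact h1

theorem cyc_of_two {a b : V} {s s' : List V} (hab : a ≠ b) (h : PI G a b s) (h' : PI G a b s')
    (hd : ∀ x ∈ s, x ∉ s') (h1 : 1 ≤ s.length + s'.length) :
    ∃ f : ZMod (s.length + s'.length + 2) → V, IsCyc G f := by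
  have _ := h1
  obtain ⟨c1, c2, c3, c4⟩ := h
  obtain ⟨d1, d2, d3, d4⟩ := h'
  apply cyc_of_list (a := a) (t := s ++ b :: s'.reverse)
  · simp only [List.length_cons, List.length_append, List.length_reverse]
    omega
  · rw [List.nodup_cons, List.nodup_append, List.nodup_cons]
    refine ⟨?_, c2, ⟨?_, ?_⟩, ?_⟩
    · simp only [List.mem_append, List.mem_cons, List.mem_reverse, not_or]
      exact ⟨c3, hab, d3⟩
    · rw [List.mem_reverse]
      exact d4
    · rw [List.nodup_reverse]
      exact d2
    · intro x hx y hy hxy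
      subst hxy
      rw [List.mem_cons, List.mem_reverse] at hy
      rcases hy with rfl | hy
      · exact c4 hx
      · exact hd x hx hy
  · have e : (a :: (s ++ b :: s'.reverse)) ++ [a] = (a :: s) ++ b :: (s'.reverse ++ [a]) := by simp
    rw [e, List.isChain_split]
    refine ⟨c1, ?_⟩
    have e2 : b :: (s'.reverse ++ [a]) = (a :: (s' ++ [b])).reverse := by simp
    rw [e2, List.isChain_reverse]
    exact d1.imp fun x y hxy => hxy.symm

/-- the cyclic sequence without its member `f i` -/
def cutl {m : ℕ} (f : ZMod m → V) (i : ZMod m) : List V :=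
  List.ofFn fun j : Fin (m - 1) => f (i + 1 + (j : ℕ))

theorem pi_of_cyc {m : ℕ} (hm : 3 ≤ m) {f : ZMod m → V} (hf : IsCyc G f) (i : ZMod m) :
    PI G (f i) (f i) (cutl f i) ∧ (cutl f i).length + 1 = m ∧
      ∀ x ∈ cutl f i, x ∈ Set.range f := by
  have : NeZero m := ⟨by omega⟩
  have hlen : (cutl f i).length = m - 1 := by
    unfold cutl
    rw [List.length_ofFn]
  have hcast : ∀ j k : ℕ, j < m → k < m → ((j : ZMod m) = (k : ZMod m)) → j = k := by
    intro j k hj hk hjk
    have := congrArg ZMod.val hjk
    rwa [ZMod.val_natCast_of_lt hj, ZMod.val_natCast_of_lt hk] at this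
  have hget : ∀ (k : ℕ) (hk : k < (f i :: (cutl f i ++ [f i])).length),
      (f i :: (cutl f i ++ [f i]))[k] = f (i + (k : ℕ)) := by
    intro k hk
    rw [List.length_cons, List.length_append, hlen, List.length_singleton] at hk
    rcases Nat.eq_zero_or_pos k with rfl | hpos
    · simp
    · obtain ⟨j, rfl⟩ : ∃ j, k = j + 1 := ⟨k - 1, by omega⟩
      rw [List.getElem_cons_succ]
      rcases Nat.lt_or_ge j (m - 1) with hj | hj
      · rw [List.getElem_append_left (by omega)]
        unfold cutl
        rw [List.getElem_ofFn]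
        congr 1
        push_cast
        ring
      · have e1 : j + 1 = m := by omega
        rw [List.getElem_append_right (by omega), e1, ZMod.natCast_self, add_zero]
        simp
  have hni : f i ∉ cutl f i := by
    unfold cutl
    rw [List.mem_ofFn]
    rintro ⟨j, hj⟩
    have h1 := hf.1 hj
    have h2 : ((j.val + 1 : ℕ) : ZMod m) = ((0 : ℕ) : ZMod m) := by
      push_cast
      linear_combination h1
    have := hcast _ _ (by omega) (by omega) h2
    omega
  refine ⟨⟨?_, ?_, hni, hni⟩, by omega, ?_⟩
  · rw [List.isChain_iff_getElem]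
    intro k hk
    rw [hget k (by omega), hget (k + 1) hk]
    have := hf.2 (i + (k : ℕ))
    rw [Nat.cast_add, Nat.cast_one, ← add_assoc]
    exact this
  · unfold cutl
    rw [List.nodup_ofFn]
    intro j k hjk
    have h1 := hf.1 hjk
    have h2 : ((j.val : ℕ) : ZMod m) = ((k.val : ℕ) : ZMod m) := by
      linear_combination h1
    exact Fin.ext (hcast _ _ (by omega) (by omega) h2)
  · intro x hx
    unfold cutl at hx
    rw [List.mem_ofFn] at hx
    obtain ⟨j, hj⟩ := hx
    exact ⟨_, hj⟩

theorem cutl_inj {m : ℕ} (hm : 3 ≤ m) {f f' : ZMod m → V} (i : ZMod m) (h0 : f i = f' i)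
    (h : cutl f i = cutl f' i) : f = f' := by
  have : NeZero m := ⟨by omega⟩
  unfold cutl at h
  have h1 := List.ofFn_injective h
  funext x
  have hx : ((x - i).val : ZMod m) = x - i := ZMod.natCast_zmod_val _
  have hlt := ZMod.val_lt (x - i)
  rcases Nat.eq_zero_or_pos (x - i).val with h2 | h2
  · rw [h2, Nat.cast_zero] at hx
    have e : x = i := (sub_eq_zero.mp hx.symm)
    rw [e]
    exact h0
  · have h3 := congrFun h1 ⟨(x - i).val - 1, by omega⟩
    simp only at h3
    have e : i + 1 + (((x - i).val - 1 : ℕ) : ZMod m) = x := by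
      rw [Nat.cast_sub h2, hx, Nat.cast_one]
      ring
    rw [e] at h3
    exact h3

end H46.CY
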