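import Pool.Agent.H46.CY.Defs

/-!
# CY.Scale : choice of the scale (about 80 lines)

For every `x` there are at most `D` points `v` with `le v x` (`height`), so `∑ v, #{x | le v x} = ∑ x, #{v | le v x} ≤ D #V`: this gives `card_heavy`. `exists_scale`: for a fixed `u` let `A` be the set of the `i < I` such that some `v`, `le v u`, has `T i ≤ #{x | le v x} < T (i + 1)`; a given `v` belongs to at most one `i`
(`T` is monotone), so `#A ≤ D`. Summing over `u`: `∑ i < I, #{u | ...} ≤ D #V`, so some `i < I` has `I * # ≤ D #V`.
-/

namespace H46.CY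

open Pool.Agent.H3.LC

variable {V : Type} {G : SimpleGraph V} {D : ℕ} {le : V → V → Prop}

private theorem below_le [Finite V] (h : IsElim G D le) (x : V) : {v | le v x}.ncard ≤ D := by
  have h1 := h.height x
  rw [← Set.Finite.cast_ncard_eq (Set.toFinite _)] at h1
  exact_mod_cast h1

private theorem ncard_filter [Fintype V] (p : V → Prop) [DecidablePred p] :
    {x | p x}.ncard = (Finset.univ.filter p).card := by
  classical
  rw [Set.ncard_eq_toFinset_card']
  congr 1
  ext x
  simp

open Classical in
private theorem sum_le [Fintype V] (h : IsElim G D le) :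
    ∑ v, {x | le v x}.ncard ≤ D * Nat.card V := by
  have ha : ∑ v, {x | le v x}.ncard = ∑ v : V, ∑ x : V, (if le v x then 1 else 0) :=
    Finset.sum_congr rfl fun v _ => by rw [ncard_filter, Finset.card_filter]
  have hb : ∑ x, {v | le v x}.ncard = ∑ x : V, ∑ v : V, (if le v x then 1 else 0) :=
    Finset.sum_congr rfl fun x _ => by rw [ncard_filter, Finset.card_filter]
  have h1 : ∑ v, {x | le v x}.ncard = ∑ x, {v | le v x}.ncard := by
    rw [ha, hb]
    exact Finset.sum_comm
  rw [h1]
  calc ∑ x, {v | le v x}.ncard ≤ ∑ _x : V, D := Finset.sum_le_sum fun x _ => below_le h x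
    _ = D * Nat.card V := by simp [mul_comm]

theorem card_heavy [Finite V] (h : IsElim G D le) (M : ℕ) :
    {v | M ≤ {x | le v x}.ncard}.ncard * M ≤ D * Nat.card V := by
  classical
  have := Fintype.ofFinite V
  refine le_trans ?_ (sum_le h)
  rw [ncard_filter]
  calc (Finset.univ.filter fun v => M ≤ {x | le v x}.ncard).card * M
      = ∑ v ∈ Finset.univ.filter (fun v => M ≤ {x | le v x}.ncard), M := by simp
    _ ≤ ∑ v ∈ Finset.univ.filter (fun v => M ≤ {x | le v x}.ncard), {x | le v x}.ncard :=
        Finset.sum_le_sum fun v hv => (Finset.mem_filter.1 hv).2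
    _ ≤ ∑ v, {x | le v x}.ncard :=
        Finset.sum_le_sum_of_subset_of_nonneg (Finset.filter_subset _ _) fun _ _ _ => Nat.zero_le _

theorem exists_scale [Finite V] (h : IsElim G D le) (T : ℕ → ℕ) (hT : Monotone T) {I : ℕ}
    (hI : 0 < I) :
    ∃ i < I, {u | ∃ v, le v u ∧ T i ≤ {x | le v x}.ncard ∧ {x | le v x}.ncard < T (i + 1)}.ncard * I
      ≤ D * Nat.card V := by
  classical
  have := Fintype.ofFinite V
  by_contra hcon
  have hcon' : ∀ i, i < I → D * Nat.card V <
      {u | ∃ v, le v u ∧ T i ≤ {x | le v x}.ncard ∧ {x | le v x}.ncard < T (i + 1)}.ncard * I := by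
    intro i hi
    by_contra hh
    exact hcon ⟨i, hi, not_lt.1 hh⟩
  let P : ℕ → V → Prop := fun i u =>
    ∃ v, le v u ∧ T i ≤ {x | le v x}.ncard ∧ {x | le v x}.ncard < T (i + 1)
  have key : ∑ i ∈ Finset.range I, {u | P i u}.ncard ≤ D * Nat.card V := by
    have h1 : ∑ i ∈ Finset.range I, {u | P i u}.ncard
        = ∑ u : V, ((Finset.range I).filter fun i => P i u).card := by
      have ha : ∑ i ∈ Finset.range I, {u | P i u}.ncard
          = ∑ i ∈ Finset.range I, ∑ u : V, (if P i u then 1 else 0) :=
        Finset.sum_congr rfl fun i _ => by rw [ncard_filter, Finset.card_filter]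
      have hb : ∑ u : V, ((Finset.range I).filter fun i => P i u).card
          = ∑ u : V, ∑ i ∈ Finset.range I, (if P i u then 1 else 0) :=
        Finset.sum_congr rfl fun u _ => by rw [Finset.card_filter]
      rw [ha, hb]
      exact Finset.sum_comm
    rw [h1]
    calc ∑ u : V, ((Finset.range I).filter fun i => P i u).card ≤ ∑ _u : V, D := by
          refine Finset.sum_le_sum fun u _ => ?_
          refine le_trans ?_ (below_le h u)
          have hch : ∀ i : ℕ, ∃ v : V, P i u →
              (le v u ∧ T i ≤ {x | le v x}.ncard ∧ {x | le v x}.ncard < T (i + 1)) := by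
            intro i
            by_cases hp : P i u
            · obtain ⟨v, hv⟩ := hp
              exact ⟨v, fun _ => hv⟩
            · exact ⟨u, fun hh => absurd hh hp⟩
          choose f hf using hch
          rw [ncard_filter (fun v => le v u)]
          refine Finset.card_le_card_of_injOn f ?_ ?_
          · intro i hi
            have hi' := (Finset.mem_filter.1 (Finset.mem_coe.1 hi)).2
            exact Finset.mem_coe.2 (Finset.mem_filter.2 ⟨Finset.mem_univ _, (hf i hi').1⟩)
          · intro i hi j hj hij
            have hi' := hf i (Finset.mem_filter.1 (Finset.mem_coe.1 hi)).2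
            have hj' := hf j (Finset.mem_filter.1 (Finset.mem_coe.1 hj)).2
            rw [hij] at hi'
            rcases lt_trichotomy i j with hlt | heq | hgt
            · have := hT (Nat.succ_le_of_lt hlt)
              have h3 := hi'.2.2
              have h4 := hj'.2.1
              simp only [Nat.succ_eq_add_one] at this
              omega
            · exact heq
            · have := hT (Nat.succ_le_of_lt hgt)
              have h3 := hj'.2.2
              have h4 := hi'.2.1
              simp only [Nat.succ_eq_add_one] at this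
              omega
      _ = D * Nat.card V := by simp [mul_comm]
  have h2 : ∑ i ∈ Finset.range I, D * Nat.card V < ∑ i ∈ Finset.range I, {u | P i u}.ncard * I :=
    Finset.sum_lt_sum_of_nonempty ⟨0, Finset.mem_range.2 hI⟩
      fun i hi => hcon' i (Finset.mem_range.1 hi)
  rw [Finset.sum_const, Finset.card_range, smul_eq_mul, ← Finset.sum_mul] at h2
  have h3 := Nat.mul_le_mul_right I key
  have h4 : I * (D * Nat.card V) < (D * Nat.card V) * I := lt_of_lt_of_le h2 h3
  rw [mul_comm] at h4
  exact lt_irrefl _ h4

end H46.CY
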