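import Pool.Agent.H46.CY.Min
import Pool.Agent.H46.CY.Pth

/-!
# CY.Short : paths of length less than l between two points (about 120 lines)

Strong induction on `t`. `t = 0`: no such `s`. `t = 1`: `s = []`, at most one. `t ≥ 2`: `s` is not empty and a chain, so it has a smallest member `r` (`exists_min_list`), `s = s1 ++ r :: s2`, `t1 = s1.length + 1`, `t2 = s2.length + 1`, `t1 + t2 = t`, both less than `t`, and `PI G a r s1`, `PI G r b s2`
with `a ≠ r ≠ b` (`pi_split`, definition of `PI`). Let `Q` be the set of these smallest members `r` (for all `s` with `PI G a b s`, `s.length + 1 = t`). Any two members `r`, `r'` of `Q` are comparable: otherwise the lists `s`, `s'` are disjoint (a common `x` gives `r ≤ x`, `r' ≤ x`, `chain`),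
and `cyc_of_two` gives an even cycle of length `2 t < 2 l` (`2 t ≥ 3`), against `NoEven`. So `Q` (finite, `V` is finite) is empty or has a greatest member `q` and `Q ⊆ {u | le u q}` has at most `D` members.
The map `s ↦ (r, t1, s1, s2)` is injective, so the number is at most `D * t * (C t1 * C t2)` summed over `t1 + t2 = t`; take `C t = 1 + D * ∑ t1 in range t, C t1 * C (t - t1)` or any bound. (Sets of lists of bounded length over a finite type are finite: `List.finite_length_eq`.)
-/

namespace H46.CY

open Pool.Agent.H3.LC

private theorem Short_fin {V : Type} [Finite V] (G : SimpleGraph V) (a b : V) (t : ℕ) :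
    {s : List V | PI G a b s ∧ s.length + 1 = t}.Finite :=
  (List.finite_length_eq V (t - 1)).subset fun s hs => by
    have := hs.2
    show s.length = t - 1
    omega

/-- a finite set of pairwise comparable elements has at most `D` members -/
private theorem Short_chain {V : Type} [Finite V] {G : SimpleGraph V} {D : ℕ} {le : V → V → Prop}
    (h : IsElim G D le) (Q : Finset V) (hQ : ∀ r ∈ Q, ∀ r' ∈ Q, le r r' ∨ le r' r) :
    Q.card ≤ D := by
  classical
  rcases Q.eq_empty_or_nonempty with h0 | h0
  · rw [h0, Finset.card_empty]
    exact Nat.zero_le D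
  · have key : ∀ Q : Finset V, Q.Nonempty → (∀ r ∈ Q, ∀ r' ∈ Q, le r r' ∨ le r' r) →
        ∃ q ∈ Q, ∀ r ∈ Q, le r q := by
      intro Q
      induction Q using Finset.induction_on with
      | empty => exact fun h => absurd h Finset.not_nonempty_empty
      | insert x Q hx ih =>
        intro _ hc
        rcases Q.eq_empty_or_nonempty with h1 | h1
        · refine ⟨x, Finset.mem_insert_self _ _, ?_⟩
          intro r hr
          rw [h1, Finset.mem_insert] at hr
          rcases hr with rfl | hr
          · exact h.refl _
          · exact absurd hr (Finset.notMem_empty _)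
        · obtain ⟨q, hq, hq'⟩ := ih h1 fun r hr r' hr' =>
            hc r (Finset.mem_insert_of_mem hr) r' (Finset.mem_insert_of_mem hr')
          rcases hc x (Finset.mem_insert_self _ _) q (Finset.mem_insert_of_mem hq) with h2 | h2
          · refine ⟨q, Finset.mem_insert_of_mem hq, ?_⟩
            intro r hr
            rcases Finset.mem_insert.1 hr with rfl | hr
            · exact h2
            · exact hq' r hr
          · refine ⟨x, Finset.mem_insert_self _ _, ?_⟩
            intro r hr
            rcases Finset.mem_insert.1 hr with rfl | hr
            · exact h.refl _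
            · exact h.trans _ _ _ (hq' r hr) h2
    obtain ⟨q, _, hq'⟩ := key Q h0 hQ
    have h1 : (Q : Set V).encard ≤ {u | le u q}.encard :=
      Set.encard_le_encard fun r hr => hq' r hr
    have h2 := h1.trans (h.height q)
    rw [Set.encard_coe_eq_coe_finsetCard] at h2
    exact_mod_cast h2

theorem short_paths (D l t : ℕ) (ht : t < l) :
    ∃ C : ℕ, ∀ (V : Type) [Finite V] (G : SimpleGraph V) (le : V → V → Prop), IsElim G D le →
      NoEven G l → ∀ a b : V, a ≠ b → {s : List V | PI G a b s ∧ s.length + 1 = t}.ncard ≤ C := by
  classical
  induction t using Nat.strong_induction_on with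
  | _ t ih =>
    have ih' : ∀ t' : ℕ, ∃ C : ℕ, t' < t → ∀ (V : Type) [Finite V] (G : SimpleGraph V)
        (le : V → V → Prop), IsElim G D le → NoEven G l → ∀ a b : V, a ≠ b →
        {s : List V | PI G a b s ∧ s.length + 1 = t'}.ncard ≤ C := by
      intro t'
      by_cases h : t' < t
      · obtain ⟨C, hC⟩ := ih t' h (by omega)
        exact ⟨C, fun _ => hC⟩
      · exact ⟨0, fun h' => absurd h' h⟩
    choose C hC using ih'
    obtain ⟨B, hB⟩ : ∃ B, B = ∑ t' ∈ Finset.range t, C t' := ⟨_, rfl⟩
    have hCB : ∀ t' < t, C t' ≤ B := by
      intro t' h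
      rw [hB]
      exact Finset.single_le_sum (f := C) (fun _ _ => Nat.zero_le _) (Finset.mem_range.2 h)
    refine ⟨1 + D * (t * (B * B)), ?_⟩
    intro V _ G le hE hN a b hab
    by_cases ht2 : t < 2
    · -- at most the empty list
      have hsub : {s : List V | PI G a b s ∧ s.length + 1 = t} ⊆ {[]} := by
        rintro s ⟨_, hs⟩
        exact List.length_eq_zero_iff.1 (by omega)
      have := Set.ncard_le_ncard hsub (Set.finite_singleton _)
      rw [Set.ncard_singleton] at this
      omega
    · -- the smallest members
      have hmin : ∀ s : List V, PI G a b s → s.length + 1 = t → ∃ r ∈ s, ∀ x ∈ s, le r x := by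
        intro s hs hl
        refine exists_min_list hE s ?_ ?_
        · rintro rfl
          simp only [List.length_nil] at hl
          omega
        · exact List.IsChain.left_of_append (l₁ := s) (l₂ := [b]) hs.1.tail
      obtain ⟨Q, hQ⟩ : ∃ Q : Finset V, ∀ r, r ∈ Q ↔ ∃ s, PI G a b s ∧ s.length + 1 = t ∧ r ∈ s ∧
          ∀ x ∈ s, le r x := by
        have := Fintype.ofFinite V
        exact ⟨Finset.univ.filter fun r => ∃ s, PI G a b s ∧ s.length + 1 = t ∧ r ∈ s ∧
          ∀ x ∈ s, le r x, by simp⟩
      have hQD : Q.card ≤ D := by
        refine Short_chain hE Q ?_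
        intro r hr r' hr'
        obtain ⟨s, hs, hl, _, hrs⟩ := (hQ r).1 hr
        obtain ⟨s', hs', hl', _, hrs'⟩ := (hQ r').1 hr'
        by_cases hd : ∀ x ∈ s, x ∉ s'
        · exfalso
          obtain ⟨f, hf⟩ := cyc_of_two hab hs hs' hd (by omega)
          have := hN _ f (by omega) hf ⟨t, by omega⟩
          omega
        · push Not at hd
          obtain ⟨x, hx, hx'⟩ := hd
          exact hE.chain r r' x (hrs x hx) (hrs' x hx')
      have hfin := Short_fin G a b t
      rw [Set.ncard_eq_toFinset_card _ hfin]
      have hsub : hfin.toFinset ⊆ Q.biUnion fun r => (Finset.range t).biUnion fun i =>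
          Finset.image₂ (fun s1 s2 => s1 ++ r :: s2) (if r = a then ∅ else
            (Short_fin G a r i).toFinset) (if r = b then ∅ else
            (Short_fin G r b (t - i)).toFinset) := by
        intro s hs
        rw [Set.Finite.mem_toFinset] at hs
        obtain ⟨hs, hl⟩ := hs
        obtain ⟨r, hr, hrx⟩ := hmin s hs hl
        obtain ⟨s1, s2, rfl⟩ := List.append_of_mem hr
        obtain ⟨h1, h2⟩ := pi_split hs
        have hra : r ≠ a := by
          rintro rfl
          exact hs.2.2.1 hr
        have hrb : r ≠ b := by
          rintro rfl
          exact hs.2.2.2 hr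
        simp only [List.length_append, List.length_cons] at hl
        rw [Finset.mem_biUnion]
        refine ⟨r, (hQ r).2 ⟨_, hs, by simpa using hl, hr, hrx⟩, ?_⟩
        rw [Finset.mem_biUnion]
        refine ⟨s1.length + 1, Finset.mem_range.2 (by omega), ?_⟩
        rw [Finset.mem_image₂]
        refine ⟨s1, ?_, s2, ?_, rfl⟩
        · rw [if_neg hra, Set.Finite.mem_toFinset]
          exact ⟨h1, rfl⟩
        · rw [if_neg hrb, Set.Finite.mem_toFinset]
          exact ⟨h2, by omega⟩
      refine (Finset.card_le_card hsub).trans ?_
      refine (Finset.card_biUnion_le_card_mul Q _ (t * (B * B)) ?_).trans ?_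
      · intro r _
        refine (Finset.card_biUnion_le_card_mul (Finset.range t) _ (B * B) ?_).trans ?_
        · intro i hi
          rw [Finset.mem_range] at hi
          refine (Finset.card_image₂_le _ _ _).trans ?_
          by_cases hra : r = a
          · simp [hra]
          by_cases hrb : r = b
          · simp [hrb]
          rw [if_neg hra, if_neg hrb]
          rcases Nat.eq_zero_or_pos i with h0 | h0
          · have : (Short_fin G a r i).toFinset = ∅ := by
              rw [Finset.eq_empty_iff_forall_notMem]
              intro s hs
              rw [Set.Finite.mem_toFinset] at hs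
              have := hs.2
              omega
            rw [this, Finset.card_empty, Nat.zero_mul]
            exact Nat.zero_le _
          · have h1 := hC i hi V G le hE hN a r (fun h => hra h.symm)
            have h2 := hC (t - i) (by omega) V G le hE hN r b hrb
            rw [Set.ncard_eq_toFinset_card _ (Short_fin G a r i)] at h1
            rw [Set.ncard_eq_toFinset_card _ (Short_fin G r b (t - i))] at h2
            exact Nat.mul_le_mul (h1.trans (hCB i hi)) (h2.trans (hCB _ (by omega)))
        · rw [Finset.card_range]
      · have := Nat.mul_le_mul_right (t * (B * B)) hQD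
        omega

end H46.CY
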