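import Pool.Agent.H46.CY.Defs

/-!
# CY.Sim : definition of similar roots
-/

namespace H46.CY

/-- `y` and `y'` have the same proper ancestors, and the graph below `y` is mapped injectively into
the graph below `y'`, edges to edges, in the same way joined to the proper ancestors -/
def Sim {V : Type} (G : SimpleGraph V) (le : V → V → Prop) (y y' : V) : Prop :=
  (∀ w, (le w y ∧ w ≠ y) ↔ (le w y' ∧ w ≠ y')) ∧ ∃ φ : V → V,
    (∀ u v, le y u → le y v → φ u = φ v → u = v) ∧ (∀ u, le y u → le y' (φ u)) ∧
    (∀ u v, le y u → le y v → G.Adj u v → G.Adj (φ u) (φ v)) ∧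
    ∀ w u, le w y → w ≠ y → le y u → G.Adj w u → G.Adj w (φ u)

end H46.CY
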