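import Pool.Agent.H46.CY.SrcP

/-!
# CY.SrcC : sources of cycles (about 200 lines)

Let `IsCyc G f`, `f : ZMod m → V`. Choose `i` with `f i = a` smallest (`exists_min_cyc`), `s = cutl f i` (`pi_of_cyc`: `PI G a a s`, `s.length + 1 = m`), `q` the smallest member of `s`, `s = s1 ++ q :: s2`, `t1 = s1.length + 1`, `t2 = s2.length + 1`, `t1 + t2 = m`, `PI G a q s1`, `PI G q a s2`, `a ≠ q`, `le a q`.
With the maps `Φ` of `src_path` for `(t1, a, q)` and `(t2, q, a)`: `r1 = t1 / l`, `r2 = t2 / l`, `r1 + r2 ≤ m / l ≤ d`. The `d` sources of `f`: the `r1` sources of `s1`, the `r2` sources of `s2`, and `q` for all remaining coordinates. Fibre of `y`: choose `i` (`m` values), `t1` (at most `m` values); if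
`r1 + r2 < d` then `q = y (d - 1)`, if `r1 + r2 = d ≥ 1` then `q ∈ {u | le u (y 0)}`, at most `D` values; `a ∈ {u | le u q}`, at most `D` values; then `s1`, `s2` lie in fibres of `src_path`, and `f` is determined by `i`, `a`, `s` (`cutl_inj`). So at most `m * m * (D + 1) * D * C1 * C2`.
-/

namespace H46.CY

open Pool.Agent.H3.LC

private theorem SrcC_fin {V : Type} [Finite V] (G : SimpleGraph V) (a b : V) (t : ℕ)
    (p : List V → Prop) : {s : List V | PI G a b s ∧ s.length + 1 = t ∧ p s}.Finite :=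
  (List.finite_length_eq V (t - 1)).subset fun s hs => by
    have := hs.2.1
    show s.length = t - 1
    omega

private theorem SrcC_a {r r1 r2 : ℕ} (h : r1 + r2 < r) :
    ¬ (r - 1 < r1) ∧ ¬ (r - 1 - r1 < r2) := by
  constructor <;> omega

private theorem SrcC_b {r r1 r2 j : ℕ} (h : r1 + r2 ≤ r) (hj : j < r2) :
    r1 + j < r ∧ ¬ (r1 + j < r1) ∧ r1 + j - r1 < r2 ∧ j = r1 + j - r1 := by
  refine ⟨?_, ?_, ?_, ?_⟩ <;> omega

private theorem SrcC_c {r r1 r2 j : ℕ} (h : r1 + r2 ≤ r) (hj : j < r1) : j < r := by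
  omega

theorem src_cyc (D l d m : ℕ) (hl : 2 ≤ l) (hm : 3 ≤ m) (hd : 1 ≤ d) (hmd : m < (d + 1) * l) :
    ∃ C : ℕ, ∀ (V : Type) [Finite V] (G : SimpleGraph V) (le : V → V → Prop), IsElim G D le →
      NoEven G l → ∃ Φ : (ZMod m → V) → Fin d → V,
        (∀ f, IsCyc G f → ∀ i, Φ f i ∈ Set.range f) ∧
        ∀ y, {f : ZMod m → V | IsCyc G f ∧ Φ f = y}.ncard ≤ C := by
  classical
  have hm0 : NeZero m := ⟨by omega⟩
  have hp : ∀ t' : ℕ, ∃ C : ℕ, ∀ (V : Type) [Finite V] (G : SimpleGraph V)
      (le : V → V → Prop), IsElim G D le → NoEven G l → ∀ a b : V, a ≠ b →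
      ∃ Φ : List V → Fin (t' / l) → V,
        (∀ s, PI G a b s → s.length + 1 = t' → ∀ i, Φ s i ∈ s) ∧
        ∀ y, {s : List V | PI G a b s ∧ s.length + 1 = t' ∧ Φ s = y}.ncard ≤ C :=
    fun t' => src_path D l hl t'
  choose C hC using hp
  obtain ⟨B, hB⟩ : ∃ B, B = ∑ t' ∈ Finset.range m, C t' := ⟨_, rfl⟩
  have hCB : ∀ t' < m, C t' ≤ B := by
    intro t' h
    rw [hB]
    exact Finset.single_le_sum (f := C) (fun _ _ => Nat.zero_le _) (Finset.mem_range.2 h)
  refine ⟨(D + 1) * (D * (m * (m * (m * (B * B))))), ?_⟩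
  intro V _ G le hE hN
  -- the maps for paths
  have hΦ' : ∀ (t' : ℕ) (x z : V), ∃ Φ : List V → Fin (t' / l) → V, x ≠ z →
      (∀ s, PI G x z s → s.length + 1 = t' → ∀ i, Φ s i ∈ s) ∧
        ∀ y, {s : List V | PI G x z s ∧ s.length + 1 = t' ∧ Φ s = y}.ncard ≤ C t' := by
    intro t' x z
    by_cases h : x ≠ z
    · obtain ⟨Φ, hΦ⟩ := hC t' V G le hE hN x z h
      exact ⟨Φ, fun _ => hΦ⟩
    · exact ⟨fun _ _ => x, fun h1 => absurd h1 h⟩
  choose Ψ hΨ using hΦ'
  -- the smallest member of the cycle, and the splitting of the rest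
  have hsp : ∀ f : ZMod m → V, ∃ (i : ZMod m) (s1 : List V) (q : V) (s2 : List V), IsCyc G f →
      (∀ j, le (f i) (f j)) ∧ cutl f i = s1 ++ q :: s2 ∧ ∀ x ∈ cutl f i, le q x := by
    intro f
    by_cases h : IsCyc G f
    · obtain ⟨i, hi⟩ := exists_min_cyc hE f h.2
      obtain ⟨hpi, hlen, hran⟩ := pi_of_cyc hm h i
      obtain ⟨q, hq, hqx⟩ : ∃ r ∈ cutl f i, ∀ x ∈ cutl f i, le r x := by
        refine exists_min_list hE (cutl f i) ?_ ?_
        · intro h0
          rw [h0, List.length_nil] at hlen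
          omega
        · exact List.IsChain.left_of_append (l₁ := cutl f i) (l₂ := [f i]) hpi.1.tail
      obtain ⟨s1, s2, hs12⟩ := List.append_of_mem hq
      exact ⟨i, s1, q, s2, fun _ => ⟨hi, hs12, hqx⟩⟩
    · exact ⟨0, [], f 0, [], fun h1 => absurd h1 h⟩
  choose ix s1 q s2 hsp using hsp
  obtain ⟨Φ, hΦ⟩ : ∃ Φ : (ZMod m → V) → Fin d → V, ∀ f i, Φ f i =
      if h1 : (i : ℕ) < ((s1 f).length + 1) / l then
        Ψ ((s1 f).length + 1) (f (ix f)) (q f) (s1 f) ⟨i, h1⟩
      else if h2 : (i : ℕ) - ((s1 f).length + 1) / l < ((s2 f).length + 1) / l then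
        Ψ ((s2 f).length + 1) (q f) (f (ix f)) (s2 f) ⟨(i : ℕ) - ((s1 f).length + 1) / l, h2⟩
      else q f := ⟨_, fun _ _ => rfl⟩
  -- the facts on one cycle
  have key : ∀ f, IsCyc G f →
      (∀ j, le (f (ix f)) (f j)) ∧
      cutl f (ix f) = s1 f ++ q f :: s2 f ∧ (∀ x ∈ cutl f (ix f), le (q f) x) ∧
      PI G (f (ix f)) (q f) (s1 f) ∧ PI G (q f) (f (ix f)) (s2 f) ∧ f (ix f) ≠ q f ∧
      le (f (ix f)) (q f) ∧
      ((s1 f).length + 1) + ((s2 f).length + 1) = m := by
    intro f hf
    obtain ⟨hmin, e, hmq⟩ := hsp f hf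
    obtain ⟨hpi, hlen, hran⟩ := pi_of_cyc hm hf (ix f)
    have hqm : q f ∈ cutl f (ix f) := by
      rw [e]
      simp
    have hpi' := hpi
    rw [e] at hpi'
    obtain ⟨p1, p2⟩ := pi_split hpi'
    refine ⟨hmin, e, hmq, p1, p2, ?_, ?_, ?_⟩
    · intro h
      exact hpi.2.2.1 (by
        have h9 := hqm
        rwa [← h] at h9)
    · obtain ⟨j, hj⟩ := hran _ hqm
      rw [← hj]
      exact hmin j
    · have := congrArg List.length e
      rw [List.length_append, List.length_cons] at this
      omega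
  have hmem : ∀ f, IsCyc G f → ∀ i, Φ f i ∈ cutl f (ix f) := by
    intro f hf i
    obtain ⟨_, e, _, p1, p2, haq, _, _⟩ := key f hf
    have hsub1 : ∀ x ∈ s1 f, x ∈ cutl f (ix f) := by
      intro x hx
      rw [e]
      exact List.mem_append_left _ hx
    have hsub2 : ∀ x ∈ s2 f, x ∈ cutl f (ix f) := by
      intro x hx
      rw [e]
      exact List.mem_append_right _ (List.mem_cons_of_mem _ hx)
    have hsubq : q f ∈ cutl f (ix f) := by
      rw [e]
      simp
    rw [hΦ]
    split_ifs with h1 h2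
    · exact hsub1 _ ((hΨ _ (f (ix f)) (q f) haq).1 _ p1 rfl _)
    · exact hsub2 _ ((hΨ _ (q f) (f (ix f)) haq.symm).1 _ p2 rfl _)
    · exact hsubq
  refine ⟨Φ, fun f hf i => (pi_of_cyc hm hf (ix f)).2.2 _ (hmem f hf i), ?_⟩
  intro y
  have := Fintype.ofFinite V
  have hfin : {f : ZMod m → V | IsCyc G f ∧ Φ f = y}.Finite := Set.toFinite _
  rw [Set.ncard_eq_toFinset_card _ hfin]
  have hdle : ∀ v : V, (Finset.univ.filter fun u => le u v).card ≤ D := by
    intro v
    have h2 := hE.height v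
    have e : {u | le u v} = ((Finset.univ.filter fun u => le u v : Finset V) : Set V) := by
      ext u
      simp
    rw [e, Set.encard_coe_eq_coe_finsetCard] at h2
    exact_mod_cast h2
  have hQcard : (insert (y ⟨d - 1, by omega⟩)
      (Finset.univ.filter fun u => le u (y ⟨0, hd⟩))).card ≤ D + 1 :=
    (Finset.card_insert_le _ _).trans (Nat.succ_le_succ (hdle _))
  obtain ⟨T, hT⟩ : ∃ T : Finset (V × ZMod m × List V), T =
      (insert (y ⟨d - 1, by omega⟩) (Finset.univ.filter fun u => le u (y ⟨0, hd⟩))).biUnion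
        fun p => (Finset.univ.filter fun u => le u p).biUnion fun a =>
          (Finset.univ : Finset (ZMod m)).biUnion fun j =>
          (Finset.range m).biUnion fun i => (Finset.range m).biUnion fun k =>
          Finset.image₂ (fun u1 u2 => (a, j, u1 ++ p :: u2))
            (if a = p then ∅ else (SrcC_fin G a p i (fun u => Ψ i a p u =
              fun j : Fin (i / l) => if h : (j : ℕ) < d then y ⟨j, h⟩ else a)).toFinset)
            (if a = p then ∅ else (SrcC_fin G p a k (fun u => Ψ k p a u =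
              fun j : Fin (k / l) => if h : i / l + (j : ℕ) < d then
                y ⟨i / l + (j : ℕ), h⟩ else a)).toFinset) := ⟨_, rfl⟩
  have hle : hfin.toFinset.card ≤ T.card := by
    refine Finset.card_le_card_of_injOn (fun f => (f (ix f), ix f, cutl f (ix f))) ?_ ?_
    · intro f hf
      rw [Finset.mem_coe, Set.Finite.mem_toFinset] at hf
      obtain ⟨hf, hy⟩ := hf
      obtain ⟨hmin, e, hmq, p1, p2, haq, hlaq, hsum⟩ := key f hf
      have hdiv : ((s1 f).length + 1) / l + ((s2 f).length + 1) / l ≤ d := by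
        have h1 := Nat.div_add_div_le_add_div (x := (s1 f).length + 1) (y := (s2 f).length + 1) (z := l)
        rw [hsum] at h1
        have h2 : m / l < d + 1 := (Nat.div_lt_iff_lt_mul (by omega)).2 hmd
        omega
      rw [Finset.mem_coe, hT, Finset.mem_biUnion]
      refine ⟨q f, ?_, ?_⟩
      · rw [Finset.mem_insert, Finset.mem_filter]
        by_cases hlt : ((s1 f).length + 1) / l + ((s2 f).length + 1) / l < d
        · left
          obtain ⟨n1, n2⟩ := SrcC_a hlt
          have h3 := congrFun hy ⟨d - 1, by omega⟩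
          rw [hΦ, dif_neg n1, dif_neg n2] at h3
          exact h3
        · right
          have h0 : y ⟨0, hd⟩ ∈ cutl f (ix f) := by
            rw [← hy]
            exact hmem f hf _
          exact ⟨Finset.mem_univ _, hmq _ h0⟩
      · rw [Finset.mem_biUnion]
        refine ⟨f (ix f), Finset.mem_filter.2 ⟨Finset.mem_univ _, hlaq⟩, ?_⟩
        rw [Finset.mem_biUnion]
        refine ⟨ix f, Finset.mem_univ _, ?_⟩
        rw [Finset.mem_biUnion]
        refine ⟨(s1 f).length + 1, Finset.mem_range.2 (by omega), ?_⟩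
        rw [Finset.mem_biUnion]
        refine ⟨(s2 f).length + 1, Finset.mem_range.2 (by omega), ?_⟩
        rw [Finset.mem_image₂]
        refine ⟨s1 f, ?_, s2 f, ?_, by rw [← e]⟩
        · rw [if_neg haq, Set.Finite.mem_toFinset]
          refine ⟨p1, rfl, ?_⟩
          funext j
          have hj := j.2
          have hjt : (j : ℕ) < d := SrcC_c hdiv hj
          rw [dif_pos hjt, ← hy, hΦ, dif_pos hj]
        · rw [if_neg haq, Set.Finite.mem_toFinset]
          refine ⟨p2, rfl, ?_⟩
          funext j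
          have hj := j.2
          obtain ⟨hjt, n1, n2, n3⟩ := SrcC_b hdiv hj
          rw [dif_pos hjt, ← hy, hΦ, dif_neg n1, dif_pos n2]
          congr 1
          exact Fin.ext n3
    · intro f _ f' _ h
      simp only [Prod.mk.injEq] at h
      obtain ⟨h1, h2, h3⟩ := h
      rw [← h2] at h1 h3
      exact cutl_inj hm (ix f) h1 h3
  refine hle.trans ?_
  rw [hT]
  refine (Finset.card_biUnion_le_card_mul _ _ (D * (m * (m * (m * (B * B))))) ?_).trans
    (Nat.mul_le_mul_right _ hQcard)
  intro p _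
  refine (Finset.card_biUnion_le_card_mul _ _ (m * (m * (m * (B * B)))) ?_).trans
    (Nat.mul_le_mul_right _ (hdle p))
  intro a _
  refine (Finset.card_biUnion_le_card_mul _ _ (m * (m * (B * B))) ?_).trans ?_
  · intro z _
    refine (Finset.card_biUnion_le_card_mul (Finset.range m) _ (m * (B * B)) ?_).trans ?_
    · intro i hi
      rw [Finset.mem_range] at hi
      refine (Finset.card_biUnion_le_card_mul (Finset.range m) _ (B * B) ?_).trans ?_
      · intro k hk
        rw [Finset.mem_range] at hk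
        refine (Finset.card_image₂_le _ _ _).trans ?_
        by_cases hap : a = p
        · rw [if_pos hap, Finset.card_empty, Nat.zero_mul]
          exact Nat.zero_le _
        rw [if_neg hap, if_neg hap]
        have h1 := (hΨ i a p hap).2 (fun j : Fin (i / l) =>
          if h : (j : ℕ) < d then y ⟨j, h⟩ else a)
        have h2 := (hΨ k p a (fun h => hap h.symm)).2 (fun j : Fin (k / l) =>
          if h : i / l + (j : ℕ) < d then y ⟨i / l + (j : ℕ), h⟩ else a)
        rw [Set.ncard_eq_toFinset_card _ (SrcC_fin G a p i (fun u => Ψ i a p u =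
            fun j : Fin (i / l) => if h : (j : ℕ) < d then y ⟨j, h⟩ else a))] at h1
        rw [Set.ncard_eq_toFinset_card _ (SrcC_fin G p a k (fun u => Ψ k p a u =
            fun j : Fin (k / l) => if h : i / l + (j : ℕ) < d then
              y ⟨i / l + (j : ℕ), h⟩ else a))] at h2
        exact Nat.mul_le_mul (h1.trans (hCB i hi)) (h2.trans (hCB k hk))
      · rw [Finset.card_range]
    · rw [Finset.card_range]
  · rw [Finset.card_univ, ZMod.card]

end H46.CY
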