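import Pool.Agent.H46.CY.Short

/-!
# CY.SrcP : sources of paths (about 200 lines)

Strong induction on `t`, `r = t / l`. `t < l`: `r = 0`, there is only one map `Fin 0 → V`, `short_paths`. `t ≥ l ≥ 1`: if `t = 1` (so `l = 1`, `r = 1`) `s = []`: then no `Φ s i ∈ s` is possible, so the case `l = 1` is excluded by the hypothesis `2 ≤ l`; so `t ≥ 2`, `s` is not empty. Write `s = s1 ++ q :: s2`
with `q` the smallest member of `s` (choose such a splitting for every `s`; `exists_min_list`), `t1 = s1.length + 1`, `t2 = s2.length + 1`, `t1 + t2 = t`, `r1 = t1 / l`, `r2 = t2 / l`, `r1 + r2 ≤ r`. By induction there are for all `x ≠ y` maps `Φ t1 x y`, `Φ t2 x y`. Put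
`Φ s i = Φ t1 a q s1 i` for `i < r1`, `Φ t2 q b s2 (i - r1)` for `r1 ≤ i < r1 + r2`, and `q` for `i ≥ r1 + r2`. All are members of `s`. Fibre of `y`: choose `t1 < t` (at most `t` values). If `r1 + r2 < r` then `q = y (r - 1)`; if `r1 + r2 = r` then `r ≥ 1` and `y 0` is a member of `s`, so `q ∈ {u | le u (y 0)}`: at most
`D` values. Given `t1` and `q`, `s1` is in the fibre of `y` restricted to `i < r1` for `(a, q)` and `s2` in the fibre of the next `r2` coordinates for `(q, b)`. So the fibre has at most `t * (D + 1) * C1 * C2` members, `C1`, `C2` bounds for all smaller `t1`, `t2`.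
-/

namespace H46.CY

open Pool.Agent.H3.LC

private theorem SrcP_fin {V : Type} [Finite V] (G : SimpleGraph V) (a b : V) (t : ℕ) :
    {s : List V | PI G a b s ∧ s.length + 1 = t}.Finite :=
  (List.finite_length_eq V (t - 1)).subset fun s hs => by
    have := hs.2
    show s.length = t - 1
    omega

private theorem SrcP_fin' {V : Type} [Finite V] (G : SimpleGraph V) (a b : V) (t : ℕ)
    (p : List V → Prop) : {s : List V | PI G a b s ∧ s.length + 1 = t ∧ p s}.Finite :=
  (SrcP_fin G a b t).subset fun _ hs => ⟨hs.1, hs.2.1⟩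

private theorem SrcP_a {r r1 r2 : ℕ} (h : r1 + r2 < r) :
    ¬ (r - 1 < r1) ∧ ¬ (r - 1 - r1 < r2) := by
  constructor <;> omega

private theorem SrcP_b {r r1 r2 j : ℕ} (h : r1 + r2 ≤ r) (hj : j < r2) :
    r1 + j < r ∧ ¬ (r1 + j < r1) ∧ r1 + j - r1 < r2 ∧ j = r1 + j - r1 := by
  refine ⟨?_, ?_, ?_, ?_⟩ <;> omega

private theorem SrcP_c {r r1 r2 j : ℕ} (h : r1 + r2 ≤ r) (hj : j < r1) : j < r := by
  omega

theorem src_path (D l : ℕ) (hl : 2 ≤ l) (t : ℕ) :
    ∃ C : ℕ, ∀ (V : Type) [Finite V] (G : SimpleGraph V) (le : V → V → Prop), IsElim G D le →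
      NoEven G l → ∀ a b : V, a ≠ b → ∃ Φ : List V → Fin (t / l) → V,
        (∀ s, PI G a b s → s.length + 1 = t → ∀ i, Φ s i ∈ s) ∧
        ∀ y, {s : List V | PI G a b s ∧ s.length + 1 = t ∧ Φ s = y}.ncard ≤ C := by
  classical
  induction t using Nat.strong_induction_on with
  | _ t ih =>
    rcases Nat.lt_or_ge t l with htl | htl
    · -- short paths
      obtain ⟨C, hC⟩ := short_paths D l t htl
      refine ⟨C, ?_⟩
      intro V _ G le hE hN a b hab
      refine ⟨fun _ _ => a, ?_, ?_⟩
      · intro s _ _ i
        have h0 : t / l = 0 := Nat.div_eq_of_lt htl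
        exact absurd i.2 (by omega)
      · intro y
        refine (Set.ncard_le_ncard ?_ (SrcP_fin G a b t)).trans (hC V G le hE hN a b hab)
        intro s hs
        exact ⟨hs.1, hs.2.1⟩
    · have ih' : ∀ t' : ℕ, ∃ C : ℕ, t' < t → ∀ (V : Type) [Finite V] (G : SimpleGraph V)
          (le : V → V → Prop), IsElim G D le → NoEven G l → ∀ a b : V, a ≠ b →
          ∃ Φ : List V → Fin (t' / l) → V,
            (∀ s, PI G a b s → s.length + 1 = t' → ∀ i, Φ s i ∈ s) ∧
            ∀ y, {s : List V | PI G a b s ∧ s.length + 1 = t' ∧ Φ s = y}.ncard ≤ C := by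
        intro t'
        by_cases h : t' < t
        · obtain ⟨C, hC⟩ := ih t' h
          exact ⟨C, fun _ => hC⟩
        · exact ⟨0, fun h' => absurd h' h⟩
      choose C hC using ih'
      obtain ⟨B, hB⟩ : ∃ B, B = ∑ t' ∈ Finset.range t, C t' := ⟨_, rfl⟩
      have hCB : ∀ t' < t, C t' ≤ B := by
        intro t' h
        rw [hB]
        exact Finset.single_le_sum (f := C) (fun _ _ => Nat.zero_le _) (Finset.mem_range.2 h)
      have hr : 1 ≤ t / l := (Nat.one_le_div_iff (by omega)).2 htl
      refine ⟨(D + 1) * (t * (t * (B * B))), ?_⟩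
      intro V _ G le hE hN a b hab
      -- the maps for shorter paths
      have hΦ' : ∀ (t' : ℕ) (x z : V), ∃ Φ : List V → Fin (t' / l) → V, t' < t → x ≠ z →
          (∀ s, PI G x z s → s.length + 1 = t' → ∀ i, Φ s i ∈ s) ∧
            ∀ y, {s : List V | PI G x z s ∧ s.length + 1 = t' ∧ Φ s = y}.ncard ≤ C t' := by
        intro t' x z
        by_cases h : t' < t ∧ x ≠ z
        · obtain ⟨Φ, hΦ⟩ := hC t' h.1 V G le hE hN x z h.2
          exact ⟨Φ, fun _ _ => hΦ⟩
        · exact ⟨fun _ _ => x, fun h1 h2 => absurd ⟨h1, h2⟩ h⟩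
      choose Ψ hΨ using hΦ'
      -- the splitting at the smallest member
      have hsp : ∀ s : List V, ∃ (s1 : List V) (q : V) (s2 : List V), PI G a b s → s.length + 1 = t →
          s = s1 ++ q :: s2 ∧ ∀ x ∈ s, le q x := by
        intro s
        by_cases h : PI G a b s ∧ s.length + 1 = t
        · obtain ⟨hs, hlen⟩ := h
          obtain ⟨q, hq, hqx⟩ : ∃ r ∈ s, ∀ x ∈ s, le r x := by
            refine exists_min_list hE s ?_ ?_
            · rintro rfl
              simp only [List.length_nil] at hlen
              omega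
            · exact List.IsChain.left_of_append (l₁ := s) (l₂ := [b]) hs.1.tail
          obtain ⟨s1, s2, hs12⟩ := List.append_of_mem hq
          exact ⟨s1, q, s2, fun _ _ => ⟨hs12, hqx⟩⟩
        · exact ⟨[], a, [], fun h1 h2 => absurd ⟨h1, h2⟩ h⟩
      choose s1 q s2 hsp using hsp
      obtain ⟨Φ, hΦ⟩ : ∃ Φ : List V → Fin (t / l) → V, ∀ s i, Φ s i =
          if h1 : (i : ℕ) < ((s1 s).length + 1) / l then
            Ψ ((s1 s).length + 1) a (q s) (s1 s) ⟨i, h1⟩
          else if h2 : (i : ℕ) - ((s1 s).length + 1) / l < ((s2 s).length + 1) / l then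
            Ψ ((s2 s).length + 1) (q s) b (s2 s) ⟨(i : ℕ) - ((s1 s).length + 1) / l, h2⟩
          else q s := ⟨_, fun _ _ => rfl⟩
      -- the facts on one path
      have key : ∀ s, PI G a b s → s.length + 1 = t →
          s = s1 s ++ q s :: s2 s ∧ (∀ x ∈ s, le (q s) x) ∧ PI G a (q s) (s1 s) ∧
          PI G (q s) b (s2 s) ∧ a ≠ q s ∧ q s ≠ b ∧
          ((s1 s).length + 1) + ((s2 s).length + 1) = t := by
        intro s hs hlen
        obtain ⟨e, hm⟩ := hsp s hs hlen
        have hs' := hs
        rw [e] at hs'
        obtain ⟨p1, p2⟩ := pi_split hs'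
        refine ⟨e, hm, p1, p2, ?_, ?_, ?_⟩
        · intro h
          exact hs'.2.2.1 (by rw [h]; simp)
        · intro h
          exact hs'.2.2.2 (by rw [h]; simp)
        · have := congrArg List.length e
          rw [List.length_append, List.length_cons] at this
          omega
      have hmem : ∀ s, PI G a b s → s.length + 1 = t → ∀ i, Φ s i ∈ s := by
        intro s hs hlen i
        obtain ⟨e, hm, p1, p2, haq, hqb, hsum⟩ := key s hs hlen
        have hsub1 : ∀ x ∈ s1 s, x ∈ s := by
          intro x hx
          rw [e]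
          exact List.mem_append_left _ hx
        have hsub2 : ∀ x ∈ s2 s, x ∈ s := by
          intro x hx
          rw [e]
          exact List.mem_append_right _ (List.mem_cons_of_mem _ hx)
        have hsubq : q s ∈ s := by
          have h5 : q s ∈ s1 s ++ q s :: s2 s := by simp
          rwa [← e] at h5
        rw [hΦ]
        split_ifs with h1 h2
        · exact hsub1 _ ((hΨ _ a (q s) (by omega) haq).1 _ p1 rfl _)
        · exact hsub2 _ ((hΨ _ (q s) b (by omega) hqb).1 _ p2 rfl _)
        · exact hsubq
      refine ⟨Φ, hmem, ?_⟩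
      intro y
      have hfin := SrcP_fin' G a b t (fun s => Φ s = y)
      rw [Set.ncard_eq_toFinset_card _ hfin]
      -- the possible smallest members
      have hQfin : {u | le u (y ⟨0, hr⟩)}.Finite := Set.toFinite _
      have hQcard : (insert (y ⟨t / l - 1, by omega⟩) hQfin.toFinset).card ≤ D + 1 := by
        refine (Finset.card_insert_le _ _).trans (Nat.succ_le_succ ?_)
        have h2 := hE.height (y ⟨0, hr⟩)
        rw [hQfin.encard_eq_coe_toFinset_card] at h2
        exact_mod_cast h2
      have hsub : hfin.toFinset ⊆ (insert (y ⟨t / l - 1, by omega⟩) hQfin.toFinset).biUnion fun p =>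
          (Finset.range t).biUnion fun i => (Finset.range t).biUnion fun k =>
          Finset.image₂ (fun u1 u2 => u1 ++ p :: u2)
            (if a = p then ∅ else (SrcP_fin' G a p i (fun u => Ψ i a p u =
              fun j : Fin (i / l) => if h : (j : ℕ) < t / l then y ⟨j, h⟩ else a)).toFinset)
            (if p = b then ∅ else (SrcP_fin' G p b k (fun u => Ψ k p b u =
              fun j : Fin (k / l) => if h : i / l + (j : ℕ) < t / l then
                y ⟨i / l + (j : ℕ), h⟩ else a)).toFinset) := by
        intro s hs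
        rw [Set.Finite.mem_toFinset] at hs
        obtain ⟨hs, hlen, hy⟩ := hs
        obtain ⟨e, hm, p1, p2, haq, hqb, hsum⟩ := key s hs hlen
        have hdiv : ((s1 s).length + 1) / l + ((s2 s).length + 1) / l ≤ t / l := by
          have := Nat.add_div_le_add_div ((s1 s).length + 1) ((s2 s).length + 1) l
          rwa [hsum] at this
        rw [Finset.mem_biUnion]
        refine ⟨q s, ?_, ?_⟩
        · rw [Finset.mem_insert, Set.Finite.mem_toFinset]
          by_cases hlt : ((s1 s).length + 1) / l + ((s2 s).length + 1) / l < t / l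
          · left
            obtain ⟨n1, n2⟩ := SrcP_a hlt
            have h3 := congrFun hy ⟨t / l - 1, by omega⟩
            rw [hΦ, dif_neg n1, dif_neg n2] at h3
            exact h3
          · right
            have h0 : y ⟨0, hr⟩ ∈ s := by
              rw [← hy]
              exact hmem s hs hlen _
            exact hm _ h0
        · rw [Finset.mem_biUnion]
          refine ⟨(s1 s).length + 1, Finset.mem_range.2 (by omega), ?_⟩
          rw [Finset.mem_biUnion]
          refine ⟨(s2 s).length + 1, Finset.mem_range.2 (by omega), ?_⟩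
          rw [Finset.mem_image₂]
          refine ⟨s1 s, ?_, s2 s, ?_, e.symm⟩
          · rw [if_neg haq, Set.Finite.mem_toFinset]
            refine ⟨p1, rfl, ?_⟩
            funext j
            have hj := j.2
            have hjt : (j : ℕ) < t / l := SrcP_c hdiv hj
            rw [dif_pos hjt, ← hy, hΦ, dif_pos hj]
          · rw [if_neg hqb, Set.Finite.mem_toFinset]
            refine ⟨p2, rfl, ?_⟩
            funext j
            have hj := j.2
            obtain ⟨hjt, n1, n2, n3⟩ := SrcP_b hdiv hj
            rw [dif_pos hjt, ← hy, hΦ, dif_neg n1, dif_pos n2]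
            congr 1
            exact Fin.ext n3
      refine (Finset.card_le_card hsub).trans ?_
      refine (Finset.card_biUnion_le_card_mul _ _ (t * (t * (B * B))) ?_).trans
        (Nat.mul_le_mul_right _ hQcard)
      intro p _
      refine (Finset.card_biUnion_le_card_mul (Finset.range t) _ (t * (B * B)) ?_).trans ?_
      · intro i hi
        rw [Finset.mem_range] at hi
        refine (Finset.card_biUnion_le_card_mul (Finset.range t) _ (B * B) ?_).trans ?_
        · intro k hk
          rw [Finset.mem_range] at hk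
          refine (Finset.card_image₂_le _ _ _).trans ?_
          by_cases hap : a = p
          · rw [if_pos hap, Finset.card_empty, Nat.zero_mul]
            exact Nat.zero_le _
          by_cases hpb : p = b
          · rw [if_pos hpb, Finset.card_empty, Nat.mul_zero]
            exact Nat.zero_le _
          rw [if_neg hap, if_neg hpb]
          have h1 := (hΨ i a p hi hap).2 (fun j : Fin (i / l) =>
            if h : (j : ℕ) < t / l then y ⟨j, h⟩ else a)
          have h2 := (hΨ k p b hk hpb).2 (fun j : Fin (k / l) =>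
            if h : i / l + (j : ℕ) < t / l then y ⟨i / l + (j : ℕ), h⟩ else a)
          rw [Set.ncard_eq_toFinset_card _ (SrcP_fin' G a p i (fun u => Ψ i a p u =
              fun j : Fin (i / l) => if h : (j : ℕ) < t / l then y ⟨j, h⟩ else a))] at h1
          rw [Set.ncard_eq_toFinset_card _ (SrcP_fin' G p b k (fun u => Ψ k p b u =
              fun j : Fin (k / l) => if h : i / l + (j : ℕ) < t / l then
                y ⟨i / l + (j : ℕ), h⟩ else a))] at h2
          exact Nat.mul_le_mul (h1.trans (hCB i hi)) (h2.trans (hCB k hk))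
        · rw [Finset.card_range]
      · rw [Finset.card_range]

end H46.CY
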